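import Pool.Agent.P.MP_d0ec72_al.Noeth

/-! The twisted Fibonacci Lie algebra of derivations. -/

namespace Pool.Agent.P.MP_d0ec72_al

open Module

variable {k K : Type*} [Field k] [Field K] [Algebra k K]

/-- The coefficient of a derivation at level `n`. -/
def co (x : ℕ → K) (n : ℕ) (D : Derivation k K K) : K := D (x (n + 3)) - x (n + 1) * D (x (n + 2))

theorem co_lie (x : ℕ → K) (n : ℕ) (D E : Derivation k K K) :
    co x (n + 1) ⁅D, E⁆ = D (co x (n + 1) E) - E (co x (n + 1) D) +
      (D (x (n + 2)) * co x n E - E (x (n + 2)) * co x n D) := by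
  simp only [co, Derivation.commutator_apply, map_sub, Derivation.leibniz, smul_eq_mul]
  ring

theorem der_kap (x : ℕ → K) (D : Derivation k K K) (n : ℕ)
    (h : ∀ m, m < n → D (x m) ∈ kap k x n) {z : K} (hz : z ∈ kap k x n) : D z ∈ kap k x n := by
  induction hz using Algebra.adjoin_induction with
  | mem z hz =>
    obtain ⟨m, hm, rfl⟩ := hz
    exact h m hm
  | algebraMap r => rw [Derivation.map_algebraMap]; exact Subalgebra.zero_mem _
  | add u v _ _ hu hv => rw [map_add]; exact Subalgebra.add_mem _ hu hv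
  | mul u v hu' hv' hu hv =>
    rw [Derivation.leibniz]
    exact Subalgebra.add_mem _ (Subalgebra.mul_mem _ hu' hv) (Subalgebra.mul_mem _ hv' hu)

/-- The defining conditions. -/
structure Good (x : ℕ → K) (D : Derivation k K K) : Prop where
  h0 : D (x 0) = 0
  h1 : D (x 1) = 0
  h2 : D (x 2) = 0
  mem : ∀ n, co x n D ∈ kap k x n
  ev : ∃ n, ∀ m, n ≤ m → co x m D = 0

theorem Good.val {x : ℕ → K} {D : Derivation k K K} (h : Good x D) :
    ∀ n, D (x (n + 2)) ∈ kap k x (n + 1)
  | 0 => by rw [zero_add, h.h2]; exact Subalgebra.zero_mem _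
  | n + 1 => by
    have : D (x (n + 3)) = co x n D + x (n + 1) * D (x (n + 2)) := by simp [co]
    rw [this]
    exact Subalgebra.add_mem _ (kap_mono x (by omega) (h.mem n))
      (Subalgebra.mul_mem _ (mem_kap x (by omega)) (kap_mono x (by omega) (h.val n)))

theorem Good.val' {x : ℕ → K} {D : Derivation k K K} (h : Good x D) :
    ∀ m, D (x m) ∈ kap k x m
  | 0 => by rw [h.h0]; exact Subalgebra.zero_mem _
  | 1 => by rw [h.h1]; exact Subalgebra.zero_mem _
  | m + 2 => kap_mono x (by omega) (h.val m)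

theorem Good.pres {x : ℕ → K} {D : Derivation k K K} (h : Good x D) (n : ℕ) {z : K}
    (hz : z ∈ kap k x n) : D z ∈ kap k x n :=
  der_kap x D n (fun m hm => kap_mono x hm.le (h.val' m)) hz

theorem Good.lie {x : ℕ → K} {D E : Derivation k K K} (hD : Good x D) (hE : Good x E) :
    Good x ⁅D, E⁆ where
  h0 := by simp [Derivation.commutator_apply, hD.h0, hE.h0]
  h1 := by simp [Derivation.commutator_apply, hD.h1, hE.h1]
  h2 := by simp [Derivation.commutator_apply, hD.h2, hE.h2]
  mem n := by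
    cases n with
    | zero =>
      have h1 := hD.mem 0
      have h2 := hE.mem 0
      rw [kap_zero] at h1 h2 ⊢
      obtain ⟨a, ha⟩ := Algebra.mem_bot.1 h1
      obtain ⟨b, hb⟩ := Algebra.mem_bot.1 h2
      simp only [co, zero_add, hD.h2, hE.h2, mul_zero, sub_zero] at ha hb
      simp [co, Derivation.commutator_apply, hD.h2, hE.h2, ← ha, ← hb]
    | succ n =>
      rw [co_lie]
      exact Subalgebra.add_mem _
        (Subalgebra.sub_mem _ (hD.pres _ (hE.mem _)) (hE.pres _ (hD.mem _)))
        (Subalgebra.sub_mem _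
          (Subalgebra.mul_mem _ (hD.val n) (kap_mono x (by omega) (hE.mem n)))
          (Subalgebra.mul_mem _ (hE.val n) (kap_mono x (by omega) (hD.mem n))))
  ev := by
    obtain ⟨i, hi⟩ := hD.ev
    obtain ⟨j, hj⟩ := hE.ev
    refine ⟨i + j + 1, fun m hm => ?_⟩
    obtain ⟨m, rfl⟩ : ∃ m', m = m' + 1 := ⟨m - 1, by omega⟩
    rw [co_lie, hi m (by omega), hj m (by omega), hi (m + 1) (by omega), hj (m + 1) (by omega)]
    simp

theorem co_add (x : ℕ → K) (n : ℕ) (D E : Derivation k K K) :
    co x n (D + E) = co x n D + co x n E := by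
  simp only [co, Derivation.add_apply]; ring

theorem co_smul (x : ℕ → K) (n : ℕ) (c : k) (D : Derivation k K K) :
    co x n (c • D) = c • co x n D := by
  simp only [co, Derivation.smul_apply, smul_sub, mul_smul_comm]

/-- The twisted Fibonacci Lie algebra. -/
def LL (k : Type*) {K : Type*} [Field k] [Field K] [Algebra k K] (x : ℕ → K) :
    LieSubalgebra k (Derivation k K K) where
  carrier := {D | Good x D}
  add_mem' := by
    intro D E hD hE
    refine ⟨by simp [hD.h0, hE.h0], by simp [hD.h1, hE.h1], by simp [hD.h2, hE.h2], fun n => ?_, ?_⟩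
    · rw [co_add]; exact Subalgebra.add_mem _ (hD.mem n) (hE.mem n)
    · obtain ⟨i, hi⟩ := hD.ev
      obtain ⟨j, hj⟩ := hE.ev
      exact ⟨i + j, fun m hm => by rw [co_add, hi m (by omega), hj m (by omega), add_zero]⟩
  zero_mem' := ⟨rfl, rfl, rfl, fun n => by simp [co], 0, fun m _ => by simp [co]⟩
  smul_mem' := by
    intro c D hD
    refine ⟨by simp [hD.h0], by simp [hD.h1], by simp [hD.h2], fun n => ?_, ?_⟩
    · rw [co_smul]; exact Subalgebra.smul_mem _ (hD.mem n) c
    · obtain ⟨i, hi⟩ := hD.ev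
      exact ⟨i, fun m hm => by rw [co_smul, hi m hm, smul_zero]⟩
  lie_mem' hD hE := Good.lie hD hE

/-- The coefficient system of the twisted Fibonacci algebra. -/
def sys (h : Sq k K) (x : ℕ → K) (hx : ∀ n, x n ∉ kap k x n)
    (htop : Algebra.adjoin k (Set.range x) = ⊤) : Sys k K (LL k x) where
  sq := h
  x := x
  nmem := hx
  f n := ⟨⟨fun D => co x n D.1, fun D E => co_add x n D.1 E.1⟩, fun c D => co_smul x n c D.1⟩
  e n := ⟨⟨fun D => D.1 (x (n + 2)), fun _ _ => rfl⟩, fun _ _ => rfl⟩
  fκ n D := Good.mem D.2 n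
  eκ n D := Good.val D.2 n
  e0 D := Good.h2 D.2
  es n D := by simp [co]
  faith D hD := by
    apply Subtype.ext
    refine Derivation.ext_of_adjoin_eq_top _ htop ?_
    rintro _ ⟨n, rfl⟩
    match n with
    | 0 => exact Good.h0 D.2
    | 1 => exact Good.h1 D.2
    | n + 2 => exact hD n
  ev D := Good.ev D.2
  br n D E hD hE := by
    have hD' : co x (n + 1) D.1 = 0 := hD
    have hE' : co x (n + 1) E.1 = 0 := hE
    have := co_lie x n D.1 E.1
    rw [hD', hE', map_zero, map_zero, sub_zero, zero_add] at this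
    exact this

theorem LL_big [CharP K 2] (h : Sq k K) (x : ℕ → K) (hx : ∀ n, x n ∉ kap k x n)
    (htop : Algebra.adjoin k (Set.range x) = ⊤) (n : ℕ) : ∃ D : LL k x, co x n D.1 ≠ 0 := by
  classical
  let a : ℕ → K := fun m => Nat.rec 0 (fun j s => (if j = n then 1 else 0) + x (j + 1) * s) m
  obtain ⟨D, hD⟩ := exists_der h x hx htop fun m => a (m - 2)
  have hc : ∀ m, co x m D = if m = n then 1 else 0 := by
    intro m
    rw [co, hD, hD]
    change (if m = n then 1 else 0) + x (m + 1) * a m - x (m + 1) * a m = _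
    ring
  refine ⟨⟨D, hD 0, hD 1, hD 2, fun m => ?_, n + 1, fun m hm => ?_⟩, by simp [hc]⟩
  · rw [hc]
    split_ifs
    · exact Subalgebra.one_mem _
    · exact Subalgebra.zero_mem _
  · rw [hc, if_neg (by omega)]

/-- Elements killed by all products of `s` derivations of the algebra. -/
def Nil (k : Type*) {K : Type*} [Field k] [Field K] [Algebra k K] (x : ℕ → K) :
    ℕ → AddSubgroup K
  | 0 => ⊥
  | s + 1 => ⨅ D : LL k x, (Nil k x s).comap D.1.toLinearMap.toAddMonoidHom

theorem mem_Nil (x : ℕ → K) (s : ℕ) (z : K) :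
    z ∈ Nil k x (s + 1) ↔ ∀ D : LL k x, D.1 z ∈ Nil k x s := by
  simp [Nil, AddSubgroup.mem_iInf]

theorem Nil_succ (x : ℕ → K) : ∀ s, Nil k x s ≤ Nil k x (s + 1)
  | 0 => bot_le
  | s + 1 => fun z hz => (mem_Nil x _ z).2 fun D => Nil_succ x s ((mem_Nil x _ z).1 hz D)

theorem kap_Nil (h : Sq k K) (x : ℕ → K) : ∀ m, ∃ S, ∀ z ∈ kap k x m, z ∈ Nil k x S
  | 0 => ⟨1, fun z hz => by
    rw [kap_zero] at hz
    obtain ⟨c, rfl⟩ := Algebra.mem_bot.1 hz
    rw [mem_Nil]
    intro D
    rw [Derivation.map_algebraMap]; exact zero_mem _⟩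
  | m + 1 => by
    obtain ⟨S, hS⟩ := kap_Nil h x m
    have mono : Monotone (Nil k x) := monotone_nat_of_le_succ (Nil_succ x)
    have key : ∀ j, ∀ a ∈ kap k x m, ∀ b ∈ kap k x m, b ∈ Nil k x j →
        a + b * x m ∈ Nil k x (S + j) := by
      intro j
      induction j with
      | zero =>
        intro a ha b _ hb
        rw [(AddSubgroup.mem_bot.1 hb : b = 0)]
        simpa using hS a ha
      | succ j ih =>
        intro a ha b hb hb'
        rw [← add_assoc, mem_Nil]
        intro D
        have := ih (D.1 a + b * D.1 (x m)) (Subalgebra.add_mem _ (Good.pres D.2 m ha)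
          (Subalgebra.mul_mem _ hb (Good.val' D.2 m))) (D.1 b) (Good.pres D.2 m hb)
          ((mem_Nil x _ b).1 hb' D)
        convert this using 1
        simp only [map_add, Derivation.leibniz, smul_eq_mul]
        ring
    refine ⟨S + S, fun z hz => ?_⟩
    obtain ⟨a, ha, b, hb, rfl⟩ := kap_succ x m (h _) hz
    exact key S a ha b hb (hS b hb)

theorem lcs_Nil (x : ℕ → K) : ∀ t, ∀ D ∈ LieModule.lowerCentralSeries k (LL k x) (LL k x) t,
    ∀ s, ∀ z ∈ Nil k x (s + t + 1), D.1 z ∈ Nil k x s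
  | 0 => fun D _ s z hz => (mem_Nil x _ z).1 hz D
  | t + 1 => by
    intro D hD
    rw [LieModule.lowerCentralSeries_succ, ← LieSubmodule.mem_toSubmodule,
      LieSubmodule.lieIdeal_oper_eq_linear_span'] at hD
    have hsm : ∀ s (c : k), ∀ z ∈ Nil k x s, c • z ∈ Nil k x s := by
      intro s
      induction s with
      | zero => intro c z hz; rw [(AddSubgroup.mem_bot.1 hz : z = 0), smul_zero]; exact zero_mem _
      | succ s ih =>
        intro c z hz
        rw [mem_Nil] at hz ⊢
        intro E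
        rw [Derivation.map_smul]
        exact ih c _ (hz E)
    induction hD using Submodule.span_induction with
    | mem D hD =>
      obtain ⟨E, -, A, hA, rfl⟩ := hD
      intro s z hz
      have h1 := (mem_Nil x _ _).1 (lcs_Nil x t A hA (s + 1) z (by rwa [show s + 1 + t + 1 = s + (t + 1) + 1 by ring])) E
      have h2 := lcs_Nil x t A hA s _ ((mem_Nil x _ _).1 hz E)
      exact sub_mem h1 h2
    | zero => intro s z _; exact zero_mem _
    | add D E _ _ hD hE => intro s z hz; exact add_mem (hD s z hz) (hE s z hz)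
    | smul c D _ hD => intro s z hz; exact hsm s c _ (hD s z hz)

theorem LL_res (h : Sq k K) (x : ℕ → K) (htop : Algebra.adjoin k (Set.range x) = ⊤) :
    ⨅ n, LieModule.lowerCentralSeries k (LL k x) (LL k x) n = ⊥ := by
  rw [eq_bot_iff]
  intro D hD
  rw [LieSubmodule.mem_iInf] at hD
  rw [LieSubmodule.mem_bot]
  apply Subtype.ext
  refine Derivation.ext_of_adjoin_eq_top _ htop ?_
  rintro _ ⟨n, rfl⟩
  obtain ⟨S, hS⟩ := kap_Nil h x (n + 1)
  exact AddSubgroup.mem_bot.1 (lcs_Nil x S D (hD S) 0 _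
    (by rw [zero_add]; exact Nil_succ x S (hS _ (mem_kap x (Nat.lt_succ_self n)))))

theorem main_top [CharP K 2] (h : Sq k K) (x : ℕ → K) (hx : ∀ n, x n ∉ kap k x n)
    (htop : Algebra.adjoin k (Set.range x) = ⊤) :
    ¬ Module.Finite k (LL k x) ∧
      (∀ c : ℕ →o LieSubalgebra k (LL k x), ∃ n, ∀ m, n ≤ m → c m = c n) ∧
      ⨅ n, LieModule.lowerCentralSeries k (LL k x) (LL k x) n = ⊥ :=
  ⟨(sys h x hx htop).not_finite (LL_big h x hx htop), (sys h x hx htop).noeth, LL_res h x htop⟩

end Pool.Agent.P.MP_d0ec72_al
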