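import Pool.Agent.P.MP_d0ec72_al.Fld

/-! The saturation lemma: top coefficient spaces are eventually generated from below. -/

namespace Pool.Agent.P.MP_d0ec72_al

open Module

variable {k K : Type*} [Field k] [Field K] [Algebra k K]

/-- A tower of quadratic steps with two families of subspaces. -/
structure Tw (k K : Type*) [Field k] [Field K] [Algebra k K] where
  sq : Sq k K
  κ : ℕ → Subalgebra k K
  x : ℕ → K
  mono : ∀ n, κ n ≤ κ (n + 1)
  nmem : ∀ n, x n ∉ κ n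
  fin : ∀ n, Module.Finite k (κ n)
  two : ∀ n, finrank k (κ (n + 1)) = 2 * finrank k (κ n)
  T : ℕ → Submodule k K
  U : ℕ → Submodule k K
  hT : ∀ n, ∀ t ∈ T n, t ∈ κ n
  hU : ∀ n, ∀ u ∈ U n, u ∈ κ (n + 1)
  ha : ∀ n, T n * U n ≤ T (n + 1)
  hb : ∀ n, ∀ u ∈ U n, x (n + 1) * u ∈ U (n + 1)
  hc : ∀ n, ∀ t ∈ T n, ∃ w ∈ κ (n + 1), t + x (n + 1) * w ∈ U (n + 1)
  g0 : K
  b0 : K
  g0m : g0 ∈ T 0
  b0m : b0 ∈ U 0
  g00 : g0 ≠ 0
  b00 : b0 ≠ 0

namespace Tw

variable (w : Tw k K)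

theorem x_ne (n : ℕ) : w.x n ≠ 0 := fun h => w.nmem n (h ▸ (w.κ n).zero_mem)

/-- Reference elements of `U`. -/
def b : ℕ → K
  | 0 => w.b0
  | n + 1 => w.x (n + 1) * b n

/-- Reference elements of `T`. -/
def g : ℕ → K
  | 0 => w.g0
  | n + 1 => g n * w.b n

theorem b_mem : ∀ n, w.b n ∈ w.U n
  | 0 => w.b0m
  | n + 1 => w.hb n _ (b_mem n)

theorem b_ne : ∀ n, w.b n ≠ 0
  | 0 => w.b00
  | n + 1 => mul_ne_zero (w.x_ne _) (b_ne n)

theorem g_mem : ∀ n, w.g n ∈ w.T n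
  | 0 => w.g0m
  | n + 1 => w.ha n (Submodule.mul_mem_mul (g_mem n) (w.b_mem n))

theorem g_ne : ∀ n, w.g n ≠ 0
  | 0 => w.g00
  | n + 1 => mul_ne_zero (g_ne n) (w.b_ne n)

/-- Normalised value spaces. -/
def Y (n : ℕ) : Submodule k K := (w.U n).map (LinearMap.mulLeft k (w.b n))

/-- Normalised top spaces. -/
def X (n : ℕ) : Submodule k K := (w.T n).map (LinearMap.mulLeft k (w.g n))

/-- Ratio fields. -/
def R (n : ℕ) : Subalgebra k K := Algebra.adjoin k (w.Y n : Set K)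

theorem one_Y (n : ℕ) : (1 : K) ∈ w.Y n := w.sq.one_mem _ (w.b_mem n) (w.b_ne n)

theorem one_X (n : ℕ) : (1 : K) ∈ w.X n := w.sq.one_mem _ (w.g_mem n) (w.g_ne n)

theorem Y_mono (n : ℕ) : w.Y n ≤ w.Y (n + 1) := by
  rintro _ ⟨u, hu, rfl⟩
  obtain ⟨c, hc⟩ := w.sq.inv_smul (w.x (n + 1))
  refine ⟨(w.x (n + 1))⁻¹ * u, ?_, ?_⟩
  · rw [hc, smul_mul_assoc]; exact Submodule.smul_mem _ c (w.hb n u hu)
  · have := w.x_ne (n + 1)
    simp only [LinearMap.mulLeft_apply, b]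
    field_simp

theorem Y_κ (n : ℕ) : ∀ z ∈ w.Y n, z ∈ w.κ (n + 1) := by
  rintro _ ⟨u, hu, rfl⟩
  exact Subalgebra.mul_mem _ (w.hU n _ (w.b_mem n)) (w.hU n u hu)

theorem X_κ (n : ℕ) : ∀ z ∈ w.X n, z ∈ w.κ n := by
  rintro _ ⟨u, hu, rfl⟩
  exact Subalgebra.mul_mem _ (w.hT n _ (w.g_mem n)) (w.hT n u hu)

theorem R_κ (n : ℕ) : w.R n ≤ w.κ (n + 1) := Algebra.adjoin_le (w.Y_κ n)

theorem R_mono (n : ℕ) : w.R n ≤ w.R (n + 1) := Algebra.adjoin_mono (w.Y_mono n)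

theorem Y_R (n : ℕ) : ∀ z ∈ w.Y n, z ∈ w.R n := fun _ hz => Algebra.subset_adjoin hz

theorem fin_le {n : ℕ} {A : Submodule k K} (h : ∀ z ∈ A, z ∈ w.κ n) : Module.Finite k A := by
  have : Module.Finite k (Subalgebra.toSubmodule (w.κ n)) := w.fin n
  exact Submodule.finiteDimensional_of_le (S₂ := Subalgebra.toSubmodule (w.κ n)) h

theorem fin_R (n : ℕ) : Module.Finite k (w.R n) :=
  w.fin_le (A := Subalgebra.toSubmodule (w.R n)) (w.R_κ n)

theorem lift_T (n : ℕ) {t : K} (ht : t ∈ w.T n) :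
    ∃ r ∈ w.κ (n + 1), r + t * w.b n * w.x (n + 1) ∈ w.Y (n + 1) := by
  obtain ⟨v, hv, hu⟩ := w.hc n t ht
  refine ⟨w.x (n + 1) * w.x (n + 1) * (w.b n * v), ?_, _, hu, ?_⟩
  · exact Subalgebra.mul_mem _ (w.sq.sq_mem _ _)
      (Subalgebra.mul_mem _ (w.hU n _ (w.b_mem n)) hv)
  · simp only [LinearMap.mulLeft_apply, b]; ring

theorem gb_κ (n : ℕ) {t : K} (ht : t ∈ w.T n) : t * w.b n ∈ w.κ (n + 1) :=
  Subalgebra.mul_mem _ (w.mono n (w.hT n t ht)) (w.hU n _ (w.b_mem n))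

/-- The constant part of the new generator. -/
noncomputable def r (n : ℕ) : K := (w.lift_T n (w.g_mem n)).choose

/-- The new generator of the ratio field. -/
noncomputable def y (n : ℕ) : K := w.r n + w.g n * w.b n * w.x (n + 1)

theorem r_κ (n : ℕ) : w.r n ∈ w.κ (n + 1) := (w.lift_T n (w.g_mem n)).choose_spec.1

theorem y_Y (n : ℕ) : w.y n ∈ w.Y (n + 1) := (w.lift_T n (w.g_mem n)).choose_spec.2

theorem y_nmem (n : ℕ) : w.y n ∉ w.κ (n + 1) := by
  intro h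
  have := w.sq.uniq (w.κ (n + 1)) (w.nmem (n + 1)) (w.r_κ n) (w.gb_κ n (w.g_mem n)) h
    (Subalgebra.zero_mem _) (by simp [y])
  exact mul_ne_zero (w.g_ne n) (w.b_ne n) this.1

theorem two_R (n : ℕ) (Z : Submodule k K) (hZ : ∀ z ∈ Z, z ∈ w.κ (n + 2))
    (h1 : ∀ a ∈ w.R n, a ∈ Z) (h2 : ∀ a ∈ w.R n, ∃ r ∈ w.κ (n + 1), r + a * w.y n ∈ Z) :
    2 * finrank k (w.R n) ≤ finrank k Z := by
  have := w.fin_le hZ
  have := w.sq.two_piece (w.κ (n + 1)) (w.y_nmem n) (Subalgebra.toSubmodule (w.R n))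
    (Subalgebra.toSubmodule (w.R n)) Z (w.R_κ n) (w.R_κ n) h1 h2
  rw [Subalgebra.finrank_toSubmodule] at this
  omega

theorem R_two (n : ℕ) : 2 * finrank k (w.R n) ≤ finrank k (w.R (n + 1)) := by
  refine w.two_R n (Subalgebra.toSubmodule (w.R (n + 1))) (w.R_κ (n + 1)) (w.R_mono n) ?_
  intro a ha
  refine ⟨0, Subalgebra.zero_mem _, ?_⟩
  rw [zero_add]
  exact Subalgebra.mul_mem _ (w.R_mono n ha) (w.Y_R _ _ (w.y_Y n))

theorem R_pos (n : ℕ) : 0 < finrank k (w.R n) := by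
  have := w.fin_R n
  exact Module.finrank_pos

theorem R_dvd (n : ℕ) : finrank k (w.R n) ∣ finrank k (w.κ (n + 1)) :=
  IntermediateField.finrank_dvd_of_le_right
    (F := (w.R n).toIntermediateField fun _ hz => w.sq.inv_mem' _ hz)
    (E := (w.κ (n + 1)).toIntermediateField fun _ hz => w.sq.inv_mem' _ hz) (w.R_κ n)

theorem exists_m : ∃ m, ∀ n, m ≤ n → finrank k (w.R (n + 1)) = 2 * finrank k (w.R n) := by
  choose ι hι using w.R_dvd
  have hpos : ∀ n, 0 < ι n := by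
    intro n
    have := w.fin (n + 1)
    have h0 : 0 < finrank k (w.κ (n + 1)) := Module.finrank_pos
    rw [hι n] at h0
    exact Nat.pos_of_mul_pos_left h0
  have key : ∀ n, finrank k (w.R (n + 1)) * ι (n + 1) = 2 * finrank k (w.R n) * ι n := by
    intro n
    rw [← hι (n + 1), w.two (n + 1), hι n]; ring
  obtain ⟨m, hm⟩ := anti_const ι (by
    intro n
    have h1 := w.R_two n
    have h2 := w.R_pos n
    have h3 := key n
    by_contra hlt
    push Not at hlt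
    have : 2 * finrank k (w.R n) * ι n < 2 * finrank k (w.R n) * ι (n + 1) :=
      Nat.mul_lt_mul_of_pos_left hlt (by omega)
    have := Nat.mul_le_mul_right (ι (n + 1)) h1
    omega)
  refine ⟨m, fun n hn => ?_⟩
  have h3 := key n
  rw [hm n hn] at h3
  exact Nat.eq_of_mul_eq_mul_right (hpos n) h3

section Big

variable {m : ℕ} (hm : ∀ n, m ≤ n → finrank k (w.R (n + 1)) = 2 * finrank k (w.R n))
include hm

theorem full (n : ℕ) (hn : m ≤ n) (Z : Submodule k K) (hZ : ∀ z ∈ Z, z ∈ w.R (n + 1))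
    (h1 : ∀ a ∈ w.R n, a ∈ Z) (h2 : ∀ a ∈ w.R n, ∃ r ∈ w.κ (n + 1), r + a * w.y n ∈ Z) :
    ∀ z ∈ w.R (n + 1), z ∈ Z := by
  have h := w.two_R n Z (fun z hz => w.R_κ _ (hZ z hz)) h1 h2
  have : Module.Finite k (Subalgebra.toSubmodule (w.R (n + 1))) := w.fin_R _
  have e : Z = Subalgebra.toSubmodule (w.R (n + 1)) :=
    Submodule.eq_of_le_of_finrank_le hZ (by rw [Subalgebra.finrank_toSubmodule, hm n hn]; exact h)
  intro z hz
  rw [e]; exact hz

theorem dec (n : ℕ) (hn : m ≤ n) {z : K} (hz : z ∈ w.R (n + 1)) :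
    ∃ a ∈ w.R n, ∃ c ∈ w.R n, z = a + c * w.y n := by
  have := w.full hm n hn (Subalgebra.toSubmodule (w.R n) ⊔
    (Subalgebra.toSubmodule (w.R n)).map (LinearMap.mulRight k (w.y n))) (by
      intro z hz
      obtain ⟨a, ha, _, ⟨c, hc, rfl⟩, rfl⟩ := Submodule.mem_sup.1 hz
      exact Subalgebra.add_mem _ (w.R_mono n ha)
        (Subalgebra.mul_mem _ (w.R_mono n hc) (w.Y_R _ _ (w.y_Y n))))
    (fun a ha => Submodule.mem_sup_left ha)
    (fun a ha => ⟨0, Subalgebra.zero_mem _, by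
      rw [zero_add]; exact Submodule.mem_sup_right ⟨a, ha, rfl⟩⟩) z hz
  obtain ⟨a, ha, _, ⟨c, hc, rfl⟩, rfl⟩ := Submodule.mem_sup.1 this
  exact ⟨a, ha, c, hc, rfl⟩

theorem inter (n : ℕ) (hn : m ≤ n) {z : K} (hz : z ∈ w.R (n + 1)) (hκ : z ∈ w.κ (n + 1)) :
    z ∈ w.R n := by
  obtain ⟨a, ha, c, hc, e⟩ := w.dec hm n hn hz
  have := w.sq.uniq (w.κ (n + 1)) (w.y_nmem n) hκ (Subalgebra.zero_mem _) (w.R_κ n ha)
    (w.R_κ n hc) (by simpa using e)
  rw [this.2]; exact ha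

theorem lift_X (n : ℕ) (hn : m ≤ n) {ξ : K} (hξ : ξ ∈ w.X n) :
    ξ ∈ w.R n ∧ ∃ r ∈ w.κ (n + 1), r + ξ * w.y n ∈ w.Y (n + 1) := by
  obtain ⟨t, ht, rfl⟩ := hξ
  have ht' : w.g n * w.g n * t ∈ w.T n := w.sq.sq_mul_mem _ _ ht
  obtain ⟨r, hr, hy⟩ := w.lift_T n ht'
  obtain ⟨a, ha, c, hc, e⟩ := w.dec hm n hn (w.Y_R _ _ hy)
  have := w.sq.uniq (w.κ (n + 1)) (w.nmem (n + 1)) hr (w.gb_κ n ht')
    (Subalgebra.add_mem _ (w.R_κ n ha) (Subalgebra.mul_mem _ (w.R_κ n hc) (w.r_κ n)))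
    (Subalgebra.mul_mem _ (w.R_κ n hc) (w.gb_κ n (w.g_mem n))) (by rw [e, y]; ring)
  have hc' : c = w.g n * t := by
    have h1 := this.1
    have h2 := mul_ne_zero (w.g_ne n) (w.b_ne n)
    apply mul_right_cancel₀ h2
    linear_combination -h1
  simp only [LinearMap.mulLeft_apply]
  rw [← hc']
  exact ⟨hc, a, w.R_κ n ha, e ▸ hy⟩

theorem X_R (n : ℕ) (hn : m ≤ n) : ∀ ξ ∈ w.X (n + 1), ξ ∈ w.R n := fun ξ hξ =>
  w.inter hm n hn (w.lift_X hm (n + 1) (by omega) hξ).1 (w.X_κ _ ξ hξ)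

end Big

theorem XY_le (n : ℕ) :
    w.X n * w.Y n ≤ (w.T n * w.U n).map (LinearMap.mulLeft k (w.g (n + 1))) := by
  rw [Submodule.mul_le]
  rintro _ ⟨t, ht, rfl⟩ _ ⟨u, hu, rfl⟩
  refine ⟨t * u, Submodule.mul_mem_mul ht hu, ?_⟩
  simp only [LinearMap.mulLeft_apply, g]; ring

theorem XY (n : ℕ) : w.X n * w.Y n ≤ w.X (n + 1) :=
  (w.XY_le n).trans (Submodule.map_mono (w.ha n))

/-- Staggered products. -/
noncomputable def A (m D : ℕ) : ℕ → Submodule k K
  | 0 => w.Y m ^ D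
  | j + 1 => A m D j * w.Y (m + j + 1)

theorem A_R (m D : ℕ) : ∀ j, ∀ z ∈ w.A m D j, z ∈ w.R (m + j)
  | 0 => by
    induction D with
    | zero =>
      intro z hz
      simp only [A, pow_zero] at hz
      obtain ⟨c, rfl⟩ := Submodule.mem_one.1 hz
      exact Subalgebra.algebraMap_mem _ c
    | succ D ih =>
      intro z hz
      simp only [A, pow_succ] at hz ih
      refine Submodule.mul_induction_on hz (fun a ha c hc => ?_) fun a c => Subalgebra.add_mem _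
      exact Subalgebra.mul_mem _ (ih a ha) (w.Y_R _ _ hc)
  | j + 1 => by
    intro z hz
    refine Submodule.mul_induction_on hz (fun a ha c hc => ?_) fun a c => Subalgebra.add_mem _
    exact Subalgebra.mul_mem _ (w.R_mono _ (A_R m D j a ha)) (w.Y_R _ _ hc)

theorem A_shift (m D : ℕ) : ∀ j, w.A m (D + 1) j ≤ w.A m D (j + 1)
  | 0 => by
    simp only [A, pow_succ]
    exact mul_le_mul' le_rfl (w.Y_mono m)
  | j + 1 => mul_le_mul' (A_shift m D j) (w.Y_mono (m + j + 1))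

theorem A_X (m : ℕ) : ∀ j, w.A m 1 j ≤ w.X (m + j + 1)
  | 0 => by
    intro z hz
    simp only [A, pow_one] at hz
    simpa using w.XY m (Submodule.mul_mem_mul (w.one_X m) hz)
  | j + 1 => (mul_le_mul' (A_X m j) le_rfl).trans (w.XY (m + j + 1))

theorem A_dim (m D j : ℕ) :
    finrank k (w.A m (D + 1) j) + finrank k (w.A m D j) ≤ finrank k (w.A m D (j + 1)) := by
  have := w.fin_le (fun z hz => w.R_κ _ (w.A_R m D (j + 1) z hz))
  refine w.sq.two_piece (w.κ (m + j + 1)) (w.y_nmem (m + j)) _ _ _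
    (fun z hz => w.R_κ _ (w.A_R m _ j z hz)) (fun z hz => w.R_κ _ (w.A_R m _ j z hz))
    (w.A_shift m D j) fun c hc => ⟨0, Subalgebra.zero_mem _, ?_⟩
  rw [zero_add]
  exact Submodule.mul_mem_mul hc (w.y_Y (m + j))

theorem A_bound (m : ℕ) : ∃ C, ∀ j D, 2 ^ (D + j) * (2 ^ j * finrank k (w.R m)) ≤
    2 ^ (D + j) * finrank k (w.A m D j) + 3 ^ j * C := by
  have : Module.Finite k (Algebra.adjoin k (w.Y m : Set K)) := w.fin_R m
  obtain ⟨e, he⟩ := exists_pow (w.Y m) (w.one_Y m)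
  refine ⟨2 ^ e * finrank k (w.R m), fun j => ?_⟩
  induction j with
  | zero =>
    intro D
    simp only [add_zero, pow_zero, one_mul]
    by_cases hD : e ≤ D
    · have := w.fin_le (fun z hz => w.R_κ _ (w.A_R m D 0 z hz))
      have h1 : finrank k (w.R m) ≤ finrank k (w.A m D 0) :=
        Submodule.finrank_mono (s := Subalgebra.toSubmodule (w.R m)) (he D hD)
      exact (Nat.mul_le_mul_left _ h1).trans (Nat.le_add_right _ _)
    · exact (Nat.mul_le_mul_right _ (Nat.pow_le_pow_right (by norm_num) (by omega))).trans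
        (Nat.le_add_left _ _)
  | succ j ih =>
    intro D
    have h1 := ih (D + 1)
    have h2 := ih D
    have h3 := Nat.mul_le_mul_left (2 ^ (D + j + 1)) (w.A_dim m D j)
    have e1 : D + 1 + j = D + j + 1 := by ring
    have e2 : D + (j + 1) = D + j + 1 := by ring
    rw [e1] at h1
    rw [e2]
    simp only [pow_succ] at h1 h3 ⊢
    nlinarith

theorem core : ∃ N, ∀ n, N ≤ n → w.T (n + 1) ≤ w.T n * w.U n := by
  obtain ⟨m, hm⟩ := w.exists_m
  obtain ⟨C, hC⟩ := w.A_bound m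
  have hρ : ∀ j, finrank k (w.R (m + j)) = 2 ^ j * finrank k (w.R m) := by
    intro j
    induction j with
    | zero => simp
    | succ j ih => rw [← add_assoc, hm _ (by omega), ih]; ring
  have hξ : ∀ j, 2 ^ (1 + j) * (2 ^ j * finrank k (w.R m)) ≤
      2 ^ (1 + j) * finrank k (w.X (m + j + 1)) + 3 ^ j * C := by
    intro j
    have := w.fin_le (w.X_κ (m + j + 1))
    have h1 := Submodule.finrank_mono (w.A_X m j)
    exact (hC j 1).trans (Nat.add_le_add_right (Nat.mul_le_mul_left _ h1) _)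
  refine ⟨m + 6 * C + 3, fun n hn => ?_⟩
  obtain ⟨j, rfl⟩ : ∃ j, n = m + j + 3 := ⟨n - m - 3, by omega⟩
  have hj : 6 * C ≤ j := by omega
  have hQ : 2 * (3 ^ j * C) < 2 ^ j * 2 ^ j := by
    have h1 := three_pow j
    have h2 : 0 < 3 ^ j := by positivity
    have h3 : (4 : ℕ) ^ j = 2 ^ j * 2 ^ j := by rw [← mul_pow]; norm_num
    nlinarith [Nat.mul_le_mul_left (3 ^ j) hj]
  have hY : finrank k (w.X (m + j + 1)) ≤ finrank k (w.Y (m + j + 2)) := by
    have := w.fin_le (w.Y_κ (m + j + 2))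
    have := w.sq.two_piece (w.κ (m + j + 2)) (w.y_nmem (m + j + 1)) ⊥ (w.X (m + j + 1))
      (w.Y (m + j + 2)) (by simp) (fun z hz => w.mono _ (w.X_κ _ z hz)) bot_le
      fun c hc => (w.lift_X hm (m + j + 1) (by omega) hc).2
    simpa using this
  have h0 := hξ j
  have h1 := hξ (j + 1)
  have h2 := hξ (j + 2)
  have h3 := hρ (j + 2)
  have h4 := w.R_pos m
  have hP : 0 < 2 ^ j := by positivity
  have := w.fin_R (m + j + 2)
  have e1 : m + (j + 1) + 1 = m + j + 2 := by ring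
  have e2 : m + (j + 2) + 1 = m + j + 3 := by ring
  have e3 : m + (j + 2) = m + j + 2 := by ring
  rw [e1] at h1
  rw [e2] at h2
  rw [e3] at h3
  simp only [pow_add, pow_one] at h0 h1 h2 h3
  set P := 2 ^ j
  set Q := 3 ^ j
  set ρ := finrank k (w.R m)
  have hPP : P * P ≤ P * P * ρ := Nat.le_mul_of_pos_right _ h4
  have hXR := w.X_R hm (m + j + 2) (by omega)
  have p1 := w.sq.pigeon (w.R (m + j + 2)) (w.X (m + j + 3)) (w.Y (m + j + 2)) hXR
    (w.Y_R _) (by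
      rw [h3]
      by_contra hlt
      push Not at hlt
      have := Nat.mul_le_mul_left (8 * P) hlt
      have := Nat.mul_le_mul_left (8 * P) hY
      nlinarith)
  have p2 := w.sq.pigeon (w.R (m + j + 2)) (w.X (m + j + 3)) (w.X (m + j + 2)) hXR
    (fun z hz => w.R_mono _ (w.X_R hm (m + j + 1) (by omega) z hz)) (by
      rw [h3]
      by_contra hlt
      push Not at hlt
      have := Nat.mul_le_mul_left (8 * P) hlt
      nlinarith)
  have hfull := w.full hm (m + j + 2) (by omega) (w.X (m + j + 3) * w.Y (m + j + 3)) (by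
      intro z hz
      refine Submodule.mul_induction_on hz (fun a ha c hc => ?_) fun a c => Subalgebra.add_mem _
      exact Subalgebra.mul_mem _ (w.R_mono _ (hXR a ha)) (w.Y_R _ _ hc))
    (fun a ha => mul_le_mul' le_rfl (w.Y_mono _) (p1 ha)) (by
      intro a ha
      refine Submodule.mul_induction_on (p2 ha) (fun a ha c hc => ?_) ?_
      · obtain ⟨r, hr, hy⟩ := (w.lift_X hm (m + j + 2) (by omega) hc).2
        refine ⟨a * r, Subalgebra.mul_mem _ (w.R_κ _ (hXR a ha)) hr, ?_⟩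
        have := Submodule.mul_mem_mul ha hy
        rwa [mul_add, ← mul_assoc] at this
      · rintro a c ⟨r, hr, h⟩ ⟨r', hr', h'⟩
        refine ⟨r + r', Subalgebra.add_mem _ hr hr', ?_⟩
        have := Submodule.add_mem _ h h'
        convert this using 1
        ring)
  intro t ht
  obtain ⟨s, hs, e⟩ := w.XY_le _ (hfull _ (w.X_R hm (m + j + 3) (by omega) _ ⟨t, ht, rfl⟩))
  rw [← mul_left_cancel₀ (w.g_ne _) e]
  exact hs

end Tw

end Pool.Agent.P.MP_d0ec72_al
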