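import Pool.Agent.P.MP_d0ec72_al.Core

/-! Towers of quadratic steps and derivations with prescribed values. -/

namespace Pool.Agent.P.MP_d0ec72_al

open Module

section General

variable {k A : Type*} [Field k] [CommRing A] [Algebra k A]

/-- The algebra generated by the first `n` elements. -/
def kap (k : Type*) {A : Type*} [Field k] [CommRing A] [Algebra k A] (X : ℕ → A) (n : ℕ) :
    Subalgebra k A := Algebra.adjoin k (X '' Set.Iio n)

theorem kap_mono (X : ℕ → A) {m n : ℕ} (h : m ≤ n) : kap k X m ≤ kap k X n :=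
  Algebra.adjoin_mono (Set.image_mono (Set.Iio_subset_Iio h))

theorem mem_kap (X : ℕ → A) {m n : ℕ} (h : m < n) : X m ∈ kap k X n :=
  Algebra.subset_adjoin ⟨m, h, rfl⟩

theorem kap_zero (X : ℕ → A) : kap k X 0 = ⊥ := by
  simp [kap]

theorem kap_succ (X : ℕ → A) (n : ℕ) (h : ∃ c : k, X n * X n = algebraMap k A c) {z : A}
    (hz : z ∈ kap k X (n + 1)) : ∃ a ∈ kap k X n, ∃ b ∈ kap k X n, z = a + b * X n := by
  obtain ⟨c, hc⟩ := h
  induction hz using Algebra.adjoin_induction with
  | mem z hz =>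
    obtain ⟨m, hm, rfl⟩ := hz
    rcases (Nat.lt_succ_iff.1 hm).lt_or_eq with h | rfl
    · exact ⟨_, mem_kap X h, 0, Subalgebra.zero_mem _, by simp⟩
    · exact ⟨0, Subalgebra.zero_mem _, 1, Subalgebra.one_mem _, by simp⟩
  | algebraMap r => exact ⟨_, Subalgebra.algebraMap_mem _ r, 0, Subalgebra.zero_mem _, by simp⟩
  | add u v _ _ hu hv =>
    obtain ⟨a, ha, b, hb, rfl⟩ := hu
    obtain ⟨a', ha', b', hb', rfl⟩ := hv
    exact ⟨_, Subalgebra.add_mem _ ha ha', _, Subalgebra.add_mem _ hb hb', by ring⟩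
  | mul u v _ _ hu hv =>
    obtain ⟨a, ha, b, hb, rfl⟩ := hu
    obtain ⟨a', ha', b', hb', rfl⟩ := hv
    refine ⟨a * a' + b * b' * algebraMap k A c, Subalgebra.add_mem _ (Subalgebra.mul_mem _ ha ha')
      (Subalgebra.mul_mem _ (Subalgebra.mul_mem _ hb hb') (Subalgebra.algebraMap_mem _ c)),
      a * b' + b * a', Subalgebra.add_mem _ (Subalgebra.mul_mem _ ha hb')
        (Subalgebra.mul_mem _ hb ha'), ?_⟩
    rw [← hc]; ring

theorem exists_kap (X : ℕ → A) {z : A} (hz : z ∈ Algebra.adjoin k (Set.range X)) :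
    ∃ n, z ∈ kap k X n := by
  induction hz using Algebra.adjoin_induction with
  | mem z hz =>
    obtain ⟨m, rfl⟩ := hz
    exact ⟨m + 1, mem_kap X (Nat.lt_succ_self m)⟩
  | algebraMap r => exact ⟨0, Subalgebra.algebraMap_mem _ r⟩
  | add u v _ _ hu hv =>
    obtain ⟨i, hi⟩ := hu
    obtain ⟨j, hj⟩ := hv
    exact ⟨max i j, Subalgebra.add_mem _ (kap_mono X (le_max_left _ _) hi)
      (kap_mono X (le_max_right _ _) hj)⟩
  | mul u v _ _ hu hv =>
    obtain ⟨i, hi⟩ := hu
    obtain ⟨j, hj⟩ := hv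
    exact ⟨max i j, Subalgebra.mul_mem _ (kap_mono X (le_max_left _ _) hi)
      (kap_mono X (le_max_right _ _) hj)⟩

end General

variable {k K : Type*} [Field k] [Field K] [Algebra k K]

theorem kap_fin_two (h : Sq k K) (x : ℕ → K) (hx : ∀ n, x n ∉ kap k x n) (n : ℕ)
    (hf : Module.Finite k (kap k x n)) :
    Module.Finite k (kap k x (n + 1)) ∧
      finrank k (kap k x (n + 1)) = 2 * finrank k (kap k x n) := by
  let ψ : (kap k x n × kap k x n) →ₗ[k] K :=
    ((kap k x n).val.toLinearMap).coprod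
      ((LinearMap.mulRight k (x n)) ∘ₗ (kap k x n).val.toLinearMap)
  have hψ : Function.Injective ψ := by
    rw [← LinearMap.ker_eq_bot, LinearMap.ker_eq_bot']
    rintro ⟨r, b⟩ e
    have := h.uniq0 _ (hx n) r.2 b.2 (by simpa [ψ] using e)
    ext
    · simpa using this.2
    · simpa using this.1
  have hr : LinearMap.range ψ = Subalgebra.toSubmodule (kap k x (n + 1)) := by
    ext z
    constructor
    · rintro ⟨⟨r, b⟩, rfl⟩
      have : ψ (r, b) = r + b * x n := by simp [ψ]
      rw [this]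
      exact Subalgebra.add_mem _ (kap_mono x (Nat.le_succ n) r.2)
        (Subalgebra.mul_mem _ (kap_mono x (Nat.le_succ n) b.2) (mem_kap x (Nat.lt_succ_self n)))
    · intro hz
      obtain ⟨a, ha, b, hb, rfl⟩ := kap_succ x n (h _) hz
      exact ⟨(⟨a, ha⟩, ⟨b, hb⟩), by simp [ψ]⟩
  have e := LinearEquiv.ofInjective ψ hψ
  rw [hr] at e
  refine ⟨Module.Finite.equiv e, ?_⟩
  have := e.finrank_eq
  rw [Module.finrank_prod, Subalgebra.finrank_toSubmodule] at this
  omega

theorem kap_fin (h : Sq k K) (x : ℕ → K) (hx : ∀ n, x n ∉ kap k x n) :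
    ∀ n, Module.Finite k (kap k x n)
  | 0 => by rw [kap_zero]; infer_instance
  | n + 1 => (kap_fin_two h x hx n (kap_fin h x hx n)).1

open TrivSqZeroExt in
theorem exists_der [CharP K 2] (h : Sq k K) (x : ℕ → K) (hx : ∀ n, x n ∉ kap k x n)
    (htop : Algebra.adjoin k (Set.range x) = ⊤) (c : ℕ → K) :
    ∃ D : Derivation k K K, ∀ n, D (x n) = c n := by
  let X : ℕ → TrivSqZeroExt K K := fun n => inl (x n) + inr (c n)
  let π : TrivSqZeroExt K K →ₐ[k] K := (fstHom k K K)
  have hπX : ∀ n, π (X n) = x n := fun n => by simp [π, X]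
  have hXX : ∀ n, ∃ r : k, X n * X n = algebraMap k _ r := by
    intro n
    obtain ⟨r, hr⟩ := h (x n)
    refine ⟨r, ?_⟩
    ext
    · simp [X, hr, algebraMap_eq_inl']
    · simp [X, algebraMap_eq_inl', mul_comm (c n), CharTwo.add_self_eq_zero]
  have hκ : ∀ n, ∀ z ∈ kap k X n, π z ∈ kap k x n := by
    intro n z hz
    have : (kap k X n).map π = kap k x n := by
      rw [kap, kap, AlgHom.map_adjoin, Set.image_image]
      simp only [hπX]
    rw [← this]; exact ⟨z, hz, rfl⟩
  have hinj : ∀ n, ∀ z ∈ kap k X n, π z = 0 → z = 0 := by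
    intro n
    induction n with
    | zero =>
      intro z hz e
      rw [kap_zero] at hz
      obtain ⟨r, rfl⟩ := Algebra.mem_bot.1 hz
      rw [AlgHom.commutes, map_eq_zero] at e
      simp [e]
    | succ n ih =>
      intro z hz e
      obtain ⟨a, ha, b, hb, rfl⟩ := kap_succ X n (hXX n) hz
      have := h.uniq0 _ (hx n) (hκ n a ha) (hκ n b hb) (by simpa [hπX] using e)
      rw [ih a ha this.2, ih b hb this.1]; simp
  let Γ := Algebra.adjoin k (Set.range X)
  let p : Γ →ₐ[k] K := π.comp Γ.val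
  have hp : Function.Bijective p := by
    constructor
    · rw [injective_iff_map_eq_zero]
      intro z e
      obtain ⟨n, hn⟩ := exists_kap X z.2
      exact Subtype.ext (hinj n _ hn e)
    · intro z
      have : Γ.map π = ⊤ := by
        rw [AlgHom.map_adjoin, ← Set.range_comp, ← htop]
        congr 2
        exact funext hπX
      obtain ⟨u, hu, e⟩ : z ∈ Γ.map π := by rw [this]; trivial
      exact ⟨⟨u, hu⟩, e⟩
  let e := AlgEquiv.ofBijective p hp
  let s : K →ₐ[k] TrivSqZeroExt K K := Γ.val.comp e.symm.toAlgHom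
  have hs : ∀ z, (s z).fst = z := fun z => e.apply_symm_apply z
  have hsx : ∀ n, s (x n) = X n := by
    intro n
    have : e ⟨X n, Algebra.subset_adjoin ⟨n, rfl⟩⟩ = x n := hπX n
    rw [← this]
    exact congrArg Subtype.val (e.symm_apply_apply _)
  refine ⟨Derivation.mk' ((sndHom K K).restrictScalars k ∘ₗ s.toLinearMap) ?_, ?_⟩
  · intro a b
    simp [hs, mul_comm]
  · intro n
    simp [hsx, X]

end Pool.Agent.P.MP_d0ec72_al
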