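import Mathlib

/-! Linear algebra inside a field extension in which every square lies in the base field. -/

namespace Pool.Agent.P.MP_d0ec72_al

open Module

variable {k K : Type*} [Field k] [Field K] [Algebra k K]

/-- Every square of `K` lies in `k`. -/
def Sq (k K : Type*) [Field k] [Field K] [Algebra k K] : Prop :=
  ∀ z : K, ∃ c : k, z * z = algebraMap k K c

theorem Sq.inv_smul (h : Sq k K) (z : K) : ∃ c : k, z⁻¹ = c • z := by
  by_cases hz : z = 0
  · exact ⟨0, by simp [hz]⟩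
  obtain ⟨c, hc⟩ := h z
  have hc0 : algebraMap k K c ≠ 0 := by rw [← hc]; exact mul_ne_zero hz hz
  refine ⟨c⁻¹, ?_⟩
  rw [Algebra.smul_def, map_inv₀, ← hc]
  field_simp

theorem Sq.inv_mem (h : Sq k K) (A : Submodule k K) {z : K} (hz : z ∈ A) : z⁻¹ ∈ A := by
  obtain ⟨c, hc⟩ := h.inv_smul z
  rw [hc]; exact A.smul_mem c hz

theorem Sq.inv_mem' (h : Sq k K) (A : Subalgebra k K) {z : K} (hz : z ∈ A) : z⁻¹ ∈ A :=
  h.inv_mem (Subalgebra.toSubmodule A) hz

theorem Sq.sq_mem (h : Sq k K) (A : Subalgebra k K) (z : K) : z * z ∈ A := by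
  obtain ⟨c, hc⟩ := h z
  rw [hc]; exact A.algebraMap_mem c

theorem Sq.sq_mul_mem (h : Sq k K) (A : Submodule k K) (z : K) {a : K} (ha : a ∈ A) :
    z * z * a ∈ A := by
  obtain ⟨c, hc⟩ := h z
  rw [hc, ← Algebra.smul_def]; exact A.smul_mem c ha

theorem Sq.uniq0 (h : Sq k K) (κ : Subalgebra k K) {y : K} (hy : y ∉ κ) {r b : K}
    (hr : r ∈ κ) (hb : b ∈ κ) (e : r + b * y = 0) : b = 0 ∧ r = 0 := by
  have hb0 : b = 0 := by
    by_contra hb0
    apply hy
    have : y = -(r * b⁻¹) := by field_simp; linear_combination e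
    rw [this]; exact κ.neg_mem (κ.mul_mem hr (h.inv_mem' κ hb))
  exact ⟨hb0, by simpa [hb0] using e⟩

theorem Sq.uniq (h : Sq k K) (κ : Subalgebra k K) {y : K} (hy : y ∉ κ) {r b r' b' : K}
    (hr : r ∈ κ) (hb : b ∈ κ) (hr' : r' ∈ κ) (hb' : b' ∈ κ) (e : r + b * y = r' + b' * y) :
    b = b' ∧ r = r' := by
  have := h.uniq0 κ hy (κ.sub_mem hr hr') (κ.sub_mem hb hb') (by linear_combination e)
  exact ⟨sub_eq_zero.1 this.1, sub_eq_zero.1 this.2⟩

theorem Sq.exists_pi (h : Sq k K) (κ : Subalgebra k K) {y : K} (hy : y ∉ κ) :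
    ∃ π : K →ₗ[k] K, ∀ r ∈ κ, ∀ b ∈ κ, π (r + b * y) = b := by
  let ψ : κ × κ →ₗ[k] K :=
    (κ.val.toLinearMap).coprod ((LinearMap.mulRight k y) ∘ₗ κ.val.toLinearMap)
  have hψ : LinearMap.ker ψ = ⊥ := by
    rw [LinearMap.ker_eq_bot']
    rintro ⟨r, b⟩ e
    have := h.uniq0 κ hy r.2 b.2 (by simpa [ψ] using e)
    ext
    · simpa using this.2
    · simpa using this.1
  obtain ⟨g, hg⟩ := LinearMap.exists_leftInverse_of_injective ψ hψ
  refine ⟨κ.val.toLinearMap ∘ₗ LinearMap.snd k κ κ ∘ₗ g, fun r hr b hb => ?_⟩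
  have : g (ψ (⟨r, hr⟩, ⟨b, hb⟩)) = (⟨r, hr⟩, ⟨b, hb⟩) := LinearMap.congr_fun hg _
  have e : ψ (⟨r, hr⟩, ⟨b, hb⟩) = r + b * y := by simp [ψ]
  rw [e] at this
  simp [this]

theorem Sq.two_piece (h : Sq k K) (κ : Subalgebra k K) {y : K} (hy : y ∉ κ)
    (A B Z : Submodule k K) [Module.Finite k Z] (hAκ : ∀ a ∈ A, a ∈ κ) (hBκ : ∀ b ∈ B, b ∈ κ)
    (hA : A ≤ Z) (hB : ∀ b ∈ B, ∃ r ∈ κ, r + b * y ∈ Z) :
    finrank k A + finrank k B ≤ finrank k Z := by
  obtain ⟨π, hπ⟩ := h.exists_pi κ hy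
  have e := LinearMap.finrank_range_add_finrank_ker (π.domRestrict Z)
  have h1 : finrank k B ≤ finrank k (LinearMap.range (π.domRestrict Z)) := by
    apply Submodule.finrank_mono
    intro b hb
    obtain ⟨r, hr, hz⟩ := hB b hb
    exact ⟨⟨_, hz⟩, by simpa using hπ r hr b (hBκ b hb)⟩
  have h2 : finrank k A ≤ finrank k (LinearMap.ker (π.domRestrict Z)) := by
    rw [← (Submodule.comapSubtypeEquivOfLe hA).finrank_eq]
    apply Submodule.finrank_mono
    intro a ha
    have := hπ a (hAκ a ha) 0 κ.zero_mem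
    simpa using this
  omega

theorem finrank_map_mul (A : Submodule k K) {z : K} (hz : z ≠ 0) :
    finrank k (A.map (LinearMap.mulLeft k z)) = finrank k A :=
  (Submodule.equivMapOfInjective _ (fun _ _ e => mul_left_cancel₀ hz e) A).finrank_eq.symm

theorem Sq.pigeon (h : Sq k K) (R : Subalgebra k K) [Module.Finite k R] (A B : Submodule k K)
    (hA : A ≤ Subalgebra.toSubmodule R) (hB : B ≤ Subalgebra.toSubmodule R)
    (hd : finrank k R < finrank k A + finrank k B) : Subalgebra.toSubmodule R ≤ A * B := by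
  intro z hz
  by_cases hz0 : z = 0
  · rw [hz0]; exact Submodule.zero_mem _
  have : Module.Finite k (Subalgebra.toSubmodule R) := ‹Module.Finite k R›
  set B' := B.map (LinearMap.mulLeft k z) with hB'
  have hB'R : B' ≤ Subalgebra.toSubmodule R := by
    rintro _ ⟨b, hb, rfl⟩
    exact R.mul_mem hz (hB hb)
  have : Module.Finite k A := Submodule.finiteDimensional_of_le hA
  have : Module.Finite k B' := Submodule.finiteDimensional_of_le hB'R
  have e := Submodule.finrank_sup_add_finrank_inf_eq A B'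
  have h1 : finrank k (A ⊔ B' : Submodule k K) ≤ finrank k R :=
    Submodule.finrank_mono (sup_le hA hB'R)
  have h2 : finrank k B' = finrank k B := finrank_map_mul B hz0
  have h3 : (A ⊓ B' : Submodule k K) ≠ ⊥ := by
    intro h0
    rw [h0, finrank_bot] at e
    omega
  obtain ⟨a, ⟨ha, b, hb, rfl⟩, ha0⟩ := Submodule.exists_mem_ne_zero_of_ne_bot h3
  have hb0 : b ≠ 0 := by rintro rfl; simp at ha0
  have : z = (z * b) * b⁻¹ := by field_simp
  rw [this]
  exact Submodule.mul_mem_mul ha (h.inv_mem B hb)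

theorem Sq.one_mem (h : Sq k K) (A : Submodule k K) {a : K} (ha : a ∈ A) (h0 : a ≠ 0) :
    (1 : K) ∈ A.map (LinearMap.mulLeft k a) :=
  ⟨a⁻¹, h.inv_mem A ha, by simp [h0]⟩

/-- A finite-dimensional algebra generated by a subspace containing one is a power of it. -/
theorem exists_pow (Y : Submodule k K) (h1 : (1 : K) ∈ Y)
    [Module.Finite k (Algebra.adjoin k (Y : Set K))] :
    ∃ e, ∀ d, e ≤ d → Subalgebra.toSubmodule (Algebra.adjoin k (Y : Set K)) ≤ Y ^ d := by
  have mono : Monotone fun d => Y ^ d := by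
    apply monotone_nat_of_le_succ
    intro d a ha
    rw [pow_succ]
    simpa using Submodule.mul_mem_mul ha h1
  have hle : ∀ d, Y ^ d ≤ Subalgebra.toSubmodule (Algebra.adjoin k (Y : Set K)) := by
    intro d
    induction d with
    | zero => rw [pow_zero, Submodule.one_le]; exact Subalgebra.one_mem _
    | succ d ih =>
      rw [pow_succ, Submodule.mul_le]
      intro a ha b hb
      exact Subalgebra.mul_mem _ (ih ha) (Algebra.subset_adjoin hb)
  have hfg : (Subalgebra.toSubmodule (Algebra.adjoin k (Y : Set K))).FG :=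
    Module.Finite.iff_fg.1 ‹_›
  obtain ⟨e, he⟩ := hfg.stabilizes_of_iSup_eq ⟨fun d => Y ^ d, mono⟩ (by
    apply le_antisymm (iSup_le hle)
    intro z hz
    rw [Submodule.mem_iSup_of_directed _ mono.directed_le]
    induction hz using Algebra.adjoin_induction with
    | mem a ha => exact ⟨1, by simpa using ha⟩
    | algebraMap c =>
      exact ⟨0, by rw [pow_zero]; exact Submodule.algebraMap_mem c⟩
    | add a b _ _ iha ihb =>
      obtain ⟨i, hi⟩ := iha
      obtain ⟨j, hj⟩ := ihb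
      exact ⟨max i j, Submodule.add_mem _ (mono (le_max_left _ _) hi) (mono (le_max_right _ _) hj)⟩
    | mul a b _ _ iha ihb =>
      obtain ⟨i, hi⟩ := iha
      obtain ⟨j, hj⟩ := ihb
      exact ⟨i + j, by rw [pow_add]; exact Submodule.mul_mem_mul hi hj⟩)
  exact ⟨e, fun d hd => he.le.trans (mono hd)⟩

theorem three_pow (j : ℕ) : 3 ^ j * (j + 3) ≤ 3 * 4 ^ j := by
  induction j with
  | zero => simp
  | succ j ih => rw [pow_succ, pow_succ]; nlinarith [Nat.zero_le (3 ^ j * j)]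

theorem anti_const (ι : ℕ → ℕ) (h : ∀ n, ι (n + 1) ≤ ι n) :
    ∃ m, ∀ n, m ≤ n → ι (n + 1) = ι n := by
  have ha : Antitone ι := antitone_nat_of_succ_le h
  obtain ⟨m, hm⟩ := WellFoundedLT.antitone_chain_condition ha
  exact ⟨m, fun n hn => by rw [← hm n hn, ← hm (n + 1) (by omega)]⟩

end Pool.Agent.P.MP_d0ec72_al
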