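import Pool.Agent.P.MP_d0ec72_al.Alg

/-! Instantiation over fields of infinite degree over their squares. -/

namespace Pool.Agent.P.MP_d0ec72_al

open Module

universe u

theorem exists_seq {k K : Type*} [Field k] [Field K] [Algebra k K] (h : Sq k K)
    (hK : ¬ Module.Finite k K) : ∃ x : ℕ → K, ∀ n, x n ∉ kap k x n := by
  have step : ∀ s : Set K, s.Finite → ∃ z, z ∉ Algebra.adjoin k s := by
    intro s hs
    by_contra hz
    push Not at hz
    apply hK
    have hint : ∀ z ∈ s, IsIntegral k z := by
      intro z _
      obtain ⟨c, hc⟩ := h z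
      exact IsIntegral.of_pow (n := 2) (by norm_num) (by rw [sq, hc]; exact isIntegral_algebraMap)
    have := Algebra.finite_adjoin_of_finite_of_isIntegral hs hint
    exact Module.Finite.of_surjective (Algebra.adjoin k s).val.toLinearMap fun z => ⟨⟨z, hz z⟩, rfl⟩
  choose g hg using step
  let x : ℕ → K := fun n => Nat.strongRec (motive := fun _ => K) (fun n ih =>
    g (Set.range fun i : Fin n => ih i i.2) (Set.finite_range _)) n
  refine ⟨x, fun n => ?_⟩
  have hx : x n = g (Set.range fun i : Fin n => x i) (Set.finite_range _) :=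
    Nat.strongRec_eq ..
  have : x '' Set.Iio n = Set.range fun i : Fin n => x i := by
    ext z
    constructor
    · rintro ⟨m, hm, rfl⟩; exact ⟨⟨m, hm⟩, rfl⟩
    · rintro ⟨m, rfl⟩; exact ⟨m, m.2, rfl⟩
  rw [kap, this, hx]
  exact hg _ _

theorem main_ext {k K : Type u} [Field k] [Field K] [Algebra k K] [CharP K 2] (h : Sq k K)
    (hK : ¬ Module.Finite k K) :
    ∃ (L : Type u) (_ : LieRing L) (_ : LieAlgebra k L), ¬ Module.Finite k L ∧
      (∀ c : ℕ →o LieSubalgebra k L, ∃ n, ∀ m, n ≤ m → c m = c n) ∧
      ⨅ n, LieModule.lowerCentralSeries k L L n = ⊥ := by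
  obtain ⟨x, hx⟩ := exists_seq h hK
  let A := Algebra.adjoin k (Set.range x)
  let M : IntermediateField k K := A.toIntermediateField fun _ hz => h.inv_mem' _ hz
  let y : ℕ → M := fun n => ⟨x n, Algebra.subset_adjoin ⟨n, rfl⟩⟩
  have hM : Sq k M := by
    intro z
    obtain ⟨c, hc⟩ := h z
    exact ⟨c, Subtype.ext hc⟩
  have hy : ∀ n, y n ∉ kap k y n := by
    intro n hn
    apply hx n
    have : (kap k y n).map M.val = kap k x n := by
      rw [kap, kap, AlgHom.map_adjoin, Set.image_image]; rfl
    rw [← this]; exact ⟨_, hn, rfl⟩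
  have htop : Algebra.adjoin k (Set.range y) = ⊤ := by
    apply Subalgebra.map_injective (f := M.val) M.val.injective
    rw [AlgHom.map_adjoin, ← Set.range_comp, Algebra.map_top]
    ext z
    constructor
    · intro hz; exact ⟨⟨z, hz⟩, rfl⟩
    · rintro ⟨z, rfl⟩; exact z.2
  exact ⟨LL k y, inferInstance, inferInstance, main_top hM y hy htop⟩

/-- A copy of a field, viewed over itself through the Frobenius map. -/
def Fr (k : Type u) : Type u := k

instance (k : Type u) [Field k] : Field (Fr k) := inferInstanceAs (Field k)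

instance (k : Type u) [Field k] [CharP k 2] : CharP (Fr k) 2 := inferInstanceAs (CharP k 2)

noncomputable instance (k : Type u) [Field k] [CharP k 2] : Algebra k (Fr k) :=
  (show k →+* Fr k from frobenius k 2).toAlgebra

theorem main_field (k : Type u) [Field k] [CharP k 2]
    (hk : ¬ Module.Finite (frobenius k 2).fieldRange k) :
    ∃ (L : Type u) (_ : LieRing L) (_ : LieAlgebra k L), ¬ Module.Finite k L ∧
      (∀ c : ℕ →o LieSubalgebra k L, ∃ n, ∀ m, n ≤ m → c m = c n) ∧
      ⨅ n, LieModule.lowerCentralSeries k L L n = ⊥ := by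
  refine main_ext (K := Fr k) (fun z => ⟨z, (sq z).symm⟩) fun hf => hk ?_
  obtain ⟨s, hs⟩ := Module.finite_def.1 hf
  refine Module.finite_def.2 ⟨s, ?_⟩
  rw [eq_top_iff]
  intro z _
  have hz : (show Fr k from z) ∈ Submodule.span k (s : Set (Fr k)) := by rw [hs]; trivial
  change (show Fr k from z) ∈ _
  generalize (show Fr k from z) = z' at hz
  induction hz using Submodule.span_induction with
  | mem a ha => exact Submodule.subset_span ha
  | zero => exact Submodule.zero_mem _
  | add a b _ _ ha hb => exact Submodule.add_mem _ ha hb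
  | smul c a _ ha =>
    exact Submodule.smul_mem _ (⟨frobenius k 2 c, c, rfl⟩ : (frobenius k 2).fieldRange) ha

open MvPolynomial in
theorem exists_field : ∃ (k : Type) (_ : Field k) (_ : CharP k 2),
    ¬ Module.Finite (frobenius k 2).fieldRange k := by
  let R := MvPolynomial ℕ (ZMod 2)
  let k := FractionRing R
  have : CharP k 2 := IsFractionRing.charP R 2
  refine ⟨k, inferInstance, this, fun hf => ?_⟩
  have hli : LinearIndependent (frobenius k 2).fieldRange fun n : ℕ => algebraMap R k (X n) := by
    rw [linearIndependent_iff']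
    intro s g hg i hi
    choose c hc using fun j => (g j).2
    obtain ⟨d, hd⟩ := IsLocalization.exist_integer_multiples (nonZeroDivisors R) s c
    choose! p hp using hd
    have hsum : ∑ j ∈ s, p j ^ 2 * X j = 0 := by
      apply IsFractionRing.injective R k
      rw [map_sum, map_zero]
      have : ∑ j ∈ s, algebraMap R k (p j ^ 2 * X j) =
          algebraMap R k d ^ 2 * ∑ j ∈ s, g j • algebraMap R k (X j) := by
        rw [Finset.mul_sum]
        refine Finset.sum_congr rfl fun j hj => ?_
        rw [map_mul, map_pow, hp j hj, Subfield.smul_def, ← hc j, frobenius_def, Algebra.smul_def,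
          smul_eq_mul]
        ring
      rw [this, hg, mul_zero]
    have h2 := congrArg (pderiv i) hsum
    rw [map_sum, map_zero, Finset.sum_eq_single i] at h2
    · have h3 : p i ^ 2 = 0 := by
        simpa [Derivation.leibniz, CharTwo.two_eq_zero] using h2
      have h4 : algebraMap R k d * c i = 0 := by
        rw [← Algebra.smul_def, ← hp i hi, pow_eq_zero_iff (two_ne_zero) |>.1 h3, map_zero]
      have h5 : algebraMap R k d ≠ 0 := IsFractionRing.to_map_ne_zero_of_mem_nonZeroDivisors d.2
      apply Subtype.ext
      rw [← hc i, (mul_eq_zero.1 h4).resolve_left h5, map_zero]; rfl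
    · intro j _ hji
      simp [Derivation.leibniz, CharTwo.two_eq_zero, pderiv_X_of_ne hji]
    · intro h; exact absurd hi h
  exact Module.Finite.not_linearIndependent_of_infinite _ hli

end Pool.Agent.P.MP_d0ec72_al
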