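import Mathlib

/-! Graded Lie algebras of linear growth over finite fields have long abelian chains. -/

namespace Pool.Agent.P.MP_d0ec72_al.Narrow

open Finset Module

variable {k L : Type*} [Field k] [LieRing L] [LieAlgebra k L]

/-- the Leibniz rule -/
def Der (D : Module.End k L) : Prop := ∀ a b : L, D ⁅a, b⁆ = ⁅D a, b⁆ + ⁅a, D b⁆

theorem der_ad (x : L) : Der (LieAlgebra.ad k L x) := fun a b => by
  simp only [LieAlgebra.ad_apply]
  exact leibniz_lie x a b

theorem der_pow (p : ℕ) [hp : Fact p.Prime] [CharP k p] {D : Module.End k L} (hD : Der D)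
    (j : ℕ) : Der (D ^ p ^ j) := fun a b => by
  let E : LieDerivation k L L :=
    { toLinearMap := D
      leibniz' := fun a b => by rw [hD a b, ← lie_skew (D a) b]; abel }
  have hE : ∀ (n : ℕ) (z : L), E^[n] z = (D ^ n) z := fun n z =>
    (Module.End.pow_apply D n z).symm
  have h := E.iterate_apply_lie' (p ^ j) a b
  have h0 : 0 < p ^ j := pow_pos hp.out.pos j
  rw [sum_eq_add_of_mem (p ^ j) 0 (by simp) (by simp) h0.ne'] at h
  · simpa [hE] using h
  · intro c _ hc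
    rw [← Nat.cast_smul_eq_nsmul k, (CharP.cast_eq_zero_iff k p _).2
      (hp.out.dvd_choose_pow hc.2 hc.1), zero_smul]

theorem three {D E F : Module.End k L} (hD : Der D) (hE : Der E) (hF : Der F) (y : L)
    (h1 : D (E y) = E (D y)) (h2 : D (F y) = F (D y)) (h3 : E (F y) = F (E y)) :
    D ⁅E y, F y⁆ = E ⁅D y, F y⁆ - F ⁅D y, E y⁆ := by
  rw [hD, hE, hF, h1, h2, h3, ← lie_skew (E y) (F (D y))]
  abel

/-- closed under the bracket -/
def Cl (B : ℕ → Submodule k L) : Prop := ∀ i j, ∀ a ∈ B i, ∀ b ∈ B j, ⁅a, b⁆ ∈ B (i + j)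

/-- nonzero in arbitrarily large degrees -/
def Ub (B : ℕ → Submodule k L) : Prop := ∀ N, ∃ n, N ≤ n ∧ ∃ z ∈ B n, z ≠ 0

/-- an infinite commuting family of homogeneous elements -/
def Fam (B : ℕ → Submodule k L) : Prop :=
  ∃ (z : ℕ → L) (n : ℕ → ℕ), Function.Injective n ∧ (∀ j, z j ∈ B (n j)) ∧ (∀ j, z j ≠ 0) ∧
    ∀ i j, ⁅z i, z j⁆ = 0

section

variable {B : ℕ → Submodule k L} {x : L} {e N : ℕ}

theorem pow_mem (hc : Cl B) (hx : x ∈ B e) (i : ℕ) {n : ℕ} {z : L} (hz : z ∈ B n) :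
    (LieAlgebra.ad k L x ^ i) z ∈ B (n + i * e) := by
  induction i with
  | zero => simpa using hz
  | succ i ih =>
    rw [pow_succ', Module.End.mul_apply, LieAlgebra.ad_apply,
      show n + (i + 1) * e = e + (n + i * e) by ring]
    exact hc _ _ _ hx _ ih

theorem pow_inj (hc : Cl B) (hx : x ∈ B e) (hi : ∀ n, N ≤ n → ∀ z ∈ B n, ⁅x, z⁆ = 0 → z = 0)
    (i : ℕ) {n : ℕ} (hn : N ≤ n) {z : L} (hz : z ∈ B n)
    (h : (LieAlgebra.ad k L x ^ i) z = 0) : z = 0 := by
  induction i with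
  | zero => simpa using h
  | succ i ih =>
    rw [pow_succ', Module.End.mul_apply, LieAlgebra.ad_apply] at h
    exact ih (hi _ (by omega) _ (pow_mem hc hx i hz) h)

theorem stable (hc : Cl B) (hx : x ∈ B e) (he : 0 < e)
    (hi : ∀ n, N ≤ n → ∀ z ∈ B n, ⁅x, z⁆ = 0 → z = 0) [∀ n, Module.Finite k (B n)] {C : ℕ}
    (hC : ∀ M, ∑ n ∈ range M, finrank k (B n) ≤ C * M) {d : ℕ} (hd : N ≤ d) :
    ∃ i₀, ∀ j, ∀ z ∈ B (d + i₀ * e + j * e), ∃ v ∈ B (d + i₀ * e),
      (LieAlgebra.ad k L x ^ j) v = z := by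
  let T : ∀ i j : ℕ, B (d + i * e) →ₗ[k] B (d + i * e + j * e) := fun i j =>
    (LieAlgebra.ad k L x ^ j).restrict fun z hz => pow_mem hc hx j hz
  have hT : ∀ i j, Function.Injective (T i j) := fun i j =>
    (injective_iff_map_eq_zero _).2 fun z hz =>
      Subtype.ext (pow_inj hc hx hi j (by omega) z.2 (congrArg Subtype.val hz))
  have h1 : ∀ i j, finrank k (B (d + i * e)) ≤ finrank k (B (d + i * e + j * e)) := fun i j =>
    LinearMap.finrank_le_finrank_of_injective (hT i j)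
  have h2 : ∀ i, finrank k (B (d + i * e)) ≤ C * (d + 2 * e) := fun i => by
    have a1 : (i + 1) * finrank k (B (d + i * e)) ≤
        ∑ j ∈ range (i + 1), finrank k (B (d + i * e + j * e)) := by
      have := card_nsmul_le_sum (range (i + 1)) (fun j => finrank k (B (d + i * e + j * e))) _
        fun j _ => h1 i j
      simpa using this
    have a2 : ∑ j ∈ range (i + 1), finrank k (B (d + i * e + j * e)) ≤
        ∑ n ∈ range ((i + 1) * (d + 2 * e)), finrank k (B n) := by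
      rw [← sum_image (s := range (i + 1)) (g := fun j => d + i * e + j * e)
        (f := fun n => finrank k (B n)) fun a _ b _ hab =>
          Nat.eq_of_mul_eq_mul_right he (Nat.add_left_cancel hab)]
      refine sum_le_sum_of_subset fun n hn => ?_
      obtain ⟨j, hj, rfl⟩ := mem_image.1 hn
      have hj' : j ≤ i := by have := mem_range.1 hj; omega
      have : j * e ≤ i * e := Nat.mul_le_mul_right _ hj'
      rw [mem_range]
      nlinarith [Nat.zero_le (i * d)]
    have a3 := (a1.trans a2).trans (hC _)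
    rw [mul_left_comm] at a3
    exact Nat.le_of_mul_le_mul_left a3 (Nat.succ_pos i)
  have hb : BddAbove (Set.range fun i => finrank k (B (d + i * e))) :=
    ⟨_, by rintro _ ⟨i, rfl⟩; exact h2 i⟩
  obtain ⟨i₀, h0⟩ := Nat.sSup_mem (Set.range_nonempty _) hb
  refine ⟨i₀, fun j z hz => ?_⟩
  have h3 : finrank k (B (d + i₀ * e + j * e)) ≤ finrank k (B (d + i₀ * e)) := by
    have := le_csSup hb ⟨i₀ + j, rfl⟩
    rw [← h0] at this
    rwa [show d + i₀ * e + j * e = d + (i₀ + j) * e by ring]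
  obtain ⟨v, hv⟩ := (LinearMap.injective_iff_surjective_of_finrank_eq_finrank
    (le_antisymm (h1 i₀ j) h3)).1 (hT i₀ j) ⟨z, hz⟩
  exact ⟨v, v.2, congrArg Subtype.val hv⟩

theorem fam_of_inj [Finite k] (hc : Cl B) (hu : Ub B) (hx : x ∈ B e) (he : 0 < e)
    (hi : ∀ n, N ≤ n → ∀ z ∈ B n, ⁅x, z⁆ = 0 → z = 0) [∀ n, Module.Finite k (B n)] {C : ℕ}
    (hC : ∀ M, ∑ n ∈ range M, finrank k (B n) ≤ C * M) : Fam B := by
  obtain ⟨p, hp⟩ := CharP.exists k
  have hpp : Fact p.Prime := ⟨CharP.char_is_prime k p⟩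
  obtain ⟨d, hd, y, hy, hy0⟩ := hu N
  obtain ⟨i₀, h0⟩ := stable hc hx he hi hC (d := d + e + d) (by omega)
  set t := LieAlgebra.ad k L x with ht
  have hlt : ∀ j, i₀ ≤ p ^ (i₀ + j) := fun j =>
    (Nat.le_add_right i₀ j).trans (Nat.lt_pow_self hpp.out.one_lt).le
  have hty : t y ∈ B (d + e) := by
    have := pow_mem hc hx 1 hy
    rwa [pow_one, one_mul] at this
  have hv : ∀ j, ∃ v : B (d + e + d + i₀ * e),
      (t ^ (p ^ (i₀ + j) - i₀)) v = ⁅t y, (t ^ p ^ (i₀ + j)) y⁆ := fun j => by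
    have h1 := hc _ _ _ hty _ (pow_mem hc hx (p ^ (i₀ + j)) hy)
    have h2 : d + e + (d + p ^ (i₀ + j) * e) = d + e + d + i₀ * e + (p ^ (i₀ + j) - i₀) * e := by
      obtain ⟨r, hr⟩ := Nat.exists_eq_add_of_le (hlt j)
      rw [hr, Nat.add_sub_cancel_left]
      ring
    rw [h2] at h1
    obtain ⟨v, hv, h⟩ := h0 _ _ h1
    exact ⟨⟨v, hv⟩, h⟩
  choose v hv using hv
  have : Finite (B (d + e + d + i₀ * e)) := Module.finite_of_finite k
  obtain ⟨w, hw⟩ := Finite.exists_infinite_fiber v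
  let g : ℕ ↪ (v ⁻¹' {w}) := Infinite.natEmbedding _
  have hg : ∀ j, v (g j) = w := fun j => (g j).2
  refine ⟨fun j => (t ^ p ^ (i₀ + g j)) y, fun j => d + p ^ (i₀ + g j) * e, fun a b hab => ?_,
    fun j => pow_mem hc hx _ hy, fun j h => hy0 (pow_inj hc hx hi _ hd hy h), fun i j => ?_⟩
  · have h1 := Nat.eq_of_mul_eq_mul_right he (Nat.add_left_cancel hab)
    have h2 := Nat.pow_right_injective hpp.out.two_le h1
    exact g.injective (Subtype.ext (Nat.add_left_cancel h2))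
  · have cm : ∀ a b : ℕ, (t ^ a) ((t ^ b) y) = (t ^ b) ((t ^ a) y) := fun a b => by
      rw [← Module.End.mul_apply, ← Module.End.mul_apply, ← pow_add, ← pow_add, add_comm]
    have c1 : ∀ b : ℕ, t ((t ^ b) y) = (t ^ b) (t y) := fun b => by simpa using cm 1 b
    have h3 := three (der_ad x) (der_pow p (der_ad x) (i₀ + g i)) (der_pow p (der_ad x) (i₀ + g j))
      y (c1 _) (c1 _) (cm _ _)
    rw [← ht, ← hv, ← hv, hg, hg, ← Module.End.mul_apply (t ^ _), ← Module.End.mul_apply (t ^ _),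
      ← pow_add, ← pow_add, show p ^ (i₀ + g i) + (p ^ (i₀ + g j) - i₀) =
        p ^ (i₀ + g j) + (p ^ (i₀ + g i) - i₀) by have := hlt (g i); have := hlt (g j); omega,
      sub_self] at h3
    exact hi _ (by omega) _ (hc _ _ _ (pow_mem hc hx _ hy) _ (pow_mem hc hx _ hy)) h3

end

theorem fam [Finite k] {A : ℕ → Submodule k L} (hc : Cl A) (hu : Ub A)
    [∀ n, Module.Finite k (A n)] {C : ℕ} (hC : ∀ M, ∑ n ∈ range M, finrank k (A n) ≤ C * M) :
    Fam A := by
  by_contra hno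
  let S := {B : ℕ → Submodule k L // Cl B ∧ Ub B ∧ ∀ n, B n ≤ A n} × ℕ
  have step : ∀ s : S, ∃ (s' : S) (x : L), s.2 < s'.2 ∧ x ∈ s.1.1 s'.2 ∧ x ≠ 0 ∧
      ∀ n, ∀ z ∈ s'.1.1 n, z ∈ s.1.1 n ∧ ⁅x, z⁆ = 0 := by
    rintro ⟨⟨B, b1, b2, b3⟩, m⟩
    obtain ⟨e, he, x, hx, hx0⟩ := b2 (m + 1)
    refine ⟨(⟨fun n => B n ⊓ LinearMap.ker (LieAlgebra.ad k L x), ?_, ?_,
      fun n => inf_le_left.trans (b3 n)⟩, e), x, he, hx, hx0, fun n z hz => ⟨hz.1, hz.2⟩⟩
    · intro i j a ha b hb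
      refine ⟨b1 _ _ _ ha.1 _ hb.1, ?_⟩
      have h1 : ⁅x, a⁆ = 0 := ha.2
      have h2 : ⁅x, b⁆ = 0 := hb.2
      change ⁅x, ⁅a, b⁆⁆ = 0
      rw [leibniz_lie, h1, h2, zero_lie, lie_zero, add_zero]
    · intro N
      by_contra hN
      have : ∀ n, Module.Finite k (B n) := fun n => Submodule.finiteDimensional_of_le (b3 n)
      obtain ⟨z, n, f1, f2, f3, f4⟩ := fam_of_inj (N := N) (C := C) b1 b2 hx (by omega)
        (fun n hn z hz h => by_contra fun h0 => hN ⟨n, hn, z, ⟨hz, h⟩, h0⟩)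
        fun M => (sum_le_sum fun n _ => Submodule.finrank_mono (b3 n)).trans (hC M)
      exact hno ⟨z, n, f1, fun j => b3 _ (f2 j), f3, f4⟩
  choose nx X h1 h2 h3 h4 using step
  let s : ℕ → S := fun j => nx^[j] (⟨A, hc, hu, fun _ => le_rfl⟩, 0)
  have hs : ∀ j, s (j + 1) = nx (s j) := fun j => Function.iterate_succ_apply' _ _ _
  have mono : ∀ i j n, ∀ z ∈ (s (i + j)).1.1 n, z ∈ (s i).1.1 n := by
    intro i j
    induction j with
    | zero => exact fun n z hz => hz
    | succ j ih =>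
      intro n z hz
      rw [← add_assoc, hs] at hz
      exact ih n z (h4 _ n z hz).1
  have lt : ∀ i j, i < j → ⁅X (s i), X (s j)⁆ = 0 := fun i j hij => by
    obtain ⟨r, rfl⟩ := Nat.exists_eq_add_of_le (Nat.succ_le_of_lt hij)
    have := mono (i + 1) r _ _ (h2 (s (i + 1 + r)))
    rw [hs] at this
    exact (h4 _ _ _ this).2
  refine hno ⟨fun j => X (s j), fun j => (nx (s j)).2, StrictMono.injective
    (strictMono_nat_of_lt_succ fun j => ?_), fun j => (s j).1.2.2.2 _ (h2 _), fun j => h3 _,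
    fun i j => ?_⟩
  · have := h1 (s (j + 1))
    rwa [hs] at this ⊢
  · rcases lt_trichotomy i j with h | rfl | h
    · exact lt i j h
    · exact lie_self _
    · rw [← lie_skew, lt j i h, neg_zero]

theorem main [Finite k] (A : ℕ → Submodule k L) (hsum : DirectSum.IsInternal A)
    (hc : ∀ i j, ∀ a ∈ A i, ∀ b ∈ A j, ⁅a, b⁆ ∈ A (i + j)) (hfin : ∀ n, Module.Finite k (A n))
    (hC : ∃ C : ℕ, ∀ M, ∑ n ∈ range M, finrank k (A n) ≤ C * M) (hinf : ¬ Module.Finite k L) :
    ∃ c : ℕ → LieSubalgebra k L, StrictMono c ∧ ∀ m, IsLieAbelian (c m) := by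
  obtain ⟨C, hC⟩ := hC
  have hu : Ub A := fun N => by
    by_contra hN
    refine hinf ⟨?_⟩
    have h1 : (⊤ : Submodule k L) = (range N).sup A := by
      refine le_antisymm ?_ le_top
      rw [← hsum.submodule_iSup_eq_top]
      refine iSup_le fun n z hz => ?_
      by_cases hn : n < N
      · exact le_sup (f := A) (mem_range.2 hn) hz
      · have : z = 0 := by_contra fun h0 => hN ⟨n, by omega, z, hz, h0⟩
        rw [this]
        exact zero_mem _
    rw [h1]
    exact Submodule.fg_finset_sup _ _ fun n _ => (Module.Finite.iff_fg).1 (hfin n)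
  obtain ⟨z, n, f1, f2, f3, f4⟩ := fam hc hu hC
  have li : LinearIndependent k z :=
    iSupIndep.linearIndependent _ (hsum.submodule_iSupIndep.comp f1) f2 f3
  have ab : ∀ a ∈ Submodule.span k (Set.range z), ∀ b ∈ Submodule.span k (Set.range z),
      ⁅a, b⁆ = 0 := by
    intro a ha b hb
    induction ha, hb using Submodule.span_induction₂ with
    | mem_mem a b ha hb =>
      obtain ⟨i, rfl⟩ := ha
      obtain ⟨j, rfl⟩ := hb
      exact f4 i j
    | zero_left => exact zero_lie _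
    | zero_right => exact lie_zero _
    | add_left a b c _ _ _ h1 h2 => rw [add_lie, h1, h2, add_zero]
    | add_right a b c _ _ _ h1 h2 => rw [lie_add, h1, h2, add_zero]
    | smul_left r a b _ _ h => rw [smul_lie, h, smul_zero]
    | smul_right r a b _ _ h => rw [lie_smul, h, smul_zero]
  have sub : ∀ m, Submodule.span k (z '' Set.Iio m) ≤ Submodule.span k (Set.range z) := fun m =>
    Submodule.span_mono (Set.image_subset_range _ _)
  let c : ℕ → LieSubalgebra k L := fun m =>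
    { toSubmodule := Submodule.span k (z '' Set.Iio m)
      lie_mem' := fun {a b} ha hb => by
        rw [ab a (sub m ha) b (sub m hb)]
        exact (Submodule.span k (z '' Set.Iio m)).zero_mem }
  refine ⟨c, strictMono_nat_of_lt_succ fun m => ?_, fun m => ⟨fun a b =>
    Subtype.ext (ab _ (sub m a.2) _ (sub m b.2))⟩⟩
  refine lt_of_le_of_ne (fun a ha => ?_) fun h => ?_
  · exact Submodule.span_mono (Set.image_mono (Set.Iio_subset_Iio (Nat.le_succ m))) ha
  · have h1 : z m ∈ c (m + 1) := Submodule.subset_span ⟨m, Nat.lt_succ_self m, rfl⟩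
    rw [← h] at h1
    exact li.notMem_span_image (s := Set.Iio m) (lt_irrefl m) h1

end Pool.Agent.P.MP_d0ec72_al.Narrow
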