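import Pool.Agent.P.MP_d0ec72_al.Der

/-! The maximal condition for Lie algebras with a staggered system of coefficients. -/

namespace Pool.Agent.P.MP_d0ec72_al

open Module

variable {k K : Type*} [Field k] [Field K] [Algebra k K]

/-- A Lie algebra with coefficient maps `f n` and value maps `e n` into a tower. -/
structure Sys (k K L : Type*) [Field k] [Field K] [Algebra k K] [LieRing L] [LieAlgebra k L] where
  sq : Sq k K
  x : ℕ → K
  nmem : ∀ n, x n ∉ kap k x n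
  f : ℕ → L →ₗ[k] K
  e : ℕ → L →ₗ[k] K
  fκ : ∀ n D, f n D ∈ kap k x n
  eκ : ∀ n D, e n D ∈ kap k x (n + 1)
  e0 : ∀ D, e 0 D = 0
  es : ∀ n D, e (n + 1) D = f n D + x (n + 1) * e n D
  faith : ∀ D, (∀ n, e n D = 0) → D = 0
  ev : ∀ D, ∃ n, ∀ m, n ≤ m → f m D = 0
  br : ∀ n D E, f (n + 1) D = 0 → f (n + 1) E = 0 →
    f (n + 1) ⁅D, E⁆ = e n D * f n E - e n E * f n D

namespace Sys

variable {L : Type*} [LieRing L] [LieAlgebra k L] (w : Sys k K L)

/-- The filtration. -/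
def F (n : ℕ) : Submodule k L where
  carrier := {D | ∀ m, n ≤ m → w.f m D = 0}
  add_mem' ha hb m hm := by rw [map_add, ha m hm, hb m hm, add_zero]
  zero_mem' m _ := map_zero _
  smul_mem' c D hD m hm := by rw [map_smul, hD m hm, smul_zero]

theorem F_mono : Monotone w.F := fun _ _ h _ hD m hm => hD m (h.trans hm)

theorem F_down {n : ℕ} {D : L} (hD : D ∈ w.F (n + 1)) (h0 : w.f n D = 0) : D ∈ w.F n := by
  intro m hm
  rcases hm.eq_or_lt with rfl | h
  · exact h0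
  · exact hD m h

theorem inj : ∀ n, ∀ D ∈ w.F n, w.e n D = 0 → D = 0
  | 0, D, hD, _ => by
    apply w.faith
    intro n
    induction n with
    | zero => exact w.e0 D
    | succ n ih => rw [w.es, ih, hD n (Nat.zero_le n)]; simp
  | n + 1, D, hD, h0 => by
    rw [w.es, mul_comm] at h0
    have := w.sq.uniq0 _ (w.nmem (n + 1)) (kap_mono _ (Nat.le_succ n) (w.fκ n D)) (w.eκ n D) h0
    exact inj n D (w.F_down hD this.2) this.1

theorem F_fin (n : ℕ) : Module.Finite k (w.F n) := by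
  have := kap_fin w.sq w.x w.nmem (n + 1)
  refine Module.Finite.of_injective
    (((w.e n).domRestrict (w.F n)).codRestrict (Subalgebra.toSubmodule (kap k w.x (n + 1)))
      fun D => w.eκ n D) ?_
  rw [injective_iff_map_eq_zero]
  intro D hD
  exact Subtype.ext (w.inj n D D.2 (congrArg Subtype.val hD))

theorem lie_F {n : ℕ} {D E : L} (hD : D ∈ w.F n) (hE : E ∈ w.F (n + 1)) :
    ⁅D, E⁆ ∈ w.F (n + 2) ∧ w.f (n + 1) ⁅D, E⁆ = w.f n E * w.e n D := by
  constructor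
  · intro m hm
    obtain ⟨m, rfl⟩ : ∃ m', m = m' + 1 := ⟨m - 1, by omega⟩
    rw [w.br m D E (hD _ (by omega)) (hE _ (by omega)), hD m (by omega), hE m (by omega)]
    simp
  · rw [w.br n D E (hD _ (by omega)) (hE _ le_rfl), hD n le_rfl]
    ring

/-- Top coefficients. -/
def T (H : LieSubalgebra k L) (n : ℕ) : Submodule k K :=
  (H.toSubmodule ⊓ w.F (n + 1)).map (w.f n)

/-- Values. -/
def U (H : LieSubalgebra k L) (n : ℕ) : Submodule k K :=
  (H.toSubmodule ⊓ w.F n).map (w.e n)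

theorem sat (H : LieSubalgebra k L) : ∃ N, ∀ n, N ≤ n → w.T H (n + 1) ≤ w.T H n * w.U H n := by
  by_cases hT : ∃ N, ∀ n, N ≤ n → w.T H n = ⊥
  · obtain ⟨N, hN⟩ := hT
    exact ⟨N, fun n hn => by rw [hN (n + 1) (by omega)]; exact bot_le⟩
  push Not at hT
  obtain ⟨n1, -, h1⟩ := hT 0
  obtain ⟨n0, hn0, h0⟩ := hT (n1 + 1)
  obtain ⟨_, ⟨E, ⟨hEH, hEF⟩, rfl⟩, hE0⟩ := Submodule.exists_mem_ne_zero_of_ne_bot h1
  obtain ⟨g0, hg0, hg00⟩ := Submodule.exists_mem_ne_zero_of_ne_bot h0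
  have hEF' := w.F_mono hn0 hEF
  let t : Tw k K :=
    { sq := w.sq
      κ := fun n => kap k w.x (n0 + n)
      x := fun n => w.x (n0 + n)
      mono := fun n => kap_mono _ (Nat.le_succ _)
      nmem := fun n => w.nmem _
      fin := fun n => kap_fin w.sq w.x w.nmem _
      two := fun n => (kap_fin_two w.sq w.x w.nmem _ (kap_fin w.sq w.x w.nmem _)).2
      T := fun n => w.T H (n0 + n)
      U := fun n => w.U H (n0 + n)
      hT := by
        rintro n _ ⟨D, -, rfl⟩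
        exact w.fκ _ D
      hU := by
        rintro n _ ⟨D, -, rfl⟩
        exact w.eκ _ D
      ha := by
        intro n
        rw [Submodule.mul_le]
        rintro _ ⟨A, ⟨hAH, hAF⟩, rfl⟩ _ ⟨D, ⟨hDH, hDF⟩, rfl⟩
        exact ⟨⁅D, A⁆, ⟨H.lie_mem hDH hAH, (w.lie_F hDF hAF).1⟩, (w.lie_F hDF hAF).2⟩
      hb := by
        rintro n _ ⟨D, ⟨hDH, hDF⟩, rfl⟩
        refine ⟨D, ⟨hDH, w.F_mono (Nat.le_succ _) hDF⟩, ?_⟩
        exact (w.es (n0 + n) D).trans (by rw [hDF _ le_rfl, zero_add]; rfl)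
      hc := by
        rintro n _ ⟨D, ⟨hDH, hDF⟩, rfl⟩
        exact ⟨_, w.eκ (n0 + n) D, D, ⟨hDH, hDF⟩, w.es (n0 + n) D⟩
      g0 := g0
      b0 := w.e n0 E
      g0m := hg0
      b0m := ⟨E, ⟨hEH, hEF'⟩, rfl⟩
      g00 := hg00
      b00 := fun h => hE0 (by rw [w.inj n0 E hEF' h, map_zero]) }
  obtain ⟨N, hN⟩ := t.core
  refine ⟨n0 + N, fun n hn => ?_⟩
  obtain ⟨j, rfl⟩ : ∃ j, n = n0 + j := ⟨n - n0, by omega⟩
  exact hN j (by omega)

theorem key (H : LieSubalgebra k L) : ∃ N, ∀ G : LieSubalgebra k L, G ≤ H →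
    (∀ D ∈ H, D ∈ w.F N → D ∈ G) → H ≤ G := by
  obtain ⟨N, hN⟩ := w.sat H
  refine ⟨N + 1, fun G hGH h0 => ?_⟩
  have step : ∀ j, ∀ D ∈ H, D ∈ w.F (N + j + 1) → D ∈ G := by
    intro j
    induction j with
    | zero => exact h0
    | succ j ih =>
      intro D hDH hDF
      have h1 := hN (N + j) (by omega) ⟨D, ⟨hDH, hDF⟩, rfl⟩
      have h2 : w.T H (N + j) * w.U H (N + j) ≤ w.T G (N + j + 1) := by
        rw [Submodule.mul_le]
        rintro _ ⟨A, ⟨hAH, hAF⟩, rfl⟩ _ ⟨B, ⟨hBH, hBF⟩, rfl⟩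
        exact ⟨⁅B, A⁆, ⟨G.lie_mem (ih B hBH (w.F_mono (Nat.le_succ _) hBF)) (ih A hAH hAF),
          (w.lie_F hBF hAF).1⟩, (w.lie_F hBF hAF).2⟩
      obtain ⟨A, ⟨hAG, hAF⟩, e⟩ := h2 h1
      have h3 := ih (D - A) (H.sub_mem hDH (hGH hAG))
        (w.F_down (Submodule.sub_mem _ hDF hAF) (by rw [map_sub, e, sub_self]))
      simpa using G.add_mem h3 hAG
  intro D hD
  obtain ⟨n, hn⟩ := w.ev D
  exact step n D hD (w.F_mono (by omega : n ≤ N + n + 1) hn)

include w in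
theorem noeth (c : ℕ →o LieSubalgebra k L) : ∃ n, ∀ m, n ≤ m → c m = c n := by
  have hm : Monotone fun n => (c n).toSubmodule := fun _ _ h => c.mono h
  let H : LieSubalgebra k L :=
    { toSubmodule := ⨆ n, (c n).toSubmodule
      lie_mem' := by
        intro a b ha hb
        obtain ⟨i, hi⟩ := (Submodule.mem_iSup_of_directed _ hm.directed_le).1 ha
        obtain ⟨j, hj⟩ := (Submodule.mem_iSup_of_directed _ hm.directed_le).1 hb
        exact (Submodule.mem_iSup_of_directed _ hm.directed_le).2 ⟨max i j,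
          (c (max i j)).lie_mem (hm (le_max_left _ _) hi) (hm (le_max_right _ _) hj)⟩ }
  have hcH : ∀ n, c n ≤ H := fun n => le_iSup (fun n => (c n).toSubmodule) n
  obtain ⟨N, hN⟩ := w.key H
  have := w.F_fin N
  have hfin : Module.Finite k (H.toSubmodule ⊓ w.F N : Submodule k L) :=
    Submodule.finiteDimensional_of_le inf_le_right
  have hm' : Monotone fun n => (c n).toSubmodule ⊓ w.F N := fun _ _ h => inf_le_inf_right _ (hm h)
  obtain ⟨n, hn⟩ := (Module.Finite.iff_fg.1 hfin).stabilizes_of_iSup_eq ⟨_, hm'⟩ (by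
    refine le_antisymm (iSup_le fun n D hD => ⟨hcH n hD.1, hD.2⟩) ?_
    rintro D ⟨hD, hF⟩
    obtain ⟨i, hi⟩ := (Submodule.mem_iSup_of_directed _ hm.directed_le).1 hD
    exact (Submodule.mem_iSup_of_directed _ hm'.directed_le).2 ⟨i, hi, hF⟩)
  have hH := hN (c n) (hcH n) fun D hD hF => (hn.le ⟨hD, hF⟩).1
  exact ⟨n, fun m hm => le_antisymm ((hcH m).trans hH) (c.mono hm)⟩

theorem not_finite (hv : ∀ n, ∃ D, w.f n D ≠ 0) : ¬ Module.Finite k L := by
  intro hf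
  obtain ⟨n, hn⟩ := (Module.finite_def.1 hf).stabilizes_of_iSup_eq ⟨_, w.F_mono⟩ (by
    rw [eq_top_iff]
    intro D _
    obtain ⟨i, hi⟩ := w.ev D
    exact (Submodule.mem_iSup_of_directed _ w.F_mono.directed_le).2 ⟨i, hi⟩)
  obtain ⟨D, hD⟩ := hv n
  exact hD (hn.le (Submodule.mem_top : D ∈ ⊤) n le_rfl)

end Sys

end Pool.Agent.P.MP_d0ec72_al
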