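import Mathlib

/-! Normalised actions of words: finite dimension, and a centroid argument. -/

namespace Pool.Agent.P.MP_d0ec72_al.Nw

open Finset Module

variable {k V Λ : Type*} [Field k] [AddCommGroup V] [Module k V]

/-- the normalised action of a word -/
def act (dg : Λ → ℕ) (E : Λ → ℕ → Module.End k V) : List Λ → ℕ → Module.End k V
  | [], _ => 1
  | a :: l, j => E a (j + (l.map dg).sum) * act dg E l j

variable {dg : Λ → ℕ} {E : Λ → ℕ → Module.End k V}

theorem act_append (l l' : List Λ) (j : ℕ) :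
    act dg E (l ++ l') j = act dg E l (j + (l'.map dg).sum) * act dg E l' j := by
  induction l with
  | nil => simp [act]
  | cons a l ih =>
    simp only [List.cons_append, act, ih, List.map_append, List.sum_append, mul_assoc]
    congr 2
    omega

theorem words_fin [FiniteDimensional k V] (v : V) (hfg : (Submodule.span k (Set.range E)).FG)
    (hsw : ∀ a b, ∃ c, dg c = dg a + dg b ∧
      ∀ j, E a (j + dg b) * E b j = E b (j + dg a) * E a j + E c j)
    (Q : ℕ) (hQ : 2 ≤ Q) (hpw : ∀ a, ∃ (y : Λ) (C : Module.End k V), dg y = Q * dg a ∧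
      ∀ j, act dg E (List.replicate Q a) j = E y j + C) :
    ∃ S : Submodule k (ℕ → V), S.FG ∧ ∀ l, (fun i => act dg E l i v) ∈ S := by
  classical
  obtain ⟨Z', hZ', hsp⟩ := (Submodule.fg_span_iff_fg_span_finset_subset _).1 hfg
  rw [← Set.image_univ] at hZ'
  obtain ⟨Z, -, rfl⟩ := Finset.subset_set_image_iff.1 hZ'
  let sq : List Λ → ℕ → V := fun l i => act dg E l i v
  let S : Submodule (Module.End k V) (ℕ → V) := Submodule.span _
    ((fun l : List Z => sq (l.map Subtype.val)) '' {l | l.length ≤ Q * Z.card})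
  refine ⟨S.restrictScalars k, Submodule.FG.restrictScalars
    (Submodule.fg_span ((List.finite_length_le _ _).image _)), fun l => ?_⟩
  change sq l ∈ S
  induction hn : l.length using Nat.strong_induction_on generalizing l with
  | _ n ih =>
  have perm : ∀ l l' : List Λ, l.Perm l' → ∀ pre : List Λ, (pre ++ l).length = n →
      sq (pre ++ l) ∈ S → sq (pre ++ l') ∈ S := by
    intro l l' h
    induction h with
    | nil => exact fun _ _ h => h
    | cons a _ ih' =>
      intro pre h1 h2
      rw [List.append_cons] at h1 h2 ⊢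
      exact ih' _ h1 h2
    | swap a b l =>
      intro pre h1 h2
      obtain ⟨c, hc, h⟩ := hsw a b
      have : sq (pre ++ a :: b :: l) = sq (pre ++ b :: a :: l) + sq (pre ++ c :: l) := by
        funext i
        simp only [sq, act_append, act, List.map_cons, List.sum_cons, Pi.add_apply, hc,
          ← LinearMap.add_apply]
        have := h (i + (l.map dg).sum)
        rw [show i + (dg b + (l.map dg).sum) = i + (l.map dg).sum + dg b by omega,
          show i + (dg a + (l.map dg).sum) = i + (l.map dg).sum + dg a by omega,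
          show dg b + (dg a + (l.map dg).sum) = dg a + (dg b + (l.map dg).sum) by omega,
          ← add_assoc (dg a), ← mul_add, ← mul_assoc (E a _), ← mul_assoc (E b _), ← add_mul, this]
      rw [this]
      exact S.add_mem h2 (ih _ (by simp at h1 ⊢; omega) _ rfl)
    | trans p _ ih1 ih2 =>
      intro pre h1 h2
      exact ih2 _ (by rw [← h1, List.length_append, List.length_append, p.length_eq])
        (ih1 _ h1 h2)
  have zw : ∀ l : List Λ, (∀ a ∈ l, a ∈ Z) → l.length = n → sq l ∈ S := by
    intro l hl h1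
    by_cases hc : ∃ a, Q ≤ l.count a
    · obtain ⟨a, ha⟩ := hc
      obtain ⟨l', hl'⟩ := (List.replicate_sublist_iff.2 ha).exists_perm_append
      have h2 := hl'.length_eq
      rw [List.length_append, List.length_replicate] at h2
      refine perm _ _ hl'.symm [] (by simp; omega) ?_
      obtain ⟨y, C, hy, h⟩ := hpw a
      have : sq ([] ++ (List.replicate Q a ++ l')) = sq (y :: l') + C • sq l' := by
        funext i
        simp [sq, act_append, act, h]
      rw [this]
      exact S.add_mem (ih _ (by simp; omega) _ rfl) (S.smul_mem _ (ih _ (by omega) _ rfl))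
    · refine Submodule.subset_span ⟨l.attachWith _ hl, ?_, by simp⟩
      have h2 : ∑ a ∈ Z, l.count a = l.length := by
        rw [← List.sum_toFinset_count_eq_length]
        refine (sum_subset (fun a ha => hl a (List.mem_toFinset.1 ha)) fun a _ ha => ?_).symm
        exact List.count_eq_zero_of_not_mem fun h => ha (List.mem_toFinset.2 h)
      have h3 := sum_le_card_nsmul Z (fun a => l.count a) Q fun a _ =>
        (not_le.1 fun h => hc ⟨a, h⟩).le
      change (l.attachWith _ hl).length ≤ _
      rw [List.length_attachWith, ← h2, mul_comm]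
      exact h3
  have all : ∀ l₁ l₂ : List Λ, (∀ a ∈ l₂, a ∈ Z) → (l₁ ++ l₂).length = n → sq (l₁ ++ l₂) ∈ S := by
    intro l₁
    induction l₁ with
    | nil => exact zw
    | cons a l₁ ih' =>
      intro l₂ h1 h2
      let f : (ℕ → Module.End k V) →ₗ[k] ℕ → V :=
        { toFun := fun e i => e (i + ((l₁ ++ l₂).map dg).sum) (sq (l₁ ++ l₂) i)
          map_add' := fun _ _ => rfl
          map_smul' := fun _ _ => rfl }
      have h3 : Submodule.span k (Set.range E) ≤ (S.restrictScalars k).comap f := by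
        rw [hsp, Submodule.span_le, coe_image]
        rintro _ ⟨z, hz, rfl⟩
        have h4 : (l₁ ++ z :: l₂).length = n := by simp at h2 ⊢; omega
        exact perm (l₁ ++ z :: l₂) (z :: (l₁ ++ l₂)) List.perm_middle [] h4
          (ih' _ (by simpa using ⟨hz, h1⟩) h4)
      exact h3 (Submodule.subset_span ⟨a, rfl⟩)
  simpa using all l [] (by simp) (by simpa using hn)

theorem centroid (S : Submodule k (ℕ → V)) (hS : S.FG) (v : V) (hv : v ≠ 0)
    (hl : ∀ l, (fun i => act dg E l i v) ∈ S) (x : Λ) (hx : dg x = 1) (hE : ∀ j, E x j = 1)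
    (hsim : ∀ (i : ℕ) (W : ℕ → Submodule k V),
      (∀ a d, ∀ u ∈ W d, E a (i + d) u ∈ W (d + dg a)) → (∃ d, W d ≠ ⊥) → ∃ d, W d = ⊤)
    (halt : ∀ n u, u ≠ 0 → ∃ a, E a n u = 0 ∧ ∃ N, ∀ n', N ≤ n' → ∀ u', E a n' u' = 0 → u' = 0) :
    False := by
  classical
  have : Module.Finite k S := Module.Finite.iff_fg.2 hS
  let K : ℕ → Submodule k S := fun N =>
    { carrier := {s | ∀ i ∈ range N, s.1 i = 0}
      add_mem' := fun {a b} ha hb i hi => by simp [ha i hi, hb i hi]
      zero_mem' := fun _ _ => rfl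
      smul_mem' := fun c a ha i hi => by simp [ha i hi] }
  obtain ⟨N, hN⟩ := IsArtinian.monotone_stabilizes (R := k) (M := S)
    ⟨K, fun a b hab s hs i hi => hs i (range_mono hab hi)⟩
  have hK : ∀ s ∈ S, (∀ i ∈ range N, s i = 0) → s N = 0 := fun s hs h => by
    have h1 : K N = K (N + 1) := hN (N + 1) (by omega)
    have h2 : (⟨s, hs⟩ : S) ∈ K N := h
    rw [h1] at h2
    exact h2 N (by simp)
  let I : Finset ℕ → ℕ → Submodule k (ℕ → V) := fun J d =>
    { carrier := {s | (∀ l, (fun i => act dg E l (i + d) (s i)) ∈ S) ∧ ∀ j ∈ J, s j = 0}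
      add_mem' := fun {a b} ha hb => ⟨fun l => by
        simp only [Pi.add_apply, map_add]; exact S.add_mem (ha.1 l) (hb.1 l),
        fun j hj => by simp [ha.2 j hj, hb.2 j hj]⟩
      zero_mem' := ⟨fun l => by simp only [Pi.zero_apply, map_zero]; exact S.zero_mem,
        fun _ _ => rfl⟩
      smul_mem' := fun c a ha => ⟨fun l => by
        simp only [Pi.smul_apply, map_smul]; exact S.smul_mem c (ha.1 l),
        fun j hj => by simp [ha.2 j hj]⟩ }
  have cl : ∀ J a d, ∀ s ∈ I J d, (fun i => E a (i + d) (s i)) ∈ I J (d + dg a) := by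
    intro J a d s hs
    refine ⟨fun l => ?_, fun j hj => by simp [hs.2 j hj]⟩
    simpa [act_append, act, add_assoc] using hs.1 (l ++ [a])
  have mono : ∀ J d e, ∀ s ∈ I J d, s ∈ I J (d + e) := by
    intro J d e s hs
    induction e with
    | zero => exact hs
    | succ e ih => simpa [hE, hx, add_assoc] using cl J x _ s ih
  suffices h : ∀ J : Finset ℕ, J ⊆ range N → (∀ d, ∀ s ∈ I J d, s N = 0) → False from
    h _ le_rfl fun d s hs => hK s (by simpa [act] using hs.1 []) hs.2
  intro J
  induction J using Finset.induction_on with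
  | empty => exact fun _ h => hv (h 0 (fun _ => v) ⟨hl, by simp⟩)
  | insert i J hi ih =>
    intro hJ h
    have fn : ∀ d, ∀ s ∈ I J d, s i = 0 → s N = 0 := fun d s hs h0 =>
      h d s ⟨hs.1, by simpa [h0] using hs.2⟩
    refine ih ((subset_insert _ _).trans hJ) fun d₀ s₁ hs₁ => by_contra fun h₁ => ?_
    obtain ⟨g, rfl⟩ := Nat.exists_eq_add_of_lt (mem_range.1 (hJ (mem_insert_self _ _)))
    obtain ⟨d₁, hd₁⟩ := hsim i (fun d => (I J d).map (LinearMap.proj i))
      (by rintro a d _ ⟨s, hs, rfl⟩; exact ⟨_, cl J a d s hs, rfl⟩)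
      ⟨d₀, (Submodule.ne_bot_iff _).2 ⟨_, ⟨s₁, hs₁, rfl⟩, fun h0 => h₁ (fn _ _ hs₁ h0)⟩⟩
    have inj : ∀ d, ∀ s ∈ I J d, s (i + g + 1) = 0 → s i = 0 := fun d s hs h0 =>
      by_contra fun h2 => by
        obtain ⟨d₂, hd₂⟩ := hsim i (fun d => (I (insert (i + g + 1) J) d).map (LinearMap.proj i))
          (by rintro a d _ ⟨s, hs, rfl⟩; exact ⟨_, cl _ a d s hs, rfl⟩)
          ⟨d, (Submodule.ne_bot_iff _).2 ⟨_, ⟨s, ⟨hs.1, by simpa [h0] using hs.2⟩, rfl⟩, h2⟩⟩
        obtain ⟨s', hs', h3⟩ := hd₂.ge (Submodule.mem_top (x := s₁ i))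
        have h4 : s' ∈ I J (d₀ + d₂) := by
          rw [add_comm]
          exact mono _ _ _ _ ⟨hs'.1, fun j hj => hs'.2 j (mem_insert_of_mem hj)⟩
        have h5 := fn _ _ (sub_mem (mono _ _ d₂ _ hs₁) h4) (sub_eq_zero.2 h3.symm)
        rw [Pi.sub_apply, hs'.2 _ (mem_insert_self _ _), sub_zero] at h5
        exact h₁ h5
    obtain ⟨a, ha, N₀, hN₀⟩ := halt (i + d₁) v hv
    have key : ∀ r, ∃ u, u ≠ 0 ∧ E a (i + (d₁ + r * (g + 1))) u = 0 := by
      intro r
      induction r with
      | zero => exact ⟨v, hv, by simpa using ha⟩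
      | succ r ih =>
        obtain ⟨u, hu, h2⟩ := ih
        obtain ⟨s, hs, rfl⟩ := hd₁.ge (Submodule.mem_top (x := u))
        refine ⟨_, fun h0 => hu (inj _ _ hs h0), ?_⟩
        rw [show i + (d₁ + (r + 1) * (g + 1)) = i + g + 1 + (d₁ + r * (g + 1)) by ring]
        exact fn _ _ (cl J a _ s (mono _ _ _ _ hs)) h2
    obtain ⟨u, hu, h2⟩ := key N₀
    exact hu (hN₀ _ (by nlinarith [Nat.zero_le (N₀ * g)]) u h2)

end Pool.Agent.P.MP_d0ec72_al.Nw
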