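import Mathlib

/-! A linear recurrence for a Pascal array that satisfies a twisted Leibniz rule. -/

set_option autoImplicit false

namespace Pool.Agent.P.MP_d0ec72_al.Nw

open Polynomial

attribute [local instance] Polynomial.algebra in
theorem loc_ring {k R W : Type*} [Field k] [CommRing R] [Algebra k R] [Algebra.IsIntegral k R]
    [AddCommGroup W] [Module k W] [Module R W] [IsScalarTower k R W]
    (c : ℕ → ℕ → W) (hP : ∀ i j, c i j = c (i + 1) j + c i (j + 1))
    (a b e : R) (hb : b ∈ nonZeroDivisors R) (q q' : ℕ) (hq : 0 < q) (hqq : q < q')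
    (hX : (1 - X : k[X]) ^ (q + q') = (1 - X ^ q) * (1 - X ^ q'))
    (hY : ∀ i, e • c i 0 = a • c (i + (q + q')) 0 + b • c i (q + q')) :
    ∃ G : k[X], G ≠ 0 ∧ ∀ i j, (G.sum fun r g => g • c (i + r) j) = 0 := by
  let Λ : R[X] →ₗ[R] W := lsum fun i => LinearMap.toSpanSingleton R W (c i 0)
  have h0 : ∀ i, Λ (X ^ i) = c i 0 := fun i => by
    simp [Λ, lsum_apply, X_pow_eq_monomial]
  have h1 : ∀ j i, Λ (X ^ i * (1 - X) ^ j) = c i j := by
    intro j
    induction j with
    | zero => intro i; simpa using h0 i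
    | succ j ih =>
      intro i
      have : (X ^ i * (1 - X) ^ (j + 1) : R[X]) =
          X ^ i * (1 - X) ^ j - X ^ (i + 1) * (1 - X) ^ j := by ring
      rw [this, map_sub, ih, ih, hP i j]; abel
  let g : R[X] := C e - C a * X ^ (q + q') - C b * (1 - X) ^ (q + q')
  have h2 : ∀ h, Λ (g * h) = 0 := by
    intro h
    induction h using Polynomial.induction_on' with
    | add f f' h h' => rw [mul_add, map_add, h, h', add_zero]
    | monomial i t =>
      have : g * monomial i t = t • (e • X ^ i - a • X ^ (i + (q + q')) -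
          b • (X ^ i * (1 - X) ^ (q + q'))) := by
        simp only [g, ← C_mul_X_pow_eq_monomial, smul_eq_C_mul]; ring
      rw [this, map_smul, map_sub, map_sub, map_smul, map_smul, map_smul, h0, h0, h1, hY]
      simp
  have h3 : (1 - X : R[X]) ^ (q + q') = 1 - X ^ q - X ^ q' + X ^ (q + q') := by
    have := congrArg (Polynomial.map (algebraMap k R)) hX
    simp only [Polynomial.map_pow, Polynomial.map_sub, Polynomial.map_one, map_X,
      Polynomial.map_mul] at this
    rw [this]; ring
  have h4 : g.coeff q = b := by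
    have e1 : q ≠ q + q' := by omega
    have e2 : q' ≠ 0 := by omega
    simp [g, h3, coeff_C, coeff_one, coeff_X_pow, hq.ne', hqq.ne, e1, e2]
  have h5 : g ∈ nonZeroDivisors R[X] := mem_nonzeroDivisors_of_coeff_mem q (h4 ▸ hb)
  have h6 : IsIntegral k[X] g :=
    isIntegral_iff_isIntegral_coeff.2 fun n => Algebra.IsIntegral.isIntegral _
  obtain ⟨G, hG, h, hh⟩ := h6.isAlgebraic.exists_nonzero_dvd h5
  refine ⟨G, hG, fun i j => ?_⟩
  have h7 : Λ (algebraMap k[X] R[X] G * (X ^ i * (1 - X) ^ j)) = 0 := by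
    rw [hh, mul_assoc, h2]
  rw [← h7]
  clear h7 hh hG
  induction G using Polynomial.induction_on' with
  | add f f' h h' =>
    rw [sum_add_index _ _ _ (by simp) (by simp [add_smul]), map_add, add_mul, map_add, h, h']
  | monomial r t =>
    have : algebraMap k[X] R[X] (monomial r t) * (X ^ i * (1 - X) ^ j) =
        algebraMap k R t • (X ^ (i + r) * (1 - X) ^ j) := by
      simp only [algebraMap_def, coe_mapRingHom, Polynomial.map_monomial,
        ← C_mul_X_pow_eq_monomial, smul_eq_C_mul]
      simp only [Polynomial.map_mul, map_C, Polynomial.map_pow, map_X]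
      ring
    rw [sum_monomial_index _ _ (by simp), this, map_smul, h1, algebraMap_smul]

theorem loc {k W : Type*} [Field k] [AddCommGroup W] [Module k W] [FiniteDimensional k W]
    (c : ℕ → ℕ → W) (hP : ∀ i j, c i j = c (i + 1) j + c i (j + 1))
    (a b e : Module.End k W) (hab : a * b = b * a) (hae : a * e = e * a) (hbe : b * e = e * b)
    (hb : Function.Injective b) (q q' : ℕ) (hq : 0 < q) (hqq : q < q')
    (hX : (1 - X : k[X]) ^ (q + q') = (1 - X ^ q) * (1 - X ^ q'))
    (hY : ∀ i, e (c i 0) = a (c (i + (q + q')) 0) + b (c i (q + q'))) :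
    ∃ G : k[X], G ≠ 0 ∧ ∀ i j, (G.sum fun r g => g • c (i + r) j) = 0 := by
  have hc : ∀ u ∈ ({a, b, e} : Set (Module.End k W)), ∀ v ∈ ({a, b, e} : Set (Module.End k W)),
      u * v = v * u := by
    rintro u (rfl | rfl | rfl) v (rfl | rfl | rfl) <;> simp [*]
  letI := Algebra.adjoinCommRingOfComm k hc
  refine loc_ring (R := Algebra.adjoin k ({a, b, e} : Set (Module.End k W))) c hP
    ⟨a, Algebra.subset_adjoin (by simp)⟩ ⟨b, Algebra.subset_adjoin (by simp)⟩
    ⟨e, Algebra.subset_adjoin (by simp)⟩ ?_ q q' hq hqq hX hY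
  refine mem_nonZeroDivisors_iff_left.2 fun u hu => Subtype.ext (LinearMap.ext fun w => hb ?_)
  simpa using congrArg (fun f : Algebra.adjoin k ({a, b, e} : Set (Module.End k W)) => f.1 w) hu

theorem frob (k : Type*) [Field k] (p : ℕ) [Fact p.Prime] [CharP k p] (r s : ℕ) :
    (1 - X : k[X]) ^ (p ^ r + p ^ s) = (1 - X ^ p ^ r) * (1 - X ^ p ^ s) := by
  rw [pow_add, sub_pow_char_pow, sub_pow_char_pow, one_pow, one_pow]

/-- Powers of inner derivations with exponent a power of the characteristic are derivations. -/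
theorem ad_pow_lie {k L : Type*} [Field k] (p : ℕ) [hp : Fact p.Prime] [CharP k p] [LieRing L]
    [LieAlgebra k L] (z : L) (r : ℕ) (a b : L) :
    (LieAlgebra.ad k L z ^ p ^ r) ⁅a, b⁆ =
      ⁅(LieAlgebra.ad k L z ^ p ^ r) a, b⁆ + ⁅a, (LieAlgebra.ad k L z ^ p ^ r) b⁆ := by
  have e : ⇑(LieDerivation.ad k L z) = ⇑(LieAlgebra.ad k L z) := by
    funext u; simp
  have h := LieDerivation.iterate_apply_lie' (LieDerivation.ad k L z) (p ^ r) a b
  have hq : 0 < p ^ r := pow_pos hp.out.pos r
  simp only [Module.End.pow_apply, ← e]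
  rw [h, Finset.sum_range_succ, Finset.sum_eq_single 0]
  · simp [add_comm]
  · intro i hi hi0
    obtain ⟨t, ht⟩ := hp.out.dvd_choose_pow hi0 (Finset.mem_range.1 hi).ne
    rw [ht, mul_smul, ← Nat.cast_smul_eq_nsmul k p, CharP.cast_eq_zero, zero_smul]
  · intro h; exact absurd (Finset.mem_range.2 hq) h

end Pool.Agent.P.MP_d0ec72_al.Nw
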