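import Pool.Agent.P.MP_d0ec72_al.Narrow
import Pool.Agent.P.MP_d0ec72_al.NwLoc
import Pool.Agent.P.MP_d0ec72_al.Nw1

/-! No minimal narrow family with finite centralisers exists in prime characteristic. -/

namespace Pool.Agent.P.MP_d0ec72_al.Nw

open Finset Module Narrow

variable {k L : Type*} [Field k] [LieRing L] [LieAlgebra k L]

/-- nonzero homogeneous elements of degree above `e` have finite centralisers -/
def FC (B : ℕ → Submodule k L) (e : ℕ) : Prop :=
  ∀ n, e < n → ∀ x ∈ B n, x ≠ 0 → ∃ N, ∀ m, N ≤ m → ∀ z ∈ B m, ⁅x, z⁆ = 0 → z = 0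

theorem core (p : ℕ) [hp : Fact p.Prime] [CharP k p] {B : ℕ → Submodule k L} (hc : Cl B)
    (hf : FC B 0) [∀ n, Module.Finite k (B n)] {x : L} (hx : x ∈ B 1) {m : ℕ} (hm : 0 < m)
    {V : Type*} [AddCommGroup V] [Module k V] [FiniteDimensional k V]
    (t : ℕ → V →ₗ[k] L) (ν : ℕ → L →ₗ[k] V) (tm : ∀ j u, t j u ∈ B (m + j))
    (ts : ∀ j u, t (j + 1) u = ⁅x, t j u⁆) (nt : ∀ j u, ν j (t j u) = u)
    (tn : ∀ j, ∀ z ∈ B (m + j), t j (ν j z) = z) (v : V) (hv : v ≠ 0)
    (hmin : ∀ B' : ℕ → Submodule k L, Cl B' → Ub B' → (∀ n, B' n ≤ B n) →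
      ∀ N, ∃ n, N ≤ n ∧ B n ≤ B' n) : False := by
  classical
  have ti : ∀ j u u', t j u = t j u' → u = u' := fun j u u' h => by rw [← nt j u, h, nt]
  have t0 : ∀ j u, t j u = 0 → u = 0 := fun j u h => ti j _ _ (by rw [h, map_zero])
  obtain ⟨Φ, hΦ⟩ : ∃ Φ : ℕ → L →ₗ[k] ℕ → Module.End k V, ∀ b, ∀ z ∈ B b, ∀ j u n, n = j + b →
      t n (Φ b z j u) = ⁅z, t j u⁆ := by
    refine ⟨fun b => { toFun := fun z j => ν (j + b) ∘ₗ LieAlgebra.ad k L z ∘ₗ t j
                       map_add' := fun _ _ => by ext; simp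
                       map_smul' := fun _ _ => by ext; simp }, ?_⟩
    rintro b z hz j u _ rfl
    refine tn _ _ ?_
    rw [show m + (j + b) = b + (m + j) by omega]
    exact hc _ _ _ hz _ (tm j u)
  have lt : ∀ r, r < p ^ r := fun r => Nat.lt_pow_self hp.out.one_lt
  have hY : ∀ b, 0 < b → ∀ z ∈ B b, ∀ r, m ≤ r → ∃ y ∈ B (p ^ r * b), ∃ C : Module.End k V,
      Der (LieAlgebra.ad k L z ^ p ^ r - LieAlgebra.ad k L y) ∧
      ∀ j u, (LieAlgebra.ad k L z ^ p ^ r - LieAlgebra.ad k L y) (t j u) =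
        t (j + p ^ r * b) (C u) := by
    intro b hb z hz r hr
    obtain ⟨g, hg⟩ : ∃ g, p ^ r * b = m + g :=
      Nat.exists_eq_add_of_le (by have := lt r; nlinarith)
    have h1 := pow_mem hc hz (p ^ r) hx
    rw [hg, show 1 + (m + g) = m + (g + 1) by omega] at h1
    have h2 := tn _ _ h1
    rw [ts] at h2
    set y := -t g (ν (g + 1) ((LieAlgebra.ad k L z ^ p ^ r) x)) with hy
    have hy' : y ∈ B (p ^ r * b) := by rw [hg]; exact neg_mem (tm _ _)
    have hD : Der (LieAlgebra.ad k L z ^ p ^ r - LieAlgebra.ad k L y) := fun a b => by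
      simp only [LinearMap.sub_apply]
      rw [der_pow p (der_ad z) r, der_ad y, sub_lie, lie_sub]
      abel
    have hx0 : (LieAlgebra.ad k L z ^ p ^ r - LieAlgebra.ad k L y) x = 0 := by
      rw [LinearMap.sub_apply, LieAlgebra.ad_apply, hy, neg_lie, lie_skew, h2, sub_self]
    refine ⟨y, hy', ν (p ^ r * b) ∘ₗ (LieAlgebra.ad k L z ^ p ^ r - LieAlgebra.ad k L y) ∘ₗ t 0,
      hD, fun j u => ?_⟩
    induction j with
    | zero =>
      rw [zero_add]
      refine (tn _ _ (sub_mem (pow_mem hc hz _ (tm 0 u)) ?_)).symm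
      rw [add_comm]
      exact hc _ _ _ hy' _ (tm 0 u)
    | succ j ih => rw [ts, hD, hx0, ih, zero_lie, zero_add, ← ts, add_right_comm]
  obtain ⟨g₀, hg₀⟩ : ∃ g, p ^ m + 1 = m + g := Nat.exists_eq_add_of_le (by have := lt m; omega)
  have hz : t g₀ v ∈ B (p ^ m + 1) := hg₀ ▸ tm g₀ v
  obtain ⟨N, hN⟩ := hf _ (by omega) _ hz fun h => hv (t0 _ _ h)
  obtain ⟨y, hy, C, hD, hC⟩ := hY _ (by omega) _ hz (N + m) (by omega)
  have hC0 : ¬ ∀ u, C u = 0 := fun h => by
    have h1 := hC g₀ v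
    have h2 : (LieAlgebra.ad k L (t g₀ v) ^ p ^ (N + m)) (t g₀ v) = 0 := by
      obtain ⟨q, hq⟩ := Nat.exists_eq_add_of_lt (pow_pos hp.out.pos (N + m))
      rw [hq, pow_succ, Module.End.mul_apply, LieAlgebra.ad_apply, lie_self, map_zero]
    rw [h, map_zero, LinearMap.sub_apply, h2, LieAlgebra.ad_apply, zero_sub, lie_skew] at h1
    have h3 := hN _ (by have := lt (N + m); nlinarith [Nat.zero_le (p ^ (N + m) * p ^ m)]) _ hy h1
    have h4 := hC N v
    rw [h, h3, map_zero, map_zero, sub_zero] at h4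
    exact hv (t0 _ _ (pow_inj hc hz hN _ (by omega) (tm N v) h4))
  set Y := LieAlgebra.ad k L (t g₀ v) ^ p ^ (N + m) - LieAlgebra.ad k L y
  have hCi : Function.Injective C := (injective_iff_map_eq_zero _).2 fun u hu =>
    by_contra fun hu0 => by
      obtain ⟨n, hn, h⟩ := hmin (fun n => B n ⊓ LinearMap.ker Y) (fun i j a ha b hb =>
        ⟨hc _ _ _ ha.1 _ hb.1, by
          have h1 : Y a = 0 := ha.2
          have h2 : Y b = 0 := hb.2
          change Y ⁅a, b⁆ = 0
          rw [hD, h1, h2, zero_lie, lie_zero, add_zero]⟩)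
        (fun j => ⟨m + j, by omega, t j u, ⟨tm j u, by
          change Y (t j u) = 0
          rw [hC, hu, map_zero]⟩, fun h => hu0 (t0 _ _ h)⟩) (fun _ => inf_le_left) m
      obtain ⟨j, rfl⟩ := Nat.exists_eq_add_of_le hn
      exact hC0 fun u' => t0 _ _ ((hC j u').symm.trans (h (tm j u')).2)
  have hCs := LinearMap.injective_iff_surjective.1 hCi
  let c : ℕ → ℕ → V →ₗ[k] V →ₗ[k] V := fun i j => LinearMap.proj j ∘ₗ Φ (m + i) ∘ₗ t i
  have tc : ∀ i j u u' n, n = j + (m + i) → t n (c i j u u') = ⁅t i u, t j u'⁆ :=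
    fun i j u u' n hn => hΦ _ _ (tm i u) j u' n hn
  obtain ⟨G, hG, hGc⟩ := loc c (fun i j => by
      ext u u'
      refine ti (j + (m + i) + 1) _ _ ?_
      rw [LinearMap.add_apply, LinearMap.add_apply, map_add, ts, tc _ _ _ _ _ rfl,
        tc _ _ _ _ _ (by omega), tc _ _ _ _ _ (by omega), ts, ts, leibniz_lie])
    (LinearMap.lcomp k _ C) (LinearMap.llcomp k V _ _ (LinearMap.lcomp k V C))
    (LinearMap.llcomp k V _ _ (LinearMap.llcomp k V V V C)) rfl rfl rfl
    (fun w w' h => by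
      ext u u'
      obtain ⟨u', rfl⟩ := hCs u'
      exact congrArg (fun f : V →ₗ[k] V →ₗ[k] V => f u u') h)
    (p ^ (N + m)) (p ^ (N + m + m)) (pow_pos hp.out.pos _)
    (Nat.pow_lt_pow_right hp.out.one_lt (by omega)) (frob k p _ _) (fun i => by
      have hn : p ^ (N + m) + p ^ (N + m + m) = p ^ (N + m) * (p ^ m + 1) := by ring
      rw [hn]
      ext u u'
      refine ti (m + i + p ^ (N + m) * (p ^ m + 1)) _ _ ?_
      change t _ (C (c i 0 u u')) = t _ (c _ 0 (C u) u' + c i _ u (C u'))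
      rw [← hC, map_add, tc _ _ _ _ _ (by omega), tc _ _ _ _ _ (by omega), tc _ _ _ _ _ (by omega),
        hD, hC, hC, zero_add])
  let P := (range (m + G.natDegree)).sup fun b => (B b).map (Φ b)
  have hP : P.FG := Submodule.fg_finset_sup _ _ fun b _ => (Module.Finite.iff_fg.1 inferInstance).map _
  have inP : ∀ b, ∀ z ∈ B b, Φ b z ∈ P := by
    intro b
    induction b using Nat.strong_induction_on with
    | _ b ih =>
    intro z hz
    by_cases hb : b < m + G.natDegree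
    · exact le_sup (f := fun b => (B b).map (Φ b)) (mem_range.2 hb) ⟨z, hz, rfl⟩
    obtain ⟨i, rfl⟩ : ∃ i, b = m + (i + G.natDegree) := ⟨b - (m + G.natDegree), by omega⟩
    rw [← tn _ _ hz]
    generalize ν _ z = u
    have h1 : ∑ r ∈ range (G.natDegree + 1), G.coeff r • Φ (m + (i + r)) (t (i + r) u) = 0 := by
      funext j
      have := congrArg (fun f : V →ₗ[k] V →ₗ[k] V => f u) (hGc i j)
      rw [Polynomial.sum_over_range _ (by simp)] at this
      simpa [c, LinearMap.sum_apply] using this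
    rw [sum_range_succ, add_comm, add_eq_zero_iff_eq_neg] at h1
    refine (P.smul_mem_iff (Polynomial.leadingCoeff_ne_zero.2 hG)).1 ?_
    rw [Polynomial.leadingCoeff, h1]
    exact neg_mem (sum_mem fun r hr => P.smul_mem _
      (ih _ (by have := mem_range.1 hr; omega) _ (tm _ _)))
  let Λ := {a : ℕ × L // 0 < a.1 ∧ a.2 ∈ B a.1}
  let dg : Λ → ℕ := fun a => a.1.1
  let E : Λ → ℕ → Module.End k V := fun a => Φ a.1.1 a.1.2
  have tE : ∀ (a : Λ) j u n, n = j + dg a → t n (E a j u) = ⁅a.1.2, t j u⁆ :=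
    fun a => hΦ _ _ a.2.2
  obtain ⟨S, hS, hl⟩ := words_fin (dg := dg) (E := E) v (by
      have := Module.Finite.iff_fg.2 hP
      have h : Submodule.span k (Set.range E) ≤ P :=
        Submodule.span_le.2 (by rintro _ ⟨a, rfl⟩; exact inP _ _ a.2.2)
      exact Module.Finite.iff_fg.1 (Submodule.finiteDimensional_of_le h))
    (fun a b => ⟨⟨(dg a + dg b, ⁅a.1.2, b.1.2⁆), Nat.add_pos_left a.2.1 _,
      hc _ _ _ a.2.2 _ b.2.2⟩, rfl, fun j => by
        ext u
        refine ti (j + (dg a + dg b)) _ _ ?_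
        rw [LinearMap.add_apply, map_add, Module.End.mul_apply, Module.End.mul_apply,
          tE _ _ _ _ (by omega), tE _ _ _ _ (by omega), tE _ _ _ _ (by omega),
          tE _ _ _ _ (by omega), tE _ _ _ _ (by rfl), leibniz_lie, add_comm]⟩)
    (p ^ m) (by have := lt m; omega) fun a => by
      obtain ⟨y, hy, C, -, hC⟩ := hY _ a.2.1 _ a.2.2 m le_rfl
      refine ⟨⟨(_, y), Nat.mul_pos (pow_pos hp.out.pos _) a.2.1, hy⟩, C, rfl, fun j => ?_⟩
      have h1 : ∀ n u, t (j + n * dg a) (act dg E (List.replicate n a) j u) =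
          (LieAlgebra.ad k L a.1.2 ^ n) (t j u) := by
        intro n u
        induction n with
        | zero => simp [act]
        | succ n ih =>
          rw [List.replicate_succ, act, List.map_replicate, List.sum_replicate, smul_eq_mul,
            Module.End.mul_apply, tE _ _ _ _ (by ring), ih, pow_succ', Module.End.mul_apply,
            LieAlgebra.ad_apply]
      ext u
      refine ti (j + p ^ m * dg a) _ _ ?_
      rw [h1, LinearMap.add_apply, map_add, tE _ _ _ _ (by rfl)]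
      rw [← show _ = t (j + p ^ m * dg a) (C u) from hC j u, LinearMap.sub_apply,
        LieAlgebra.ad_apply, add_sub_cancel]
  have hE : ∀ j, E ⟨(1, x), one_pos, hx⟩ j = 1 := fun j => by
    ext u
    refine ti (j + 1) _ _ ?_
    rw [tE _ _ _ _ (by rfl), ts, Module.End.one_apply]
  refine centroid S hS v hv hl ⟨(1, x), one_pos, hx⟩ rfl hE (fun i W hW ⟨d₀, hd₀⟩ => ?_)
    fun n u hu => ⟨⟨(m + n, t n u), by omega, tm n u⟩, t0 (n + (m + n)) _ ?_, ?_⟩
  · let B' : ℕ → Submodule k L := fun n =>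
      if m + i ≤ n then (W (n - (m + i))).map (t (n - m)) else ⊥
    have b1 : ∀ d, ∀ u ∈ W d, t (i + d) u ∈ B' (m + (i + d)) := fun d u hu => by
      simp only [B', if_pos (show m + i ≤ m + (i + d) by omega)]
      rw [show m + (i + d) - (m + i) = d by omega, Nat.add_sub_cancel_left]
      exact ⟨u, hu, rfl⟩
    have b2 : ∀ n, ∀ z ∈ B' n, z = 0 ∨ ∃ d, ∃ u ∈ W d, n = m + (i + d) ∧ z = t (i + d) u := by
      intro n z hz
      simp only [B'] at hz
      split_ifs at hz with h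
      · obtain ⟨u, hu, rfl⟩ := hz
        exact Or.inr ⟨_, u, hu, by omega, by rw [show i + (n - (m + i)) = n - m by omega]⟩
      · exact Or.inl hz
    have b3 : ∀ n, B' n ≤ B n := fun n z hz => by
      obtain rfl | ⟨d, u, -, rfl, rfl⟩ := b2 n z hz
      exacts [zero_mem _, tm _ _]
    obtain ⟨u, hu, hu0⟩ := (Submodule.ne_bot_iff _).1 hd₀
    have b4 : ∀ j, u ∈ W (d₀ + j) := fun j => by
      induction j with
      | zero => exact hu
      | succ j ih => simpa [hE, dg, add_assoc] using hW ⟨(1, x), one_pos, hx⟩ _ _ ih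
    obtain ⟨n, hn, h⟩ := hmin B' (fun n n' a ha b hb => by
        obtain rfl | ⟨d, u, -, hd, -⟩ := b2 n a ha
        · rw [zero_lie]; exact zero_mem _
        obtain rfl | ⟨d', u', hu', rfl, rfl⟩ := b2 n' b hb
        · rw [lie_zero]; exact zero_mem _
        have := b1 _ _ (hW ⟨(n, a), by omega, b3 _ ha⟩ _ _ hu')
        rw [tE _ _ _ _ (by omega)] at this
        rwa [show n + (m + (i + d')) = m + (i + (d' + n)) by omega])
      (fun j => ⟨_, by omega, _, b1 _ _ (b4 j), fun h => hu0 (t0 _ _ h)⟩) b3 (m + i)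
    obtain ⟨d, rfl⟩ : ∃ d, n = m + (i + d) := ⟨n - (m + i), by omega⟩
    refine ⟨d, top_unique fun u' _ => ?_⟩
    obtain h1 | ⟨d', u'', h1, h2, h3⟩ := b2 _ _ (h (tm _ u'))
    · rw [t0 _ _ h1]; exact zero_mem _
    · obtain rfl : d = d' := by omega
      rwa [ti _ _ _ h3]
  · rw [tE _ _ _ _ (by rfl), lie_self]
  · obtain ⟨N', hN'⟩ := hf (m + n) (by omega) _ (tm n u) fun h => hu (t0 _ _ h)
    refine ⟨N', fun n' hn' u' h => t0 _ _ (hN' _ (by omega) _ (tm n' u') ?_)⟩
    have := tE ⟨(m + n, t n u), by omega, tm n u⟩ n' u' _ rfl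
    rw [h, map_zero] at this
    exact this.symm

end Pool.Agent.P.MP_d0ec72_al.Nw
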