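import Pool.Agent.P.MP_d0ec72_al.Nw2

/-! Narrow graded families in prime characteristic contain infinite commuting families. -/

namespace Pool.Agent.P.MP_d0ec72_al.Nw

open Finset Module Narrow

variable {k L : Type*} [Field k] [LieRing L] [LieAlgebra k L]

theorem regrade {B : ℕ → Submodule k L} {e a : ℕ} {x : L} (hc : Cl B) (hu : Ub B) (hf : FC B e)
    (ha : e < a) (hx : x ∈ B a) (hx0 : x ≠ 0) :
    Cl (fun n => B (n * a)) ∧ Ub (fun n => B (n * a)) ∧ FC (fun n => B (n * a)) 0 := by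
  refine ⟨fun i j u hu v hv => ?_, fun N => ?_, fun n hn y hy hy0 => ?_⟩
  · simpa only [add_mul] using hc _ _ _ hu _ hv
  · obtain ⟨N₁, h1⟩ := hf a ha x hx hx0
    obtain ⟨d, hd, y, hy, hy0⟩ := hu (N₁ + e + 1)
    obtain ⟨N₂, h2⟩ := hf d (by omega) y hy hy0
    obtain ⟨g, rfl⟩ : ∃ g, a = g + 1 := ⟨a - 1, by omega⟩
    have h3 := pow_mem hc hx (N + N₂) hy
    have h4 := pow_mem hc hy g h3
    rw [show d + (N + N₂) * (g + 1) + g * d = (d + N + N₂) * (g + 1) by ring] at h4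
    exact ⟨d + N + N₂, by omega, _, h4, fun h => hy0 (pow_inj hc hx h1 _ (by omega) hy
      (pow_inj hc hy h2 _ (by nlinarith [Nat.zero_le ((N + N₂) * g)]) h3 h))⟩
  · obtain ⟨N, h⟩ := hf (n * a) (by nlinarith) y hy hy0
    exact ⟨N, fun m hm => h _ (by nlinarith)⟩

theorem narrow (p : ℕ) [Fact p.Prime] [CharP k p] (w : ℕ) : ∀ B : ℕ → Submodule k L, Cl B →
    Ub B → FC B 0 → (∀ n, Module.Finite k (B n)) →
    (∃ N, ∀ n, N ≤ n → finrank k (B n) < w) → False := by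
  induction w with
  | zero => exact fun _ _ _ _ _ ⟨N, h⟩ => absurd (h N le_rfl) (Nat.not_lt_zero _)
  | succ w ih =>
    rintro A a1 a2 a3 a4 ⟨N₀, a5⟩
    obtain ⟨a, ha, x, hx, hx0⟩ := a2 1
    obtain ⟨hc, hu, hf⟩ := regrade a1 a2 a3 ha hx hx0
    set B : ℕ → Submodule k L := fun n => A (n * a)
    have hfin : ∀ n, Module.Finite k (B n) := fun n => a4 _
    have hw : ∀ n, N₀ ≤ n → finrank k (B n) ≤ w := fun n hn =>
      Nat.le_of_lt_succ (a5 _ (by nlinarith))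
    have hx1 : x ∈ B 1 := by simpa [B] using hx
    obtain ⟨N₁, hi⟩ := hf 1 one_pos x hx1 hx0
    have big : ∀ B' : ℕ → Submodule k L, Cl B' → Ub B' → (∀ n, B' n ≤ B n) →
        ∀ N, ∃ n, N ≤ n ∧ w ≤ finrank k (B' n) := fun B' b1 b2 b3 N => by
      by_contra h
      refine ih B' b1 b2 (fun n hn y hy hy0 => ?_)
        (fun n => Submodule.finiteDimensional_of_le (b3 n))
        ⟨N, fun n hn => not_le.1 fun h' => h ⟨n, hn, h'⟩⟩
      obtain ⟨M, hM⟩ := hf n hn y (b3 _ hy) hy0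
      exact ⟨M, fun m hm z hz => hM m hm z (b3 _ hz)⟩
    obtain ⟨m, hm, hmw⟩ := big B hc hu (fun _ => le_rfl) (N₀ + N₁ + 1)
    let t : ℕ → B m →ₗ[k] L := fun j => (LieAlgebra.ad k L x ^ j) ∘ₗ (B m).subtype
    have tm : ∀ j u, t j u ∈ B (m + j) := fun j u => by
      have := pow_mem hc hx1 j u.2
      rwa [mul_one] at this
    have ti : ∀ j, LinearMap.ker (t j) = ⊥ := fun j => LinearMap.ker_eq_bot'.2 fun u h =>
      Subtype.ext (pow_inj hc hx1 hi j (by omega) u.2 h)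
    choose ν hν using fun j => LinearMap.exists_leftInverse_of_injective (t j) (ti j)
    have nt : ∀ j u, ν j (t j u) = u := fun j u => LinearMap.congr_fun (hν j) u
    have tr : ∀ j, LinearMap.range (t j) = B (m + j) := fun j =>
      Submodule.eq_of_le_of_finrank_le (by rintro _ ⟨u, rfl⟩; exact tm j u) (by
        rw [LinearMap.finrank_range_of_inj (LinearMap.ker_eq_bot.1 (ti j))]
        exact (hw _ (by omega)).trans hmw)
    obtain ⟨n, hn, z, hz, hz0⟩ := hu m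
    obtain ⟨j, rfl⟩ := Nat.exists_eq_add_of_le hn
    obtain ⟨v, rfl⟩ := (tr j).ge hz
    refine core p hc hf hx1 (by omega) t ν tm (fun j u => ?_) nt (fun j z hz => ?_) v
      (fun h => hz0 (by rw [h, map_zero])) fun B' b1 b2 b3 N => ?_
    · simp [t, pow_succ']
    · obtain ⟨u, rfl⟩ := (tr j).ge hz
      rw [nt]
    · obtain ⟨n, hn, h⟩ := big B' b1 b2 b3 (N + N₀)
      exact ⟨n, by omega, (Submodule.eq_of_le_of_finrank_le (b3 n)
        ((hw n (by omega)).trans h)).ge⟩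

theorem grow (p : ℕ) [Fact p.Prime] [CharP k p] {B : ℕ → Submodule k L} {e : ℕ} (hc : Cl B)
    (hu : Ub B) (hf : FC B e) [∀ n, Module.Finite k (B n)] :
    ∃ a, 0 < a ∧ ∀ w, ∃ N, ∀ n, N ≤ n → w ≤ finrank k (B (n * a)) := by
  obtain ⟨a, ha, x, hx, hx0⟩ := hu (e + 1)
  obtain ⟨b1, b2, b3⟩ := regrade hc hu hf ha hx hx0
  obtain ⟨N, hi⟩ := hf a ha x hx hx0
  have mono : ∀ n j, N ≤ n → finrank k (B (n * a)) ≤ finrank k (B ((n + j) * a)) := by
    intro n j hn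
    rw [add_mul]
    exact LinearMap.finrank_le_finrank_of_injective
      (f := (LieAlgebra.ad k L x ^ j).restrict fun z hz => pow_mem hc hx j hz)
      ((injective_iff_map_eq_zero _).2 fun z hz => Subtype.ext
        (pow_inj hc hx hi j (by nlinarith) z.2 (congrArg Subtype.val hz)))
  refine ⟨a, by omega, fun w => by_contra fun h => narrow p w _ b1 b2 b3 (fun _ => inferInstance)
    ⟨N, fun n hn => not_le.1 fun h' => h ⟨n, fun n' hn' => ?_⟩⟩⟩
  obtain ⟨j, rfl⟩ := Nat.exists_eq_add_of_le hn'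
  exact h'.trans (mono n j hn)

/-- closed under the bracket, any index set -/
def ClG {ι : Type*} [Add ι] (B : ι → Submodule k L) : Prop :=
  ∀ i j, ∀ a ∈ B i, ∀ b ∈ B j, ⁅a, b⁆ ∈ B (i + j)

/-- finite centralisers outside a finite set of degrees -/
def FCG {ι : Type*} (B : ι → Submodule k L) (F : Finset ι) : Prop :=
  ∀ i ∉ F, ∀ x ∈ B i, x ≠ 0 → ∃ F' : Finset ι, ∀ j ∉ F', ∀ z ∈ B j, ⁅x, z⁆ = 0 → z = 0

theorem fam_or {ι : Type*} [Add ι] {A : ι → Submodule k L} (hc : ClG A)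
    (hu : {i | A i ≠ ⊥}.Infinite) :
    (∃ (z : ℕ → L) (n : ℕ → ι), Function.Injective n ∧ (∀ j, z j ∈ A (n j)) ∧ (∀ j, z j ≠ 0) ∧
      ∀ i j, ⁅z i, z j⁆ = 0) ∨
    ∃ B F, ClG B ∧ {i | B i ≠ ⊥}.Infinite ∧ (∀ n, B n ≤ A n) ∧ FCG B F := by
  classical
  refine or_iff_not_imp_right.2 fun hno => ?_
  let S := {B : ι → Submodule k L // ClG B ∧ {i | B i ≠ ⊥}.Infinite ∧ ∀ n, B n ≤ A n} × Finset ι
  have step : ∀ s : S, ∃ (s' : S) (e : ι) (x : L), (e ∉ s.2 ∧ s'.2 = insert e s.2) ∧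
      x ∈ s.1.1 e ∧ x ≠ 0 ∧ ∀ n, ∀ z ∈ s'.1.1 n, z ∈ s.1.1 n ∧ ⁅x, z⁆ = 0 := by
    rintro ⟨⟨B, b1, b2, b3⟩, m⟩
    have h : ¬ FCG B m := fun h => hno ⟨B, m, b1, b2, b3, h⟩
    simp only [FCG, not_forall, not_exists] at h
    obtain ⟨e, he, x, hx, hx0, h⟩ := h
    refine ⟨(⟨fun n => B n ⊓ LinearMap.ker (LieAlgebra.ad k L x), ?_, ?_,
      fun n => inf_le_left.trans (b3 n)⟩, insert e m), e, x, ⟨he, rfl⟩, hx, hx0,
      fun n z hz => ⟨hz.1, hz.2⟩⟩
    · intro i j a ha b hb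
      refine ⟨b1 _ _ _ ha.1 _ hb.1, ?_⟩
      have h1 : ⁅x, a⁆ = 0 := ha.2
      have h2 : ⁅x, b⁆ = 0 := hb.2
      change ⁅x, ⁅a, b⁆⁆ = 0
      rw [leibniz_lie, h1, h2, zero_lie, lie_zero, add_zero]
    · intro hN
      obtain ⟨n, hn, z, hz, h1, h2⟩ := h hN.toFinset
      exact hn (hN.mem_toFinset.2 ((Submodule.ne_bot_iff _).2 ⟨z, ⟨hz, h1⟩, h2⟩))
  choose nx d X h1 h2 h3 h4 using step
  let s : ℕ → S := fun j => nx^[j] (⟨A, hc, hu, fun _ => le_rfl⟩, ∅)
  have hs : ∀ j, s (j + 1) = nx (s j) := fun j => Function.iterate_succ_apply' _ _ _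
  have mono : ∀ i j, (s i).2 ⊆ (s (i + j)).2 ∧ ∀ n, ∀ z ∈ (s (i + j)).1.1 n, z ∈ (s i).1.1 n := by
    intro i j
    induction j with
    | zero => exact ⟨le_rfl, fun n z hz => hz⟩
    | succ j ih =>
      rw [← add_assoc, hs, (h1 _).2]
      exact ⟨ih.1.trans (subset_insert _ _), fun n z hz => ih.2 n z (h4 _ n z hz).1⟩
  have lt : ∀ i j, i < j → d (s i) ≠ d (s j) ∧ ⁅X (s i), X (s j)⁆ = 0 := fun i j hij => by
    obtain ⟨r, rfl⟩ := Nat.exists_eq_add_of_le (Nat.succ_le_of_lt hij)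
    obtain ⟨m1, m2⟩ := mono (i + 1) r
    have := m2 _ _ (h2 (s (i + 1 + r)))
    rw [hs] at this m1
    refine ⟨fun h => (h1 (s (i + 1 + r))).1 (m1 ?_), (h4 _ _ _ this).2⟩
    rw [(h1 _).2, h]
    exact mem_insert_self _ _
  refine ⟨fun j => X (s j), fun j => d (s j), 
    Function.Injective.of_lt_imp_ne fun i j h => (lt i j h).1,
    fun j => (s j).1.2.2.2 _ (h2 _), fun j => h3 _, fun i j => ?_⟩
  rcases lt_trichotomy i j with h | rfl | h
  · exact (lt i j h).2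
  · exact lie_self _
  · rw [← lie_skew, (lt j i h).2, neg_zero]

theorem chain {ι : Type*} {z : ℕ → L} {n : ℕ → ι} {A : ι → Submodule k L} (hind : iSupIndep A)
    (f1 : Function.Injective n) (f2 : ∀ j, z j ∈ A (n j)) (f3 : ∀ j, z j ≠ 0)
    (f4 : ∀ i j, ⁅z i, z j⁆ = 0) :
    ∃ c : ℕ → LieSubalgebra k L, StrictMono c ∧ (∀ m, Module.Finite k (c m)) ∧
      ∀ m, IsLieAbelian (c m) := by
  have li : LinearIndependent k z := iSupIndep.linearIndependent _ (hind.comp f1) f2 f3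
  have ab : ∀ a ∈ Submodule.span k (Set.range z), ∀ b ∈ Submodule.span k (Set.range z),
      ⁅a, b⁆ = 0 := by
    intro a ha b hb
    induction ha, hb using Submodule.span_induction₂ with
    | mem_mem a b ha hb =>
      obtain ⟨i, rfl⟩ := ha
      obtain ⟨j, rfl⟩ := hb
      exact f4 i j
    | zero_left => exact zero_lie _
    | zero_right => exact lie_zero _
    | add_left a b c _ _ _ h1 h2 => rw [add_lie, h1, h2, add_zero]
    | add_right a b c _ _ _ h1 h2 => rw [lie_add, h1, h2, add_zero]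
    | smul_left r a b _ _ h => rw [smul_lie, h, smul_zero]
    | smul_right r a b _ _ h => rw [lie_smul, h, smul_zero]
  have sub : ∀ m, Submodule.span k (z '' Set.Iio m) ≤ Submodule.span k (Set.range z) := fun m =>
    Submodule.span_mono (Set.image_subset_range _ _)
  let c : ℕ → LieSubalgebra k L := fun m =>
    { toSubmodule := Submodule.span k (z '' Set.Iio m)
      lie_mem' := fun {a b} ha hb => by
        rw [ab a (sub m ha) b (sub m hb)]
        exact (Submodule.span k (z '' Set.Iio m)).zero_mem }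
  refine ⟨c, strictMono_nat_of_lt_succ fun m => ?_,
    fun m => Module.Finite.span_of_finite k ((Set.finite_Iio m).image z), fun m => ⟨fun a b =>
    Subtype.ext (ab _ (sub m a.2) _ (sub m b.2))⟩⟩
  refine lt_of_le_of_ne (fun a ha => ?_) fun h => ?_
  · exact Submodule.span_mono (Set.image_mono (Set.Iio_subset_Iio (Nat.le_succ m))) ha
  · have h1 : z m ∈ c (m + 1) := Submodule.subset_span ⟨m, Nat.lt_succ_self m, rfl⟩
    rw [← h] at h1
    exact li.notMem_span_image (s := Set.Iio m) (lt_irrefl m) h1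

section Ray

variable {Γ : Type*} [AddCommGroup Γ] {B : Γ → Submodule k L}

theorem walk (hc : ClG B) {y : L} {β : Γ} (hy : y ∈ B β) {F : Finset Γ}
    (hF : ∀ j ∉ F, ∀ z ∈ B j, ⁅y, z⁆ = 0 → z = 0) {δ : Γ} (hδ : ∃ z ∈ B δ, z ≠ 0) (s : ℕ)
    (hs : ∀ j < s, δ + j • β ∉ F) : ∃ z ∈ B (δ + s • β), z ≠ 0 := by
  induction s with
  | zero => simpa using hδ
  | succ s ih =>
    obtain ⟨z, hz, hz0⟩ := ih fun j hj => hs j (by omega)
    refine ⟨⁅y, z⁆, ?_, fun h => hz0 (hF _ (hs s (by omega)) z hz h)⟩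
    rw [succ_nsmul, ← add_assoc, add_comm]
    exact hc _ _ _ hy _ hz

theorem avoid {γ : Γ} (hγ : ¬ IsOfFinAddOrder γ) (δ : Γ) (F : Finset Γ) :
    ∃ N : ℕ, ∀ n, N ≤ n → δ + n • γ ∉ F := by
  obtain ⟨N, hN⟩ := (F.finite_toSet.preimage (f := fun n : ℕ => δ + n • γ) fun i _ j _ h =>
    injective_nsmul_iff_not_isOfFinAddOrder.2 hγ (add_left_cancel h)).bddAbove
  exact ⟨N + 1, fun n hn h => by have := hN h; omega⟩

theorem ray (hc : ClG B) (hu : {i | B i ≠ ⊥}.Infinite) {F : Finset Γ} (hf : FCG B F)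
    (ht : {i | B i ≠ ⊥ ∧ IsOfFinAddOrder i}.Finite) :
    ∃ γ : Γ, ¬ IsOfFinAddOrder γ ∧ Ub fun n => B (n • γ) := by
  classical
  obtain ⟨β, hβ, hy, α, hα, h⟩ : ∃ β ∉ F, B β ≠ ⊥ ∧ ∃ α : Γ, ¬ IsOfFinAddOrder α ∧
      Ub fun n => B (β + n • α) := by
    obtain ⟨α, hα, hα''⟩ := hu.exists_notMem_finite (ht.union F.finite_toSet)
    have hα' : ¬ IsOfFinAddOrder α ∧ α ∉ F :=
      ⟨fun h => hα'' (Or.inl ⟨hα, h⟩), fun h => hα'' (Or.inr h)⟩
    obtain ⟨x, hx, hx0⟩ := (Submodule.ne_bot_iff _).1 hα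
    obtain ⟨F', hF'⟩ := hf α hα'.2 x hx hx0
    by_cases h : ∃ β ∉ F, B β ≠ ⊥ ∧ ∀ i : ℕ, β + i • α ∉ F'
    · obtain ⟨β, h1, h2, h3⟩ := h
      exact ⟨β, h1, h2, α, hα'.1, fun N => ⟨N, le_rfl, walk hc hx hF'
        ((Submodule.ne_bot_iff _).1 h2) N fun j _ => h3 j⟩⟩
    obtain ⟨f, hf'⟩ : ∃ f, {β | β ∉ F ∧ B β ≠ ⊥ ∧ ∃ i : ℕ, β + i • α = f}.Infinite := by
      by_contra h'
      simp only [not_exists, Set.not_infinite] at h'
      refine hu ((F.finite_toSet.union (F'.finite_toSet.biUnion fun f _ => h' f)).subset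
        fun β hβ => or_iff_not_imp_left.2 fun h1 => ?_)
      obtain ⟨i, hi⟩ : ∃ i : ℕ, β + i • α ∈ F' := by_contra fun h2 =>
        h ⟨β, h1, hβ, fun i hi => h2 ⟨i, hi⟩⟩
      exact Set.mem_biUnion hi ⟨h1, hβ, i, rfl⟩
    obtain ⟨β, h1, h2, i₀, rfl⟩ := hf'.nonempty
    refine ⟨β, h1, h2, -α, fun h => hα'.1 h.of_neg, fun N => ?_⟩
    obtain ⟨β', ⟨-, h3, i, h4⟩, h5⟩ := hf'.exists_notMem_finset
      ((range (N + i₀)).image fun i => β + i₀ • α - i • α)
    have h6 : N + i₀ ≤ i := not_lt.1 fun hi =>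
      h5 (mem_image.2 ⟨i, mem_range.2 hi, by rw [← h4, add_sub_cancel_right]⟩)
    obtain ⟨r, rfl⟩ : ∃ r, i = r + i₀ := ⟨i - i₀, by omega⟩
    refine ⟨r, by omega, ?_⟩
    rw [add_nsmul, ← add_assoc, add_left_inj] at h4
    simp only [← h4, neg_nsmul, add_neg_cancel_right]
    exact (Submodule.ne_bot_iff _).1 h3
  obtain ⟨y, hy, hy0⟩ := (Submodule.ne_bot_iff _).1 hy
  obtain ⟨F', hF'⟩ := hf β hβ y hy hy0
  by_cases hd : ∃ (s : ℕ) (r : ℤ), (s + 1) • β = r • α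
  · obtain ⟨s, r, hd⟩ := hd
    obtain ⟨N₁, h1⟩ := avoid hα β ((F' ×ˢ range s).image fun a => a.1 - a.2 • β)
    refine ⟨α, hα, fun N => ?_⟩
    obtain ⟨i, hi, hz⟩ := h (N + N₁ + r.natAbs)
    obtain ⟨n, hn⟩ : ∃ n : ℕ, (n : ℤ) = r + i := ⟨(r + i).toNat, by omega⟩
    have := walk hc hy hF' hz s fun j hj hm => h1 i (by omega) (mem_image.2
      ⟨(_, j), mem_product.2 ⟨hm, mem_range.2 hj⟩, add_sub_cancel_right _ _⟩)
    refine ⟨n, by omega, ?_⟩
    rwa [add_right_comm, ← succ_nsmul', hd, ← natCast_zsmul α i, ← add_zsmul, ← hn,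
      natCast_zsmul] at this
  have key : ∀ i j i' j' : ℕ, j ≤ j' → β + i • α + j • β = β + i' • α + j' • β → i = i' := by
    intro i j i' j' hj he
    obtain ⟨r, rfl⟩ := Nat.exists_eq_add_of_le hj
    have h1 : r • β = ((i : ℤ) - i') • α := by
      rw [sub_zsmul, natCast_zsmul, natCast_zsmul]
      rw [add_nsmul] at he
      linear_combination (norm := abel) -he
    cases r with
    | zero =>
      have := injective_zsmul_iff_not_isOfFinAddOrder.2 hα
        (h1.symm.trans ((zero_nsmul _).trans (zero_zsmul _).symm))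
      omega
    | succ r => exact absurd ⟨r, _, h1⟩ hd
  obtain ⟨N₁, h1⟩ := (F'.finite_toSet.biUnion (t := fun f => {i : ℕ | ∃ j : ℕ,
    β + i • α + j • β = f}) fun f _ => Set.Subsingleton.finite fun i ⟨j, hi⟩ i' ⟨j', hi'⟩ =>
      (le_total j j').elim (fun h => key _ _ _ _ h (hi.trans hi'.symm))
        fun h => (key _ _ _ _ h (hi'.trans hi.symm)).symm).bddAbove
  refine ⟨α + β, fun h0 => ?_, fun N => ?_⟩
  · obtain ⟨n, hn, h0⟩ := isOfFinAddOrder_iff_nsmul_eq_zero.1 h0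
    refine hd ⟨n - 1, -n, ?_⟩
    rw [Nat.sub_add_cancel hn, neg_zsmul, natCast_zsmul, eq_neg_iff_add_eq_zero, add_comm,
      ← nsmul_add, h0]
  obtain ⟨i, hi, hz⟩ := h (N + N₁ + 1)
  obtain ⟨s, rfl⟩ : ∃ s, i = s + 1 := ⟨i - 1, by omega⟩
  have := walk hc hy hF' hz s fun j _ hm => by
    have := h1 (Set.mem_biUnion hm ⟨j, rfl⟩)
    omega
  refine ⟨s + 1, by omega, ?_⟩
  rwa [add_right_comm, ← succ_nsmul', add_comm, ← nsmul_add] at this

theorem main_group (p : ℕ) [Fact p.Prime] [CharP k p] (A : Γ → Submodule k L)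
    (hind : iSupIndep A) (hc : ClG A) (hfin : ∀ γ, Module.Finite k (A γ))
    (hu : {γ | A γ ≠ ⊥}.Infinite) (ht : {γ | A γ ≠ ⊥ ∧ IsOfFinAddOrder γ}.Finite) :
    (∃ c : ℕ → LieSubalgebra k L, StrictMono c ∧ (∀ m, Module.Finite k (c m)) ∧
      ∀ m, IsLieAbelian (c m)) ∨
      ∃ γ : Γ, ¬ IsOfFinAddOrder γ ∧ ∀ w, ∃ N : ℕ, ∀ n, N ≤ n → w ≤ finrank k (A (n • γ)) := by
  refine (fam_or hc hu).imp (fun ⟨z, n, f1, f2, f3, f4⟩ => chain hind f1 f2 f3 f4)
    fun ⟨B, F, b1, b2, b3, b4⟩ => ?_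
  obtain ⟨γ, hγ, h⟩ := ray b1 b2 b4 (ht.subset fun i hi =>
    ⟨fun h => hi.1 (le_bot_iff.1 (h ▸ b3 i)), hi.2⟩)
  obtain ⟨e, he⟩ := avoid hγ 0 F
  have : ∀ n : ℕ, Module.Finite k (B (n • γ)) := fun n =>
    Submodule.finiteDimensional_of_le (b3 _)
  obtain ⟨a, ha, h⟩ := grow p (B := fun n => B (n • γ)) (e := e)
    (fun i j u hu v hv => by simpa only [add_nsmul] using b1 _ _ _ hu _ hv) h fun n hn x hx hx0 => by
      obtain ⟨F', h1⟩ := b4 _ (by simpa using he n hn.le) x hx hx0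
      obtain ⟨N, hN⟩ := avoid hγ 0 F'
      exact ⟨N, fun m hm => h1 _ (by simpa using hN m hm)⟩
  refine ⟨a • γ, fun h0 => hγ (h0.of_nsmul ha.ne'), fun w =>
    (h w).imp fun N hN n hn => (hN n hn).trans ?_⟩
  rw [← mul_nsmul']
  exact Submodule.finrank_mono (b3 _)

theorem tors (A : Γ → Submodule k L) (hind : iSupIndep A) (hc : ClG A)
    (hfin : ∀ γ, Module.Finite k (A γ)) (h : {γ | A γ ≠ ⊥ ∧ IsOfFinAddOrder γ}.Infinite) :
    ∃ c : ℕ → LieSubalgebra k L, StrictMono c ∧ ∀ m, Module.Finite k (c m) := by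
  let τ := Set.Infinite.natEmbedding _ h
  let H : ℕ → AddSubgroup Γ := fun n => AddSubgroup.closure ((fun i => (τ i).1) '' Set.Iio n)
  let c : ℕ → LieSubalgebra k L := fun n =>
    { toSubmodule := ⨆ γ : H n, A γ
      lie_mem' := fun {a b} ha hb => by
        change a ∈ ⨆ γ : H n, A γ at ha
        change b ∈ ⨆ γ : H n, A γ at hb
        change ⁅a, b⁆ ∈ ⨆ γ : H n, A γ
        induction ha using Submodule.iSup_induction' with
        | zero => rw [zero_lie]; exact zero_mem _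
        | add _ _ _ _ h1 h2 => rw [add_lie]; exact add_mem h1 h2
        | mem i a ha =>
          induction hb using Submodule.iSup_induction' with
          | zero => rw [lie_zero]; exact zero_mem _
          | add _ _ _ _ h1 h2 => rw [lie_add]; exact add_mem h1 h2
          | mem j b hb => exact Submodule.mem_iSup_of_mem (i + j) (hc _ _ _ ha _ hb) }
  have hm : Monotone c := fun n n' hn => (LieSubalgebra.toSubmodule_le_toSubmodule _ _).1
    (iSup_le fun γ => le_iSup_of_le (f := fun γ : H n' => A γ) ⟨γ, AddSubgroup.closure_mono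
      (Set.image_mono (Set.Iio_subset_Iio hn)) γ.2⟩ le_rfl)
  have hH : ∀ N, Finite (H N) := fun N => by
    have : Finite ((fun i => (τ i).1) '' Set.Iio N) := ((Set.finite_Iio N).image _).to_subtype
    have h1 : H N ≤ AddCommGroup.torsion Γ :=
      (AddSubgroup.closure_le _).2 (by rintro _ ⟨i, -, rfl⟩; exact (τ i).2.2)
    exact AddCommGroup.finite_of_fg_isAddTorsion _ fun γ =>
      (AddSubmonoid.isOfFinAddOrder_coe (H := (H N).toAddSubmonoid)).1 (h1 γ.2)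
  have up : ∀ N, ∃ M, c N < c M := fun N => by_contra fun hN => by
    refine Set.infinite_of_injective_forall_mem (f := fun i => (τ i).1) (s := H N)
      (Subtype.val_injective.comp τ.injective) (fun i => by_contra fun hi => (τ i).2.1 ?_)
      (Set.toFinite _)
    have h2 : c (i + 1) ≤ c N := (hm (le_max_left _ N)).trans
      ((hm (le_max_right _ _)).eq_of_not_lt fun h => hN ⟨_, h⟩).ge
    refine (hind.disjoint_biSup hi).eq_bot_of_le ((le_iSup_of_le (f := fun γ : H (i + 1) => A γ)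
      ⟨_, AddSubgroup.subset_closure ⟨i, Nat.lt_succ_self i, rfl⟩⟩ le_rfl).trans ?_)
    rw [iSup_subtype']
    exact h2
  choose f hf using up
  refine ⟨fun j => c (f^[j] 0), strictMono_nat_of_lt_succ fun j => ?_, fun j =>
    Submodule.finite_iSup fun γ : H (f^[j] 0) => A γ⟩
  rw [Function.iterate_succ_apply']
  exact hf _

end Ray

end Pool.Agent.P.MP_d0ec72_al.Nw
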