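import Pool.Agent.P.MP_d0ec72_al.ODer

/-! The twisted self-similar Lie algebra of derivations in prime characteristic `r + 2`. -/

namespace Pool.Agent.P.MP_d0ec72_al.Odd

open Module

variable {k K : Type*} [Field k] [Field K] [Algebra k K]

/-- A purely inseparable tower with independent generators. -/
structure Tow (k K : Type*) [Field k] [Field K] [Algebra k K] (r : ℕ) where
  prime : (r + 2).Prime
  char : CharP K (r + 2)
  pw : Pw k K (r + 2)
  x : ℕ → K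
  nmem : ∀ n, x n ∉ kap k x n
  top : Algebra.adjoin k (Set.range x) = ⊤

theorem smul_lie' (a : K) (D E : Derivation k K K) : ⁅a • D, E⁆ = a • ⁅D, E⁆ - E a • D := by
  ext z
  simp only [Derivation.commutator_apply, Derivation.smul_apply, Derivation.sub_apply,
    Derivation.leibniz, smul_eq_mul]
  ring

theorem lie_smul' (a : K) (D E : Derivation k K K) : ⁅D, a • E⁆ = a • ⁅D, E⁆ + D a • E := by
  ext z
  simp only [Derivation.commutator_apply, Derivation.smul_apply, Derivation.add_apply,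
    Derivation.leibniz, smul_eq_mul]
  ring

/-- Evaluation of derivations. -/
def ev (k : Type*) {K : Type*} [Field k] [Field K] [Algebra k K] (z : K) :
    Derivation k K K →ₗ[K] K := ⟨⟨fun D => D z, fun _ _ => rfl⟩, fun _ _ => rfl⟩

namespace Tow

variable {r : ℕ} (w : Tow k K r)

/-- The fields of the tower. -/
abbrev κ (n : ℕ) : Subalgebra k K := kap k w.x n

theorem mono {m n : ℕ} (h : m ≤ n) : w.κ m ≤ w.κ n := kap_mono _ h

theorem xm {m n : ℕ} (h : m < n) : w.x m ∈ w.κ n := mem_kap _ h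

theorem ind (n : ℕ) : Ind (w.κ n) (w.x n) (r + 2) :=
  have := w.char
  have := Fact.mk w.prime
  w.pw.ind _ (w.nmem n)

theorem fil (n : ℕ) {z : K} (hz : z ∈ w.κ (n + 1)) :
    z ∈ Fil (Subalgebra.toSubmodule (w.κ n)) (w.x n) 0 (r + 2) :=
  kap_Fil _ n (by omega) (w.pw _) hz

include w in
theorem inv (A : Subalgebra k K) {z : K} (hz : z ∈ A) : z⁻¹ ∈ A := w.pw.inv_mem (by omega) A hz

theorem fin (n : ℕ) : Module.Finite k (w.κ n) := kap_fin (by omega) w.pw _ n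

theorem x_ne (n : ℕ) : w.x n ≠ 0 := fun h => w.nmem n (h ▸ Subalgebra.zero_mem _)

include w in
theorem cast_ne {i : ℕ} (hi : i < r + 1) : ((i + 1 : ℕ) : K) ≠ 0 := by
  have := w.char
  rw [Ne, CharP.cast_eq_zero_iff K (r + 2)]
  exact Nat.not_dvd_of_pos_of_lt (by omega) (by omega)

theorem exκ (z : K) : ∃ n, z ∈ w.κ n := exists_kap _ (by rw [w.top]; trivial)

/-- Values. -/
def e (n : ℕ) : Derivation k K K →ₗ[K] K := ev k (w.x (n + 2))

/-- Coefficients. -/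
def f (n : ℕ) : Derivation k K K →ₗ[K] K := w.e (n + 1) - w.x (n + 1) ^ (r + 1) • w.e n

theorem e_apply (n : ℕ) (D : Derivation k K K) : w.e n D = D (w.x (n + 2)) := rfl

theorem es (n : ℕ) (D : Derivation k K K) :
    w.e (n + 1) D = w.f n D + w.x (n + 1) ^ (r + 1) * w.e n D := by
  simp [f]

/-- The multiplier of the product rule. -/
def θ (n : ℕ) : K := ((r + 1 : ℕ) : K) * w.x (n + 2) ^ r

theorem θ_ne (n : ℕ) : w.θ n ≠ 0 :=
  mul_ne_zero (w.cast_ne (Nat.lt_succ_self r)) (pow_ne_zero _ (w.x_ne _))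

theorem θ_κ (n : ℕ) : w.θ n ∈ w.κ (n + 3) :=
  Subalgebra.mul_mem _ (natCast_mem _ _) (Subalgebra.pow_mem _ (w.xm (by omega)) _)

theorem f_lie (n : ℕ) (D E : Derivation k K K) :
    w.f (n + 1) ⁅D, E⁆ = D (w.f (n + 1) E) - E (w.f (n + 1) D) +
      w.θ n * (w.e n D * w.f n E - w.e n E * w.f n D) := by
  simp only [f, θ, LinearMap.sub_apply, LinearMap.smul_apply, e_apply,
    Derivation.commutator_apply, map_sub, Derivation.leibniz, Derivation.leibniz_pow, smul_eq_mul,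
    nsmul_eq_mul, Nat.add_sub_cancel]
  ring

/-- The filtration by the top level. -/
def F (n : ℕ) : Submodule K (Derivation k K K) where
  carrier := {D | (∀ i, i < 3 → D (w.x i) = 0) ∧ ∀ m, n ≤ m → w.f m D = 0}
  add_mem' ha hb := ⟨fun i hi => by simp [ha.1 i hi, hb.1 i hi],
    fun m hm => by rw [map_add, ha.2 m hm, hb.2 m hm, add_zero]⟩
  zero_mem' := ⟨fun _ _ => rfl, fun _ _ => map_zero _⟩
  smul_mem' c D hD := ⟨fun i hi => by simp [hD.1 i hi],
    fun m hm => by rw [map_smul, hD.2 m hm, smul_zero]⟩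

theorem F_mono : Monotone w.F := fun _ _ h _ hD => ⟨hD.1, fun m hm => hD.2 m (h.trans hm)⟩

theorem F_down {n : ℕ} {D : Derivation k K K} (hD : D ∈ w.F (n + 1)) (h0 : w.f n D = 0) :
    D ∈ w.F n := ⟨hD.1, fun m hm => by
  rcases hm.eq_or_lt with rfl | h
  · exact h0
  · exact hD.2 m h⟩

theorem kill {D : Derivation k K K} (hD : ∀ i, i < 3 → D (w.x i) = 0) {m : ℕ}
    (h : ∀ i, i < m → w.f i D = 0) {z : K} (hz : z ∈ w.κ (m + 3)) : D z = 0 := by
  have h1 : ∀ i, i ≤ m → w.e i D = 0 := by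
    intro i
    induction i with
    | zero => exact fun _ => hD 2 (by omega)
    | succ i ih => intro hi; rw [w.es, h i (by omega), ih (by omega)]; simp
  refine der_kap_zero _ D _ (fun i hi => ?_) hz
  rcases lt_or_ge i 3 with h3 | h3
  · exact hD i h3
  · obtain ⟨i, rfl⟩ : ∃ i', i = i' + 2 := ⟨i - 2, by omega⟩
    exact h1 i (by omega)

theorem F_zero {D : Derivation k K K} (hD : D ∈ w.F 0) : D = 0 := by
  ext z
  obtain ⟨n, hn⟩ := w.exκ z
  exact w.kill hD.1 (m := n) (fun i _ => hD.2 i (Nat.zero_le i)) (w.mono (by omega) hn)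

theorem ext_f {n : ℕ} {D E : Derivation k K K} (hD : D ∈ w.F n) (hE : E ∈ w.F n)
    (h : ∀ m, m < n → w.f m D = w.f m E) : D = E := by
  have h1 := (w.F n).sub_mem hD hE
  refine sub_eq_zero.1 (w.F_zero ⟨h1.1, fun m _ => ?_⟩)
  rcases lt_or_ge m n with hm | hm
  · rw [map_sub, h m hm, sub_self]
  · exact h1.2 m hm

theorem level {D : Derivation k K K} (h0 : D ≠ 0) :
    ∀ n, D ∈ w.F n → ∃ m, m < n ∧ D ∈ w.F (m + 1) ∧ w.f m D ≠ 0
  | 0, h => absurd (w.F_zero h) h0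
  | n + 1, h => by
    by_cases hf : w.f n D = 0
    · obtain ⟨m, hm, h'⟩ := level h0 n (w.F_down h hf)
      exact ⟨m, by omega, h'⟩
    · exact ⟨n, by omega, h, hf⟩

theorem f_kill {D : Derivation k K K} {m : ℕ} (h : ∀ z ∈ w.κ (m + 3), D z = 0) {i : ℕ}
    (hi : i < m) : w.f i D = 0 := by
  simp [f, e_apply, h _ (w.xm (by omega : i + 1 + 2 < m + 3)), h _ (w.xm (by omega : i + 2 < m + 3))]

theorem lie_base {D E : Derivation k K K} (hD : ∀ i, i < 3 → D (w.x i) = 0)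
    (hE : ∀ i, i < 3 → E (w.x i) = 0) : ∀ i, i < 3 → ⁅D, E⁆ (w.x i) = 0 := fun i hi => by
  simp [Derivation.commutator_apply, hD i hi, hE i hi]

theorem f0_lie {D E : Derivation k K K} (hD : ∀ i, i < 3 → D (w.x i) = 0)
    (hE : ∀ i, i < 3 → E (w.x i) = 0) : w.f 0 ⁅D, E⁆ = D (w.f 0 E) - E (w.f 0 D) := by
  simp [f, e_apply, Derivation.commutator_apply, hD 2 (by omega), hE 2 (by omega)]

theorem lie_F {n : ℕ} {D E : Derivation k K K} (hD : D ∈ w.F n) (hE : E ∈ w.F n) :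
    ⁅D, E⁆ ∈ w.F (n + 1) := ⟨w.lie_base hD.1 hE.1, fun m hm => by
  obtain ⟨m, rfl⟩ : ∃ m', m = m' + 1 := ⟨m - 1, by omega⟩
  rw [w.f_lie, hD.2 m (by omega), hE.2 m (by omega), hD.2 (m + 1) (by omega),
    hE.2 (m + 1) (by omega)]
  simp⟩

theorem top_lie {n : ℕ} {D E : Derivation k K K} (hD : D ∈ w.F n) (hE : E ∈ w.F (n + 1)) :
    w.f (n + 1) ⁅D, E⁆ = w.θ n * (w.e n D * w.f n E) := by
  rw [w.f_lie, hD.2 n le_rfl, hD.2 (n + 1) (by omega), hE.2 (n + 1) le_rfl]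
  simp

theorem e_ratio {n : ℕ} {D E : Derivation k K K} (hD : D ∈ w.F n) (hE : E ∈ w.F n) {a : K}
    (h : w.e n D = a * w.e n E) {m : ℕ} (hm : n ≤ m) : w.e m D = a * w.e m E := by
  induction m, hm using Nat.le_induction with
  | base => exact h
  | succ m hm ih => rw [w.es, w.es, hD.2 m hm, hE.2 m hm, ih]; ring

theorem null_lie {n N : ℕ} {B E : Derivation k K K} (hB : B ∈ w.F n) (h0 : w.e n B = 0)
    (hE : E ∈ w.F (N + 1)) (hn : n ≤ N) : ⁅B, E⁆ ∈ w.F (N + 1) := by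
  refine w.F_down (w.lie_F (w.F_mono (by omega) hB) hE) ?_
  rw [w.top_lie (w.F_mono hn hB) hE,
    w.e_ratio hB hB (a := 0) (by simpa using h0) hn]
  simp

theorem exists_v (n : ℕ) : ∃ D ∈ w.F (n + 1), ∀ m, w.f m D = if m = n then 1 else 0 := by
  classical
  have := w.char
  have := Fact.mk w.prime
  let a : ℕ → K := fun m =>
    Nat.rec 0 (fun j s => (if j = n then 1 else 0) + w.x (j + 1) ^ (r + 1) * s) m
  obtain ⟨D, hD⟩ := exists_der w.pw w.x w.nmem w.top fun m => a (m - 2)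
  have hc : ∀ m, w.f m D = if m = n then 1 else 0 := by
    intro m
    simp only [f, LinearMap.sub_apply, LinearMap.smul_apply, e_apply, hD, smul_eq_mul]
    change (if m = n then 1 else 0) + w.x (m + 1) ^ (r + 1) * a m - w.x (m + 1) ^ (r + 1) * a m = _
    ring
  refine ⟨D, ⟨fun i hi => ?_, fun m hm => by rw [hc, if_neg (by omega)]⟩, hc⟩
  rw [hD, show i - 2 = 0 by omega]; rfl

/-- The basic derivations. -/
noncomputable def v (n : ℕ) : Derivation k K K := (w.exists_v n).choose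

theorem v_F (n : ℕ) : w.v n ∈ w.F (n + 1) := (w.exists_v n).choose_spec.1

theorem f_v (n m : ℕ) : w.f m (w.v n) = if m = n then 1 else 0 := (w.exists_v n).choose_spec.2 m

theorem v_kill (n : ℕ) {z : K} (hz : z ∈ w.κ (n + 3)) : w.v n z = 0 :=
  w.kill (w.v_F n).1 (fun i hi => by rw [w.f_v, if_neg hi.ne]) hz

theorem e_v0 (n : ℕ) : w.e n (w.v n) = 0 := w.v_kill n (w.xm (by omega))

theorem e_v1 (n : ℕ) : w.e (n + 1) (w.v n) = 1 := by rw [w.es, w.f_v, w.e_v0]; simp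

theorem e_v2 (n : ℕ) : w.e (n + 2) (w.v n) = w.x (n + 2) ^ (r + 1) := by
  rw [w.es, w.f_v, w.e_v1]; simp

theorem pure_ind (M : Submodule k (Derivation k K K)) :
    ∀ n, ∀ D ∈ w.F n, (∀ m, m < n → w.f m D • w.v m ∈ M) → D ∈ M
  | 0, D, hD, _ => by rw [w.F_zero hD]; exact M.zero_mem
  | n + 1, D, hD, h => by
    have h1 := pure_ind M n (D - w.f n D • w.v n) (w.F_down ((w.F _).sub_mem hD
      ((w.F _).smul_mem _ (w.v_F n))) (by simp [w.f_v])) fun m hm => by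
        simpa [w.f_v, hm.ne] using h m (by omega)
    simpa using M.add_mem h1 (h n (by omega))

/-- Polynomials of degree at most `r` in one variable. -/
abbrev V (n : ℕ) : Submodule k K := Fil (Subalgebra.toSubmodule (w.κ n)) (w.x n) 0 (r + 1)

/-- The allowed coefficients. -/
abbrev A (n : ℕ) : Submodule k K := Fil (w.V n) (w.x (n + 1)) 0 (r + 1)

theorem V_κ (n : ℕ) : w.V n ≤ Subalgebra.toSubmodule (w.κ (n + 1)) :=
  Fil_le fun _ ha i _ _ => Subalgebra.mul_mem _ (w.mono (Nat.le_succ n) ha)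
    (Subalgebra.pow_mem _ (w.xm (Nat.lt_succ_self n)) i)

theorem A_V (n : ℕ) : w.A n ≤ w.V (n + 1) := Fil_mono (w.V_κ n) le_rfl le_rfl

theorem A_κ (n : ℕ) {a : K} (ha : a ∈ w.A n) : a ∈ w.κ (n + 2) := w.V_κ _ (w.A_V n ha)

theorem V_mul (n : ℕ) {b a : K} (hb : b ∈ w.κ n) (ha : a ∈ w.V n) : b * a ∈ w.V n :=
  Fil_mul (fun _ hc => Subalgebra.mul_mem _ hb hc) ha

theorem A_mul (n : ℕ) {b a : K} (hb : b ∈ w.κ n) (ha : a ∈ w.A n) : b * a ∈ w.A n :=
  Fil_mul (fun _ hc => w.V_mul n hb hc) ha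

theorem κ_V (n : ℕ) {a : K} (ha : a ∈ w.κ n) : a ∈ w.V n := by
  simpa using Fil_mem (C := Subalgebra.toSubmodule (w.κ n)) (x := w.x n) ha (le_refl 0)
    (by omega : 0 < r + 1)

theorem V_A (n : ℕ) {a : K} (ha : a ∈ w.V n) : a ∈ w.A n := by
  simpa using Fil_mem (x := w.x (n + 1)) ha (le_refl 0) (by omega : 0 < r + 1)

theorem e_κ {D : Derivation k K K} (hD : ∀ i, i < 3 → D (w.x i) = 0) {N : ℕ}
    (h : ∀ m, w.f m D ∈ w.κ (max N (m + 2))) : ∀ n, w.e n D ∈ w.κ (max N (n + 1))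
  | 0 => by rw [e_apply, hD _ (by omega)]; exact Subalgebra.zero_mem _
  | n + 1 => by
    rw [w.es]
    exact Subalgebra.add_mem _ (h n) (Subalgebra.mul_mem _
      (Subalgebra.pow_mem _ (w.xm (by omega)) _) (w.mono (by omega) (e_κ hD h n)))

theorem pres_κ {D : Derivation k K K} (hD : ∀ i, i < 3 → D (w.x i) = 0) {N : ℕ}
    (h : ∀ m, w.f m D ∈ w.κ (max N (m + 2))) {n : ℕ} (hn : N ≤ n) {z : K} (hz : z ∈ w.κ n) :
    D z ∈ w.κ n := by
  refine der_kap _ D n _ le_rfl (fun i hi => ?_) hz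
  rcases lt_or_ge i 3 with h3 | h3
  · rw [hD i h3]; exact Subalgebra.zero_mem _
  · obtain ⟨i, rfl⟩ : ∃ i', i = i' + 2 := ⟨i - 2, by omega⟩
    exact w.mono (by omega) (w.e_κ hD h i)

/-- The defining conditions. -/
def Good (D : Derivation k K K) : Prop := (∃ n, D ∈ w.F n) ∧ ∀ m, w.f m D ∈ w.A m

variable {w} in
theorem Good.base {D : Derivation k K K} (h : w.Good D) : ∀ i, i < 3 → D (w.x i) = 0 :=
  h.1.choose_spec.1

variable {w} in
theorem Good.fκ {D : Derivation k K K} (h : w.Good D) (N m : ℕ) :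
    w.f m D ∈ w.κ (max N (m + 2)) := w.mono (le_max_right _ _) (w.A_κ m (h.2 m))

variable {w} in
theorem Good.eκ {D : Derivation k K K} (h : w.Good D) (n : ℕ) : w.e n D ∈ w.κ (n + 1) := by
  simpa using w.e_κ h.base (h.fκ 0) n

variable {w} in
theorem Good.pres {D : Derivation k K K} (h : w.Good D) (n : ℕ) {z : K} (hz : z ∈ w.κ n) :
    D z ∈ w.κ n := w.pres_κ h.base (h.fκ 0) (Nat.zero_le n) hz

variable {w} in
theorem Good.val {D : Derivation k K K} (h : w.Good D) : ∀ m, D (w.x (m + 1)) ∈ w.κ m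
  | 0 => by rw [h.base _ (by omega)]; exact Subalgebra.zero_mem _
  | m + 1 => h.eκ m

variable {w} in
theorem Good.val' {D : Derivation k K K} (h : w.Good D) : ∀ m, D (w.x m) ∈ w.κ m
  | 0 => by rw [h.base _ (by omega)]; exact Subalgebra.zero_mem _
  | m + 1 => w.mono (Nat.le_succ m) (h.val m)

variable {w} in
theorem Good.presA {D : Derivation k K K} (h : w.Good D) (n : ℕ) {z : K} (hz : z ∈ w.A n) :
    D z ∈ w.A n :=
  der_Fil D (fun _ ha => der_Fil D (fun _ hb => h.pres n hb)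
    (fun _ hb => Subalgebra.mul_mem _ hb (h.val' n)) ha)
    (fun a ha => by rw [mul_comm]; exact w.V_mul n (h.val n) ha) hz

theorem θ_A (n : ℕ) {a : K} (ha : a ∈ w.V (n + 1)) : w.θ n * a ∈ w.A (n + 1) := by
  have : (((r + 1 : ℕ) : K) * a) * w.x (n + 2) ^ r ∈ w.A (n + 1) :=
    Fil_mem (w.V_mul _ (natCast_mem _ _) ha) (Nat.zero_le _) (by omega)
  rwa [mul_right_comm] at this

variable {w} in
theorem Good.lie {D E : Derivation k K K} (hD : w.Good D) (hE : w.Good E) : w.Good ⁅D, E⁆ := by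
  obtain ⟨i, hi⟩ := hD.1
  obtain ⟨j, hj⟩ := hE.1
  refine ⟨⟨_, w.lie_F (w.F_mono (le_max_left i j) hi) (w.F_mono (le_max_right i j) hj)⟩,
    fun m => ?_⟩
  cases m with
  | zero =>
    rw [w.f0_lie hD.base hE.base]
    exact Submodule.sub_mem _ (hD.presA _ (hE.2 _)) (hE.presA _ (hD.2 _))
  | succ n =>
    rw [w.f_lie]
    exact Submodule.add_mem _ (Submodule.sub_mem _ (hD.presA _ (hE.2 _)) (hE.presA _ (hD.2 _)))
      (w.θ_A n (Submodule.sub_mem _ (w.V_mul _ (hD.eκ n) (w.A_V n (hE.2 n)))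
        (w.V_mul _ (hE.eκ n) (w.A_V n (hD.2 n)))))

/-- The twisted algebra. -/
def LL : LieSubalgebra k (Derivation k K K) where
  carrier := {D | w.Good D}
  add_mem' := by
    rintro D E ⟨⟨i, hi⟩, hD⟩ ⟨⟨j, hj⟩, hE⟩
    exact ⟨⟨_, (w.F _).add_mem (w.F_mono (le_max_left i j) hi) (w.F_mono (le_max_right i j) hj)⟩,
      fun m => by rw [map_add]; exact Submodule.add_mem _ (hD m) (hE m)⟩
  zero_mem' := ⟨⟨0, (w.F 0).zero_mem⟩, fun m => by rw [map_zero]; exact Submodule.zero_mem _⟩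
  smul_mem' := by
    rintro c D ⟨⟨i, hi⟩, hD⟩
    exact ⟨⟨i, (w.F i).smul_of_tower_mem c hi⟩,
      fun m => by rw [LinearMap.map_smul_of_tower]; exact Submodule.smul_mem _ c (hD m)⟩
  lie_mem' hD hE := Good.lie hD hE

theorem pure_good {m : ℕ} {a : K} (ha : a ∈ w.A m) : w.Good (a • w.v m) :=
  ⟨⟨_, (w.F _).smul_mem a (w.v_F m)⟩, fun i => by
    rw [map_smul, w.f_v, smul_eq_mul]
    split_ifs with h
    · rw [mul_one, h]; exact ha
    · rw [mul_zero]; exact Submodule.zero_mem _⟩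

theorem one_A (m : ℕ) : (1 : K) ∈ w.A m := w.V_A m (w.κ_V m (Subalgebra.one_mem _))

theorem v_good (m : ℕ) : w.Good (w.v m) := by simpa using w.pure_good (w.one_A m)

variable {w} in
theorem Good.inj {D : Derivation k K K} (h : w.Good D) : ∀ n, D ∈ w.F n → w.e n D = 0 → D = 0
  | 0, hD, _ => w.F_zero hD
  | n + 1, hD, h0 => by
    rw [w.es] at h0
    have h1 := top_zero (w.ind (n + 1)) (by omega) (w.A_V n (h.2 n)) (h.eκ n) h0
    rw [h1, mul_zero, add_zero] at h0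
    exact h.inj n (w.F_down hD h0) h1

variable {w} in
theorem Good.top_ne {D E : Derivation k K K} (h : w.Good D) (h0 : D ≠ 0) {n : ℕ}
    (hD : D ∈ w.F n) (hE : E ∈ w.F (n + 1)) (hE0 : w.f n E ≠ 0) : w.f (n + 1) ⁅D, E⁆ ≠ 0 := by
  rw [w.top_lie hD hE]
  exact mul_ne_zero (w.θ_ne n) (mul_ne_zero (fun e => h0 (h.inj n hD e)) hE0)

/-- Elements of bounded level with coefficients in a fixed field. -/
def Old (N n : ℕ) : Submodule k (Derivation k K K) where
  carrier := {D | D ∈ w.F n ∧ ∀ m, w.f m D ∈ w.κ N}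
  add_mem' ha hb := ⟨(w.F n).add_mem ha.1 hb.1,
    fun m => by rw [map_add]; exact Subalgebra.add_mem _ (ha.2 m) (hb.2 m)⟩
  zero_mem' := ⟨(w.F n).zero_mem, fun m => by rw [map_zero]; exact Subalgebra.zero_mem _⟩
  smul_mem' c D hD := ⟨(w.F n).smul_of_tower_mem c hD.1,
    fun m => by rw [LinearMap.map_smul_of_tower]; exact Subalgebra.smul_mem _ (hD.2 m) c⟩

theorem Old_smul {N n : ℕ} {a : K} (ha : a ∈ w.κ N) {D : Derivation k K K} (hD : D ∈ w.Old N n) :
    a • D ∈ w.Old N n := ⟨(w.F n).smul_mem a hD.1,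
  fun m => by rw [map_smul]; exact Subalgebra.mul_mem _ ha (hD.2 m)⟩

theorem Old_mono {N n N' n' : ℕ} (h : N ≤ N') (h' : n ≤ n') : w.Old N n ≤ w.Old N' n' :=
  fun _ hD => ⟨w.F_mono h' hD.1, fun m => w.mono h (hD.2 m)⟩

variable {w} in
theorem Good.old {D : Derivation k K K} (h : w.Good D) {n : ℕ} (hD : D ∈ w.F n) :
    D ∈ w.Old (n + 1) n := ⟨hD, fun m => by
  rcases lt_or_ge m n with hm | hm
  · exact w.mono (by omega) (w.A_κ m (h.2 m))
  · rw [hD.2 m hm]; exact Subalgebra.zero_mem _⟩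

theorem Old_fg (N n : ℕ) : (w.Old N n).FG := by
  have := w.fin N
  let φ : w.Old N n →ₗ[k] (Fin n → w.κ N) := LinearMap.pi fun i =>
    ((((w.f i).restrictScalars k).domRestrict (w.Old N n)).codRestrict
      (Subalgebra.toSubmodule (w.κ N)) fun D => D.2.2 i)
  refine Module.Finite.iff_fg.1 (Module.Finite.of_injective φ ?_)
  rw [injective_iff_map_eq_zero]
  intro D hD
  refine Subtype.ext (w.ext_f D.2.1 (w.F n).zero_mem fun m hm => ?_)
  exact (congrArg Subtype.val (congrFun hD ⟨m, hm⟩)).trans (map_zero (w.f m)).symm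

theorem Old_lie {N n : ℕ} (hN : n + 2 ≤ N) {D E : Derivation k K K} (hD : D ∈ w.Old N (n + 1))
    (hE : E ∈ w.Old N (n + 1)) (h : ⁅D, E⁆ ∈ w.F (n + 1)) : ⁅D, E⁆ ∈ w.Old N (n + 1) := by
  have hD' : ∀ m, w.f m D ∈ w.κ (max N (m + 2)) := fun m => w.mono (le_max_left _ _) (hD.2 m)
  have hE' : ∀ m, w.f m E ∈ w.κ (max N (m + 2)) := fun m => w.mono (le_max_left _ _) (hE.2 m)
  refine ⟨h, fun m => ?_⟩
  rcases lt_or_ge n m with hm | hm
  · rw [h.2 m hm]; exact Subalgebra.zero_mem _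
  cases m with
  | zero =>
    rw [w.f0_lie hD.1.1 hE.1.1]
    exact Subalgebra.sub_mem _ (w.pres_κ hD.1.1 hD' le_rfl (hE.2 _))
      (w.pres_κ hE.1.1 hE' le_rfl (hD.2 _))
  | succ m =>
    rw [w.f_lie]
    exact Subalgebra.add_mem _ (Subalgebra.sub_mem _ (w.pres_κ hD.1.1 hD' le_rfl (hE.2 _))
      (w.pres_κ hE.1.1 hE' le_rfl (hD.2 _))) (Subalgebra.mul_mem _ (w.mono (by omega) (w.θ_κ m))
      (Subalgebra.sub_mem _
        (Subalgebra.mul_mem _ (w.mono (by omega) (w.e_κ hD.1.1 hD' m)) (hE.2 m))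
        (Subalgebra.mul_mem _ (w.mono (by omega) (w.e_κ hE.1.1 hE' m)) (hD.2 m))))

theorem const_down (m : ℕ) {z : K} (hz : z ∈ w.κ (m + 4)) (h : w.v m z = 0) : z ∈ w.κ (m + 3) := by
  obtain ⟨a, ha, rfl⟩ := Fil_repr (w.fil (m + 3) hz)
  have h1 : w.v m (w.x (m + 3)) = 1 := w.e_v1 m
  have h2 : ∀ i, w.v m (a i) = 0 := fun i => w.v_kill m (ha i)
  rw [Finset.sum_range_succ', map_add, map_sum] at h
  simp only [Derivation.leibniz, Derivation.leibniz_pow, h1, h2, smul_eq_mul, nsmul_eq_mul,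
    mul_one, mul_zero, zero_mul, add_zero, Nat.add_sub_cancel, Nat.cast_zero, ← mul_assoc] at h
  have h3 : ∀ i, i < r + 1 → a (i + 1) = 0 := fun i hi =>
    (mul_eq_zero.1 (sum_zero (w.ind (m + 3)) (by omega) (a := fun i => a (i + 1) * (i + 1 : ℕ))
      (fun i => Subalgebra.mul_mem _ (ha _) (natCast_mem _ _)) h hi)).resolve_right (w.cast_ne hi)
  rw [Finset.sum_range_succ', Finset.sum_eq_zero fun i hi => by
    rw [h3 i (Finset.mem_range.1 hi), zero_mul]]
  simpa using ha 0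

end Tow

end Pool.Agent.P.MP_d0ec72_al.Odd
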