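import Pool.Agent.P.MP_d0ec72_al.OGen

/-! The centroid of a subalgebra of the twisted algebra. -/

namespace Pool.Agent.P.MP_d0ec72_al.Odd

open Module

variable {k K : Type*} [Field k] [Field K] [Algebra k K]

namespace Tow

variable {r : ℕ} (w : Tow k K r)

/-- Derivations killing a field of the tower. -/
def Kl (M : ℕ) : Submodule K (Derivation k K K) where
  carrier := {D | ∀ z ∈ w.κ M, D z = 0}
  add_mem' ha hb z hz := by simp [ha z hz, hb z hz]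
  zero_mem' _ _ := rfl
  smul_mem' c D hD z hz := by simp [hD z hz]

theorem Kl_anti {M N : ℕ} (h : M ≤ N) : w.Kl N ≤ w.Kl M := fun _ hD z hz => hD z (w.mono h hz)

theorem Kl_lie {M : ℕ} {D E : Derivation k K K} (hD : w.Good D) (hE : E ∈ w.Kl M) :
    ⁅D, E⁆ ∈ w.Kl M := fun z hz => by
  simp [Derivation.commutator_apply, hE z hz, hE _ (hD.pres M hz)]

/-- The elements of `H` killing a field of the tower. -/
def O (H : LieSubalgebra k (Derivation k K K)) (M : ℕ) : Submodule k (Derivation k K K) :=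
  H.toSubmodule ⊓ (w.Kl M).restrictScalars k

theorem fg_F {B : Submodule k (Derivation k K K)} (hB : B.FG) (h : ∀ D ∈ B, w.Good D) :
    ∃ n, ∀ D ∈ B, D ∈ w.F n := by
  obtain ⟨t, rfl⟩ := hB
  have : ∀ D : t, ∃ n, (D : Derivation k K K) ∈ w.F n := fun D =>
    (h D (Submodule.subset_span D.2)).1
  choose g hg using this
  refine ⟨Finset.univ.sup g, fun D hD => ?_⟩
  refine (Submodule.span_le (p := (w.F _).restrictScalars k)).2 (fun E hE => ?_) hD
  exact w.F_mono (Finset.le_sup (f := g) (Finset.mem_univ ⟨E, hE⟩)) (hg ⟨E, hE⟩)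

/-- Subalgebras of the twisted algebra of unbounded level. -/
structure Big (H : LieSubalgebra k (Derivation k K K)) : Prop where
  good : ∀ D ∈ H, w.Good D
  unb : ∀ n, ∃ X ∈ H, X ∉ w.F n

variable {w} {H : LieSubalgebra k (Derivation k K K)}

theorem Big.O_lie (h : w.Big H) {M : ℕ} {D E : Derivation k K K} (hD : D ∈ H)
    (hE : E ∈ w.O H M) : ⁅D, E⁆ ∈ w.O H M := ⟨H.lie_mem hD hE.1, w.Kl_lie (h.good D hD) hE.2⟩

theorem Big.cof (h : w.Big H) (M : ℕ) :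
    ∃ n, ∀ D ∈ H, ∃ E ∈ w.O H M, D - E ∈ w.F n := by
  let φ : Derivation k K K →ₗ[k] (Fin M → K) :=
    LinearMap.pi fun i => (ev k (w.x i)).restrictScalars k
  have hfg : (Submodule.pi Set.univ fun _ : Fin M => Subalgebra.toSubmodule (w.κ M)).FG :=
    Submodule.fg_pi fun _ => Module.Finite.iff_fg.1 (w.fin M)
  have := Module.Finite.iff_fg.2 hfg
  have hle : H.toSubmodule.map φ ≤
      Submodule.pi Set.univ fun _ : Fin M => Subalgebra.toSubmodule (w.κ M) := by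
    rintro _ ⟨D, hD, rfl⟩ i _
    exact (h.good D hD).pres M (w.xm i.2)
  obtain ⟨B, hB, hBH, hle'⟩ := cof_exists φ H.toSubmodule
    (Module.Finite.iff_fg.1 (Submodule.finiteDimensional_of_le hle))
  obtain ⟨n, hn⟩ := w.fg_F hB fun D hD => h.good D (hBH hD)
  refine ⟨n, fun D hD => ?_⟩
  obtain ⟨E, ⟨hE, hE0⟩, Y, hY, rfl⟩ := Submodule.mem_sup.1 (hle' hD)
  refine ⟨E, ⟨hE, fun z hz => der_kap_zero _ E M (fun m hm => congrFun hE0 ⟨m, hm⟩) hz⟩, ?_⟩
  simpa using hn Y hY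

theorem Big.hi (h : w.Big H) (M n : ℕ) :
    ∃ m, n ≤ m ∧ ∃ X ∈ w.O H M, X ∈ w.F (m + 1) ∧ w.f m X ≠ 0 := by
  obtain ⟨n1, h1⟩ := h.cof M
  obtain ⟨D, hD, hDF⟩ := h.unb (max n n1)
  obtain ⟨E, hE, hDE⟩ := h1 D hD
  have hEF : E ∉ w.F (max n n1) := fun hEF => hDF (by
    simpa using (w.F _).add_mem (w.F_mono (le_max_right n n1) hDE) hEF)
  obtain ⟨t, ht⟩ := (h.good E hE.1).1
  obtain ⟨m, -, hm, hm0⟩ := w.level (D := E) (fun e => hEF (by rw [e]; exact (w.F _).zero_mem)) t ht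
  refine ⟨m, ?_, E, hE, hm, hm0⟩
  by_contra hlt
  exact hEF (w.F_mono (by omega) hm)

theorem Big.prime1 (h : w.Big H) (M : ℕ) {A : Derivation k K K} (hA : A ∈ H) (hA0 : A ≠ 0) :
    ∃ X ∈ w.O H M, ⁅A, X⁆ ≠ 0 := by
  obtain ⟨i, hi⟩ := (h.good A hA).1
  obtain ⟨m, hm, X, hX, hXF, hX0⟩ := h.hi M i
  exact ⟨X, hX, fun e => (h.good A hA).top_ne hA0 (w.F_mono hm hi) hXF hX0 (by rw [e, map_zero])⟩

theorem Big.prime (h : w.Big H) (M : ℕ) {A B : Derivation k K K} (hA : A ∈ H) (hA0 : A ≠ 0)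
    (hB : B ∈ H) (hB0 : B ≠ 0) : ∃ X ∈ w.O H M, ⁅A, ⁅B, X⁆⁆ ≠ 0 := by
  obtain ⟨i, hi⟩ := (h.good A hA).1
  obtain ⟨j, hj⟩ := (h.good B hB).1
  obtain ⟨m, hm, X, hX, hXF, hX0⟩ := h.hi M (max i j)
  have hBF : B ∈ w.F m := w.F_mono (by omega) hj
  exact ⟨X, hX, fun e => (h.good A hA).top_ne hA0 (w.F_mono (by omega) hi)
    (w.lie_F (w.F_mono (by omega) hBF) hXF) ((h.good B hB).top_ne hB0 hBF hXF hX0)
    (by rw [e, map_zero])⟩

theorem mul_lie_r {c : K} {X E : Derivation k K K} (hX : X ∈ H) (hc : X c = 0) (hE : c • E ∈ H) :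
    c • ⁅X, E⁆ ∈ H := by
  simpa [lie_smul', hc] using H.lie_mem hX hE

theorem mul_lie_l {c : K} {X E : Derivation k K K} (hX : X ∈ H) (hc : X c = 0) (hE : c • E ∈ H) :
    c • ⁅E, X⁆ ∈ H := by
  simpa [smul_lie', hc] using H.lie_mem hE hX

theorem Big.two (h : w.Big H) (M : ℕ) {E E' : Derivation k K K} (hE : E ∈ w.O H M) (h0 : E ≠ 0)
    (hE' : E' ∈ w.O H M) (h0' : E' ≠ 0) : ∃ Z ∈ w.O H M, Z ≠ 0 ∧ ∀ c d : K,
      (∀ A ∈ w.O H M, A c = 0) → (∀ A ∈ w.O H M, A d = 0) → c • E ∈ H → d • E' ∈ H →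
      (c * d) • Z ∈ H := by
  obtain ⟨X, hX, hne⟩ := h.prime M hE.1 h0 hE'.1 h0'
  have hB := h.O_lie hE'.1 hX
  refine ⟨_, h.O_lie hE.1 hB, hne, fun c d hc hd h1 h2 => ?_⟩
  have := H.lie_mem h1 (mul_lie_l hX.1 (hd X hX) h2)
  rwa [lie_smul', smul_lie', hc _ hB, Derivation.smul_apply, hd _ hE, smul_zero, zero_smul,
    zero_smul, sub_zero, add_zero, smul_smul, mul_comm] at this

theorem Big.ex (h : w.Big H) (M : ℕ) : ∃ E ∈ w.O H M, E ≠ 0 := by
  obtain ⟨m, -, X, hX, -, hX0⟩ := h.hi M 0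
  exact ⟨X, hX, fun e => hX0 (by rw [e, map_zero])⟩

/-- The centroid. -/
def Big.Cen (h : w.Big H) (M : ℕ) : Subalgebra k K where
  carrier := {c | (∀ A ∈ w.O H M, A c = 0) ∧ ∃ E ∈ w.O H M, E ≠ 0 ∧ c • E ∈ H}
  mul_mem' := by
    rintro c d ⟨hc, E, hE, h0, h1⟩ ⟨hd, E', hE', h0', h2⟩
    obtain ⟨Z, hZ, hZ0, hZ'⟩ := h.two M hE h0 hE' h0'
    exact ⟨fun A hA => by simp [hc A hA, hd A hA], Z, hZ, hZ0, hZ' c d hc hd h1 h2⟩
  add_mem' := by
    rintro c d ⟨hc, E, hE, h0, h1⟩ ⟨hd, E', hE', h0', h2⟩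
    obtain ⟨Z, hZ, hZ0, hZ'⟩ := h.two M hE h0 hE' h0'
    refine ⟨fun A hA => by simp [hc A hA, hd A hA], Z, hZ, hZ0, ?_⟩
    rw [add_smul]
    exact H.add_mem (by simpa using hZ' c 1 hc (by simp) h1 (by simpa using hE'.1))
      (by simpa using hZ' 1 d (by simp) hd (by simpa using hE.1) h2)
  algebraMap_mem' c := by
    obtain ⟨E, hE, h0⟩ := h.ex M
    exact ⟨fun A _ => A.map_algebraMap c, E, hE, h0, by simpa using H.smul_mem c hE.1⟩

theorem Big.Cen_der (h : w.Big H) (M : ℕ) {D : Derivation k K K} (hD : D ∈ H) {c : K}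
    (hc : c ∈ h.Cen M) : D c ∈ h.Cen M := by
  obtain ⟨hc, E, hE, h0, h1⟩ := hc
  obtain ⟨X, hX, hne⟩ := h.prime M hE.1 h0 hE.1 h0
  have hB := h.O_lie hE.1 hX
  have h2 := mul_lie_l hX.1 (hc X hX) h1
  refine ⟨fun A hA => ?_, _, h.O_lie hE.1 hB, hne, ?_⟩
  · simpa [Derivation.commutator_apply, hc A hA] using hc _ (h.O_lie hD hA)
  · have h3 := H.lie_mem hD (mul_lie_l hB.1 (hc _ hB) h1)
    have h4 := mul_lie_r (h.O_lie hD hE).1 (hc _ (h.O_lie hD hE)) h2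
    have h5 := mul_lie_l (h.O_lie hD hB).1 (hc _ (h.O_lie hD hB)) h1
    rw [lie_smul', leibniz_lie D E, smul_add] at h3
    simpa using H.sub_mem h3 (H.add_mem h4 h5)

theorem Big.const_fin (h : w.Big H) {M n0 : ℕ}
    (hU : ∀ X, w.Good X → X ∈ KS (w.κ M) H.toSubmodule ⊔ w.Old M n0) :
    ∃ N, ∀ c, (∀ A ∈ w.O H M, A c = 0) → c ∈ w.κ N := by
  obtain ⟨n, hn⟩ := h.cof M
  obtain ⟨N, hN⟩ := cof_chain (S := KS (w.κ M) (w.O H M)) (w.Old_fg (max (n + 1) M) (max n n0))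
    (fun m => w.LL.toSubmodule ⊓ (w.Kl (m + 3)).restrictScalars k)
    (fun m => inf_le_inf_left _ fun _ hD => w.Kl_anti (by omega) hD) (fun X hX => by
      refine (sup_le (KS_le fun a ha D hD => ?_)
        (le_sup_of_le_right (w.Old_mono (by omega) (by omega)))) (hU X hX.1)
      obtain ⟨E, hE, hDE⟩ := hn D hD
      have := Submodule.add_mem_sup (KS_mem ha hE) (w.Old_smul (w.mono (le_max_right (n + 1) M) ha)
        (w.Old_mono (le_max_left _ _) (le_max_left n n0)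
          ((h.good _ (H.sub_mem hD hE.1)).old hDE)))
      simpa [smul_sub] using this)
  refine ⟨N + 3, fun c hc => ?_⟩
  have step : ∀ j, c ∈ w.κ (N + j + 3) → c ∈ w.κ (N + 3) := by
    intro j
    induction j with
    | zero => exact id
    | succ j ih =>
      intro hj
      refine ih (w.const_down _ hj ?_)
      obtain ⟨Y, hY, Z, hZ, e⟩ := Submodule.mem_sup.1 (hN (N + j) (by omega)
        ⟨w.v_good _, fun z hz => w.v_kill _ hz⟩)
      have h1 : Z c ∈ (⊥ : Submodule k K) := KS_val (ev k c)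
        (fun a _ b hb => by rw [(Submodule.mem_bot k).1 hb, mul_zero]; exact Submodule.zero_mem _)
        (fun E hE => hc E hE) hZ
      rw [← e, Derivation.add_apply, hY.2 c hj, (Submodule.mem_bot k).1 h1, add_zero]
  obtain ⟨t, ht⟩ := w.exκ c
  exact step t (w.mono (by omega) ht)

theorem Big.witness (h : w.Big H) {M N : ℕ} (hN : ∀ c, (∀ A ∈ w.O H M, A c = 0) → c ∈ w.κ N) :
    ∃ E ∈ w.O H M, E ≠ 0 ∧ ∀ c ∈ h.Cen M, c • E ∈ H := by
  classical
  have := w.fin N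
  have hle : Subalgebra.toSubmodule (h.Cen M) ≤ Subalgebra.toSubmodule (w.κ N) :=
    fun c hc => hN c hc.1
  have hf : Module.Finite k (Subalgebra.toSubmodule (w.κ N)) := this
  obtain ⟨t, ht⟩ := Module.Finite.iff_fg.1 (Submodule.finiteDimensional_of_le hle)
  have key : ∀ t : Finset K, (∀ c ∈ t, c ∈ h.Cen M) →
      ∃ E ∈ w.O H M, E ≠ 0 ∧ ∀ c ∈ t, c • E ∈ H := by
    intro t
    induction t using Finset.induction_on with
    | empty => intro _; obtain ⟨E, hE, h0⟩ := h.ex M; exact ⟨E, hE, h0, by simp⟩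
    | insert d t _ ih =>
      intro hh
      obtain ⟨E, hE, h0, h1⟩ := ih fun c hc => hh c (Finset.mem_insert_of_mem hc)
      obtain ⟨hd, E', hE', h0', h2⟩ := hh d (Finset.mem_insert_self d t)
      obtain ⟨Z, hZ, hZ0, hZ'⟩ := h.two M hE h0 hE' h0'
      refine ⟨Z, hZ, hZ0, fun c hc => ?_⟩
      rcases Finset.mem_insert.1 hc with rfl | hc'
      · simpa using hZ' 1 c (by simp) hd (by simpa using hE.1) h2
      · simpa using hZ' c 1 (hh c hc).1 (by simp) (h1 c hc') (by simpa using hE'.1)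
  obtain ⟨E, hE, h0, h1⟩ := key t fun c hc => by
    have : c ∈ Subalgebra.toSubmodule (h.Cen M) := ht ▸ Submodule.subset_span hc
    exact this
  refine ⟨E, hE, h0, fun c hc => ?_⟩
  have hc' : c ∈ Submodule.span k (t : Set K) := by rw [ht]; exact hc
  exact (Submodule.span_le (p := H.toSubmodule.comap
    ((LinearMap.toSpanSingleton K _ E).restrictScalars k))).2 h1 hc'

end Tow

end Pool.Agent.P.MP_d0ec72_al.Odd
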