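import Pool.Agent.P.MP_d0ec72_al.OFil

/-! Derivations with prescribed values on a purely inseparable tower, in any prime
characteristic, and residual nilpotence of triangular algebras of derivations. -/

namespace Pool.Agent.P.MP_d0ec72_al.Odd

open Module

variable {k K : Type*} [Field k] [Field K] [Algebra k K]

theorem kap_fin {p : ℕ} (hp : 0 < p) (h : Pw k K p) (x : ℕ → K) (n : ℕ) :
    Module.Finite k (kap k x n) :=
  Algebra.finite_adjoin_of_finite_of_isIntegral ((Set.finite_Iio n).image x) fun z _ => by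
    obtain ⟨c, hc⟩ := h z
    exact IsIntegral.of_pow hp (by rw [hc]; exact isIntegral_algebraMap)

theorem sum_zero {κ : Subalgebra k K} {x : K} {p l : ℕ} (h : Ind κ x p) (hl : l ≤ p)
    {a : ℕ → K} (ha : ∀ i, a i ∈ κ) (e : ∑ i ∈ Finset.range l, a i * x ^ i = 0) {j : ℕ}
    (hj : j < l) : a j = 0 := by
  obtain ⟨π, hπ⟩ := h
  have := congrArg (π j) e
  rw [map_sum, map_zero, Finset.sum_eq_single j] at this
  · rwa [hπ j j (by omega) _ (ha j), if_pos rfl] at this
  · intro i hi hij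
    rw [hπ j i (by have := Finset.mem_range.1 hi; omega) _ (ha i), if_neg hij.symm]
  · intro h; exact absurd (Finset.mem_range.2 hj) h

theorem top_zero {κ : Subalgebra k K} {x : K} {p q : ℕ} (h : Ind κ x p) (hq : q < p) {z a : K}
    (hz : z ∈ Fil (Subalgebra.toSubmodule κ) x 0 q) (ha : a ∈ κ) (e : z + x ^ q * a = 0) :
    a = 0 := by
  obtain ⟨π, hπ⟩ := h
  have h1 : π q z ∈ (⊥ : Submodule k K) := Fil_map (π q) (fun b hb i _ h2 => by
    rw [hπ q i (by omega) b hb, if_neg (by omega)]; exact Submodule.zero_mem _) hz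
  have := congrArg (π q) e
  rwa [map_add, (Submodule.mem_bot k).1 h1, zero_add, mul_comm, hπ q q hq a ha, if_pos rfl,
    map_zero] at this

open TrivSqZeroExt in
theorem exists_der {p : ℕ} [Fact p.Prime] [CharP K p] (h : Pw k K p) (x : ℕ → K)
    (hx : ∀ n, x n ∉ kap k x n) (htop : Algebra.adjoin k (Set.range x) = ⊤) (c : ℕ → K) :
    ∃ D : Derivation k K K, ∀ n, D (x n) = c n := by
  have hp : p.Prime := Fact.out
  let X : ℕ → TrivSqZeroExt K K := fun n => inl (x n) + inr (c n)
  let π : TrivSqZeroExt K K →ₐ[k] K := (fstHom k K K)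
  have hπX : ∀ n, π (X n) = x n := fun n => by simp [π, X]
  have hXX : ∀ n, ∃ r : k, X n ^ p = algebraMap k _ r := by
    intro n
    obtain ⟨r, hr⟩ := h (x n)
    refine ⟨r, ?_⟩
    ext
    · simp [X, hr, algebraMap_eq_inl']
    · simp [X, algebraMap_eq_inl', snd_pow]
  have hκ : ∀ n, ∀ z ∈ kap k X n, π z ∈ kap k x n := by
    intro n z hz
    have : (kap k X n).map π = kap k x n := by
      rw [kap, kap, AlgHom.map_adjoin, Set.image_image]
      simp only [hπX]
    rw [← this]; exact ⟨z, hz, rfl⟩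
  have hinj : ∀ n, ∀ z ∈ kap k X n, π z = 0 → z = 0 := by
    intro n
    induction n with
    | zero =>
      intro z hz e
      rw [kap_zero] at hz
      obtain ⟨r, rfl⟩ := Algebra.mem_bot.1 hz
      rw [AlgHom.commutes, map_eq_zero] at e
      simp [e]
    | succ n ih =>
      intro z hz e
      obtain ⟨a, ha, rfl⟩ := Fil_repr (kap_Fil X n hp.one_lt (hXX n) hz)
      refine Finset.sum_eq_zero fun i hi => ?_
      rw [ih _ (ha i) (sum_zero (h.ind _ (hx n)) le_rfl (a := fun i => π (a i))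
        (fun i => hκ n _ (ha i)) (by simpa [hπX] using e) (Finset.mem_range.1 hi)), zero_mul]
  let Γ := Algebra.adjoin k (Set.range X)
  let φ : Γ →ₐ[k] K := π.comp Γ.val
  have hφ : Function.Bijective φ := by
    constructor
    · rw [injective_iff_map_eq_zero]
      intro z e
      obtain ⟨n, hn⟩ := exists_kap X z.2
      exact Subtype.ext (hinj n _ hn e)
    · intro z
      have : Γ.map π = ⊤ := by
        rw [AlgHom.map_adjoin, ← Set.range_comp, ← htop]
        congr 2
        exact funext hπX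
      obtain ⟨u, hu, e⟩ : z ∈ Γ.map π := by rw [this]; trivial
      exact ⟨⟨u, hu⟩, e⟩
  let e := AlgEquiv.ofBijective φ hφ
  let s : K →ₐ[k] TrivSqZeroExt K K := Γ.val.comp e.symm.toAlgHom
  have hs : ∀ z, (s z).fst = z := fun z => e.apply_symm_apply z
  have hsx : ∀ n, s (x n) = X n := by
    intro n
    have : e ⟨X n, Algebra.subset_adjoin ⟨n, rfl⟩⟩ = x n := hπX n
    rw [← this]
    exact congrArg Subtype.val (e.symm_apply_apply _)
  refine ⟨Derivation.mk' ((sndHom K K).restrictScalars k ∘ₗ s.toLinearMap) ?_, ?_⟩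
  · intro a b
    simp [hs, mul_comm]
  · intro n
    simp [hsx, X]

theorem der_kap (x : ℕ → K) (D : Derivation k K K) (n : ℕ) (A : Subalgebra k K)
    (hA : kap k x n ≤ A) (h : ∀ m, m < n → D (x m) ∈ A) {z : K} (hz : z ∈ kap k x n) :
    D z ∈ A := by
  induction hz using Algebra.adjoin_induction with
  | mem z hz =>
    obtain ⟨m, hm, rfl⟩ := hz
    exact h m hm
  | algebraMap r => rw [Derivation.map_algebraMap]; exact Subalgebra.zero_mem _
  | add u v _ _ hu hv => rw [map_add]; exact Subalgebra.add_mem _ hu hv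
  | mul u v hu' hv' hu hv =>
    rw [Derivation.leibniz]
    exact Subalgebra.add_mem _ (Subalgebra.mul_mem _ (hA hu') hv)
      (Subalgebra.mul_mem _ (hA hv') hu)

theorem der_kap_zero (x : ℕ → K) (D : Derivation k K K) (n : ℕ)
    (h : ∀ m, m < n → D (x m) = 0) {z : K} (hz : z ∈ kap k x n) : D z = 0 := by
  induction hz using Algebra.adjoin_induction with
  | mem z hz =>
    obtain ⟨m, hm, rfl⟩ := hz
    exact h m hm
  | algebraMap r => rw [Derivation.map_algebraMap]
  | add u v _ _ hu hv => rw [map_add, hu, hv, add_zero]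
  | mul u v _ _ hu hv => rw [Derivation.leibniz, hu, hv]; simp

theorem der_Fil (D : Derivation k K K) {C : Submodule k K} {x : K} {l : ℕ}
    (h1 : ∀ a ∈ C, D a ∈ C) (h2 : ∀ a ∈ C, a * D x ∈ C) {z : K} (hz : z ∈ Fil C x 0 l) :
    D z ∈ Fil C x 0 l := by
  refine Fil_map D.toLinearMap (fun a ha i _ hi => ?_) hz
  have e : D (a * x ^ i) = (i : k) • (a * D x * x ^ (i - 1)) + D a * x ^ i := by
    rw [Derivation.leibniz, Derivation.leibniz_pow, Nat.cast_smul_eq_nsmul]
    simp only [smul_eq_mul, nsmul_eq_mul]; ring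
  change D _ ∈ _
  rw [e]
  exact Submodule.add_mem _ (Submodule.smul_mem _ _ (Fil_mem (h2 a ha) (Nat.zero_le _) (by omega)))
    (Fil_mem (h1 a ha) (Nat.zero_le _) hi)

section Nil

variable (S : LieSubalgebra k (Derivation k K K))

/-- Elements killed by all products of `s` derivations of the algebra. -/
def Nil : ℕ → Submodule k K
  | 0 => ⊥
  | s + 1 => ⨅ D : S, (Nil s).comap D.1.toLinearMap

theorem mem_Nil (s : ℕ) (z : K) : z ∈ Nil S (s + 1) ↔ ∀ D : S, D.1 z ∈ Nil S s := by
  simp [Nil, Submodule.mem_iInf]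

theorem Nil_succ : ∀ s, Nil S s ≤ Nil S (s + 1)
  | 0 => bot_le
  | s + 1 => fun z hz => (mem_Nil S _ z).2 fun D => Nil_succ s ((mem_Nil S _ z).1 hz D)

theorem Nil_mono : Monotone (Nil S) := monotone_nat_of_le_succ (Nil_succ S)

theorem Nil_mul : ∀ n i j, i + j = n → ∀ a ∈ Nil S i, ∀ b ∈ Nil S j, a * b ∈ Nil S n := by
  intro n
  induction n with
  | zero =>
    intro i j e a ha b _
    obtain rfl : i = 0 := by omega
    rw [(Submodule.mem_bot k).1 ha, zero_mul]; exact Submodule.zero_mem _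
  | succ n ih =>
    intro i j e a ha b hb
    rcases i with _ | i
    · rw [(Submodule.mem_bot k).1 ha, zero_mul]; exact Submodule.zero_mem _
    rcases j with _ | j
    · rw [(Submodule.mem_bot k).1 hb, mul_zero]; exact Submodule.zero_mem _
    rw [mem_Nil]
    intro D
    rw [Derivation.leibniz, smul_eq_mul, smul_eq_mul, mul_comm b]
    exact Submodule.add_mem _ (ih (i + 1) j (by omega) a ha _ ((mem_Nil S _ _).1 hb D))
      (ih i (j + 1) (by omega) _ ((mem_Nil S _ _).1 ha D) b hb)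

theorem kap_Nil {p : ℕ} (hp : 1 < p) (h : Pw k K p) (x : ℕ → K)
    (hS : ∀ D ∈ S, ∀ m, D (x m) ∈ kap k x m) : ∀ m, ∃ s, ∀ z ∈ kap k x m, z ∈ Nil S s
  | 0 => ⟨1, fun z hz => by
    rw [kap_zero] at hz
    obtain ⟨c, rfl⟩ := Algebra.mem_bot.1 hz
    rw [mem_Nil]
    intro D
    rw [Derivation.map_algebraMap]; exact zero_mem _⟩
  | m + 1 => by
    obtain ⟨s, hs⟩ := kap_Nil hp h x hS m
    have hx : x m ∈ Nil S (s + 1) := (mem_Nil S _ _).2 fun D => hs _ (hS D.1 D.2 m)
    have key : ∀ i, ∀ a ∈ kap k x m, a * x m ^ i ∈ Nil S (s + i * (s + 1)) := by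
      intro i a ha
      induction i with
      | zero => simpa using hs a ha
      | succ i ih =>
        rw [pow_succ, ← mul_assoc]
        exact Nil_mul S _ _ _ (by ring) _ ih _ hx
    refine ⟨s + p * (s + 1), fun z hz => ?_⟩
    refine Fil_le (fun a ha i _ hi => Nil_mono S ?_ (key i a ha)) (kap_Fil x m hp (h _) hz)
    exact Nat.add_le_add_left (Nat.mul_le_mul_right _ hi.le) _

theorem lcs_Nil : ∀ t, ∀ D ∈ LieModule.lowerCentralSeries k S S t,
    ∀ s, ∀ z ∈ Nil S (s + t + 1), D.1 z ∈ Nil S s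
  | 0 => fun D _ s z hz => (mem_Nil S _ z).1 hz D
  | t + 1 => by
    intro D hD
    rw [LieModule.lowerCentralSeries_succ, ← LieSubmodule.mem_toSubmodule,
      LieSubmodule.lieIdeal_oper_eq_linear_span'] at hD
    induction hD using Submodule.span_induction with
    | mem D hD =>
      obtain ⟨E, -, A, hA, rfl⟩ := hD
      intro s z hz
      have h1 := (mem_Nil S _ _).1 (lcs_Nil t A hA (s + 1) z
        (by rwa [show s + 1 + t + 1 = s + (t + 1) + 1 by ring])) E
      have h2 := lcs_Nil t A hA s _ ((mem_Nil S _ _).1 hz E)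
      exact sub_mem h1 h2
    | zero => intro s z _; exact zero_mem _
    | add D E _ _ hD hE => intro s z hz; exact add_mem (hD s z hz) (hE s z hz)
    | smul c D _ hD => intro s z hz; exact Submodule.smul_mem _ c (hD s z hz)

theorem res_nil {p : ℕ} (hp : 1 < p) (h : Pw k K p) (x : ℕ → K)
    (htop : Algebra.adjoin k (Set.range x) = ⊤) (hS : ∀ D ∈ S, ∀ m, D (x m) ∈ kap k x m) :
    ⨅ n, LieModule.lowerCentralSeries k S S n = ⊥ := by
  rw [eq_bot_iff]
  intro D hD
  rw [LieSubmodule.mem_iInf] at hD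
  rw [LieSubmodule.mem_bot]
  apply Subtype.ext
  refine Derivation.ext_of_adjoin_eq_top _ htop ?_
  rintro _ ⟨n, rfl⟩
  obtain ⟨s, hs⟩ := kap_Nil S hp h x hS (n + 1)
  exact (Submodule.mem_bot k).1 (lcs_Nil S s D (hD s) 0 _
    (by rw [zero_add]; exact Nil_succ S s (hs _ (mem_kap x (Nat.lt_succ_self n)))))

end Nil

section Cof

variable {V : Type*} [AddCommGroup V] [Module k V]

theorem cof_exists {W : Type*} [AddCommGroup W] [Module k W] (φ : V →ₗ[k] W) (H : Submodule k V)
    (h : (H.map φ).FG) : ∃ B : Submodule k V, B.FG ∧ B ≤ H ∧ H ≤ (H ⊓ LinearMap.ker φ) ⊔ B := by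
  classical
  obtain ⟨s, hs⟩ := h
  have : ∀ w : s, ∃ v ∈ H, φ v = w := fun w => by
    have : (w : W) ∈ H.map φ := hs ▸ Submodule.subset_span w.2
    exact this
  choose g hg hg' using this
  have hle : Submodule.span k (Set.range g) ≤ H := Submodule.span_le.2 (by
    rintro _ ⟨w, rfl⟩; exact hg w)
  refine ⟨Submodule.span k (Set.range g), Submodule.fg_span (Set.finite_range g), hle, ?_⟩
  intro v hv
  have h1 : φ v ∈ (Submodule.span k (Set.range g)).map φ := by
    have : H.map φ ≤ (Submodule.span k (Set.range g)).map φ := by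
      rw [← hs, Submodule.span_le]
      intro w hw
      exact ⟨g ⟨w, hw⟩, Submodule.subset_span ⟨_, rfl⟩, hg' _⟩
    exact this ⟨v, hv, rfl⟩
  obtain ⟨b, hb, e⟩ := h1
  have := Submodule.add_mem_sup (S := H ⊓ LinearMap.ker φ)
    (⟨H.sub_mem hv (hle hb), by simp [e]⟩ : v - b ∈ H ⊓ LinearMap.ker φ) hb
  simpa using this

theorem cof_fg {H S B : Submodule k V} (hB : B.FG) (h : H ≤ S ⊔ B) : (H.map S.mkQ).FG := by
  have : Module.Finite k (B.map S.mkQ) := Module.Finite.iff_fg.2 (hB.map _)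
  have h1 : H.map S.mkQ ≤ B.map S.mkQ := by
    refine (Submodule.map_mono h).trans ?_
    rw [Submodule.map_sup, Submodule.mkQ_map_self, bot_sup_eq]
  exact Module.Finite.iff_fg.1 (Submodule.finiteDimensional_of_le h1)

theorem cof_inf {H S B : Submodule k V} (hB : B.FG) (h : H ≤ S ⊔ B) :
    ∃ B' : Submodule k V, B'.FG ∧ B' ≤ H ∧ H ≤ (H ⊓ S) ⊔ B' := by
  simpa using cof_exists S.mkQ H (cof_fg hB h)

theorem cof_chain {S B : Submodule k V} (hB : B.FG) (W : ℕ → Submodule k V)
    (hW : ∀ n, W (n + 1) ≤ W n) (h : W 0 ≤ S ⊔ B) : ∃ N, ∀ n, N ≤ n → W n ≤ W (n + 1) ⊔ S := by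
  have ha : Antitone W := antitone_nat_of_succ_le hW
  have hf : ∀ n, Module.Finite k ((W n).map S.mkQ) := fun n =>
    Module.Finite.iff_fg.2 (cof_fg hB ((ha (Nat.zero_le n)).trans h))
  obtain ⟨N, hN⟩ := anti_const (fun n => finrank k ((W n).map S.mkQ)) fun n =>
    Submodule.finrank_mono (Submodule.map_mono (hW n))
  refine ⟨N, fun n hn v hv => ?_⟩
  have e := Submodule.eq_of_le_of_finrank_eq (Submodule.map_mono (f := S.mkQ) (hW n)) (hN n hn)
  obtain ⟨u, hu, e'⟩ : S.mkQ v ∈ (W (n + 1)).map S.mkQ := by rw [e]; exact ⟨v, hv, rfl⟩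
  have := Submodule.add_mem_sup hu ((Submodule.Quotient.eq S).1 e'.symm)
  simpa using this

end Cof

end Pool.Agent.P.MP_d0ec72_al.Odd
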