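import Pool.Agent.P.MP_d0ec72_al.Der

/-! Filtrations by powers of one element, for purely inseparable steps of prime degree. -/

namespace Pool.Agent.P.MP_d0ec72_al

open Module

section General

variable {k A : Type*} [Field k] [CommRing A] [Algebra k A]

/-- The span of the products `a * x ^ i` with `a` in `C` and `j ≤ i < l`. -/
def Fil (C : Submodule k A) (x : A) (j l : ℕ) : Submodule k A :=
  Submodule.span k {z | ∃ a ∈ C, ∃ i, j ≤ i ∧ i < l ∧ z = a * x ^ i}

variable {C C' : Submodule k A} {x : A} {j l : ℕ}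

theorem Fil_mem {a : A} {i : ℕ} (ha : a ∈ C) (hj : j ≤ i) (hl : i < l) :
    a * x ^ i ∈ Fil C x j l := Submodule.subset_span ⟨a, ha, i, hj, hl, rfl⟩

theorem Fil_le {Z : Submodule k A} (h : ∀ a ∈ C, ∀ i, j ≤ i → i < l → a * x ^ i ∈ Z) :
    Fil C x j l ≤ Z := by
  rw [Fil, Submodule.span_le]
  rintro _ ⟨a, ha, i, hj, hl, rfl⟩
  exact h a ha i hj hl

theorem Fil_mono {j' l' : ℕ} (hC : C ≤ C') (hj : j' ≤ j) (hl : l ≤ l') :
    Fil C x j l ≤ Fil C' x j' l' :=
  Fil_le fun _ ha _ h1 h2 => Fil_mem (hC ha) (hj.trans h1) (h2.trans_le hl)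

theorem Fil_map {B : Type*} [AddCommGroup B] [Module k B] (φ : A →ₗ[k] B) {Z : Submodule k B}
    (h : ∀ a ∈ C, ∀ i, j ≤ i → i < l → φ (a * x ^ i) ∈ Z) {z : A} (hz : z ∈ Fil C x j l) :
    φ z ∈ Z := Fil_le (Z := Z.comap φ) h hz

theorem Fil_mul {b : A} (h : ∀ a ∈ C, b * a ∈ C') {z : A} (hz : z ∈ Fil C x j l) :
    b * z ∈ Fil C' x j l :=
  Fil_map (LinearMap.mulLeft k b) (fun a ha i h1 h2 => by
    simpa [← mul_assoc] using Fil_mem (h a ha) h1 h2) hz

theorem Fil_shift {z : A} (hz : z ∈ Fil C x j l) : x * z ∈ Fil C x (j + 1) (l + 1) :=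
  Fil_map (LinearMap.mulLeft k x) (fun a ha i h1 h2 => by
    have : a * x ^ (i + 1) ∈ Fil C x (j + 1) (l + 1) := Fil_mem ha (by omega) (by omega)
    simpa [pow_succ, mul_comm, mul_left_comm, mul_assoc] using this) hz

theorem Fil_unshift {z : A} (hz : z ∈ Fil C x (j + 1) (l + 1)) :
    ∃ w ∈ Fil C x j l, x * w = z := by
  have : Fil C x (j + 1) (l + 1) ≤ (Fil C x j l).map (LinearMap.mulLeft k x) :=
    Fil_le fun a ha i h1 h2 => by
      obtain ⟨i, rfl⟩ : ∃ i', i = i' + 1 := ⟨i - 1, by omega⟩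
      exact ⟨a * x ^ i, Fil_mem ha (by omega) (by omega), by simp [pow_succ]; ring⟩
  exact this hz

theorem Fil_empty (h : l ≤ j) : Fil C x j l = ⊥ :=
  eq_bot_iff.2 (Fil_le fun _ _ _ _ _ => by omega)

theorem Fil_repr {z : A} (hz : z ∈ Fil C x j l) :
    ∃ a : ℕ → A, (∀ i, a i ∈ C) ∧ z = ∑ i ∈ Finset.range l, a i * x ^ i := by
  induction hz using Submodule.span_induction with
  | mem z hz =>
    obtain ⟨a, ha, i, -, hl, rfl⟩ := hz
    refine ⟨Pi.single i a, fun m => ?_, ?_⟩
    · rcases eq_or_ne m i with rfl | h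
      · simpa using ha
      · simp [h]
    · rw [Finset.sum_eq_single i] <;> simp +contextual [hl]
  | zero => exact ⟨0, fun _ => C.zero_mem, by simp⟩
  | add u v _ _ hu hv =>
    obtain ⟨a, ha, rfl⟩ := hu
    obtain ⟨b, hb, rfl⟩ := hv
    exact ⟨a + b, fun i => C.add_mem (ha i) (hb i), by simp [add_mul, Finset.sum_add_distrib]⟩
  | smul c u _ hu =>
    obtain ⟨a, ha, rfl⟩ := hu
    exact ⟨c • a, fun i => C.smul_mem c (ha i), by simp [Finset.smul_sum]⟩

theorem kap_Fil (X : ℕ → A) (n : ℕ) {p : ℕ} (hp : 1 < p)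
    (h : ∃ c : k, X n ^ p = algebraMap k A c) {z : A} (hz : z ∈ kap k X (n + 1)) :
    z ∈ Fil (Subalgebra.toSubmodule (kap k X n)) (X n) 0 p := by
  obtain ⟨c, hc⟩ := h
  have hx : ∀ z ∈ Fil (Subalgebra.toSubmodule (kap k X n)) (X n) 0 p,
      X n * z ∈ Fil (Subalgebra.toSubmodule (kap k X n)) (X n) 0 p := by
    intro z hz
    refine Fil_map (LinearMap.mulLeft k (X n)) (fun a ha i _ h2 => ?_) hz
    rcases (Nat.succ_le_of_lt h2).lt_or_eq with h | h
    · have : a * X n ^ (i + 1) ∈ Fil (Subalgebra.toSubmodule (kap k X n)) (X n) 0 p :=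
        Fil_mem ha (by omega) h
      simpa [pow_succ, mul_comm, mul_left_comm, mul_assoc] using this
    · have : (a * algebraMap k A c) * X n ^ 0 ∈
          Fil (Subalgebra.toSubmodule (kap k X n)) (X n) 0 p :=
        Fil_mem (Subalgebra.mul_mem _ ha (Subalgebra.algebraMap_mem _ c)) le_rfl (by omega)
      rw [← hc, ← h] at this
      simpa [pow_succ, mul_comm, mul_left_comm, mul_assoc, ← h] using this
  have hxi : ∀ i, ∀ z ∈ Fil (Subalgebra.toSubmodule (kap k X n)) (X n) 0 p,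
      X n ^ i * z ∈ Fil (Subalgebra.toSubmodule (kap k X n)) (X n) 0 p := by
    intro i
    induction i with
    | zero => simp
    | succ i ih => intro z hz; rw [pow_succ', mul_assoc]; exact hx _ (ih z hz)
  induction hz using Algebra.adjoin_induction with
  | mem z hz =>
    obtain ⟨m, hm, rfl⟩ := hz
    rcases (Nat.lt_succ_iff.1 hm).lt_or_eq with h | rfl
    · simpa using Fil_mem (x := X n) (C := Subalgebra.toSubmodule (kap k X n)) (mem_kap X h)
        (le_refl 0) (by omega : 0 < p)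
    · simpa using Fil_mem (x := X m) (C := Subalgebra.toSubmodule (kap k X m))
        (Subalgebra.one_mem _) (Nat.zero_le 1) hp
  | algebraMap r =>
    simpa using Fil_mem (x := X n) (C := Subalgebra.toSubmodule (kap k X n))
      (Subalgebra.algebraMap_mem _ r) (le_refl 0) (by omega : 0 < p)
  | add u v _ _ hu hv => exact Submodule.add_mem _ hu hv
  | mul u v _ _ hu hv =>
    refine Fil_map (LinearMap.mulRight k v) (fun a ha i _ _ => ?_) hu
    rw [LinearMap.mulRight_apply, mul_assoc]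
    exact Fil_mul (fun b hb => Subalgebra.mul_mem _ ha hb) (hxi i v hv)

end General

variable {k K : Type*} [Field k] [Field K] [Algebra k K]

/-- Every `p`-th power of `K` lies in `k`. -/
def Pw (k K : Type*) [Field k] [Field K] [Algebra k K] (p : ℕ) : Prop :=
  ∀ z : K, ∃ c : k, z ^ p = algebraMap k K c

theorem Pw.inv_mem {p : ℕ} (h : Pw k K p) (hp : 0 < p) (A : Subalgebra k K) {z : K}
    (hz : z ∈ A) : z⁻¹ ∈ A := by
  obtain ⟨c, hc⟩ := h z
  exact A.inv_mem_of_algebraic (x := ⟨z, hz⟩)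
    (IsIntegral.of_pow hp (by rw [hc]; exact isIntegral_algebraMap)).isAlgebraic

/-- The powers of `x` below `p` are independent over `κ`. -/
def Ind (κ : Subalgebra k K) (x : K) (p : ℕ) : Prop :=
  ∃ π : ℕ → K →ₗ[k] K, ∀ i j, j < p → ∀ a ∈ κ, π i (a * x ^ j) = if i = j then a else 0

theorem Pw.ind {p : ℕ} [Fact p.Prime] [CharP K p] (h : Pw k K p) (κ : Subalgebra k K) {x : K}
    (hx : x ∉ κ) : Ind κ x p := by
  have hp : p.Prime := Fact.out
  let F : IntermediateField k K := κ.toIntermediateField fun _ hz => h.inv_mem hp.pos _ hz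
  obtain ⟨c, hc⟩ := h x
  have hirr : Irreducible (Polynomial.X ^ p - Polynomial.C (algebraMap k F c)) := by
    refine X_pow_sub_C_irreducible_of_prime hp fun b hb => hx ?_
    have h1 : (b : K) ^ p = x ^ p := by
      rw [hc]; exact congrArg Subtype.val hb
    have h2 : (b : K) = x := frobenius_inj K p h1
    rw [← h2]; exact b.2
  have hmin : minpoly F x = Polynomial.X ^ p - Polynomial.C (algebraMap k F c) :=
    (minpoly.eq_of_irreducible_of_monic hirr (by simp [hc])
      (Polynomial.monic_X_pow_sub_C _ hp.ne_zero)).symm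
  have hli := linearIndependent_pow (K := F) x
  rw [hmin, Polynomial.natDegree_X_pow_sub_C] at hli
  obtain ⟨g, hg⟩ := LinearMap.exists_leftInverse_of_injective
    (Finsupp.linearCombination F fun i : Fin p => x ^ (i : ℕ)) (LinearMap.ker_eq_bot.2 hli)
  refine ⟨fun i => if hi : i < p then F.val.toLinearMap ∘ₗ
    ((Finsupp.lapply (⟨i, hi⟩ : Fin p) ∘ₗ g).restrictScalars k) else 0, fun i j hj a ha => ?_⟩
  have e : g (a * x ^ j) = Finsupp.single ⟨j, hj⟩ ⟨a, ha⟩ := by
    have := LinearMap.congr_fun hg (Finsupp.single ⟨j, hj⟩ ⟨a, ha⟩)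
    rw [LinearMap.comp_apply, Finsupp.linearCombination_single] at this
    exact this
  by_cases hi : i < p
  · simp only [hi, dif_pos, LinearMap.comp_apply, LinearMap.restrictScalars_apply, e,
      Finsupp.lapply_apply, Finsupp.single_apply, Fin.mk.injEq]
    by_cases hij : i = j
    · simp [hij]
    · simp [hij, Ne.symm hij]
  · simp [hi, show i ≠ j by omega]

end Pool.Agent.P.MP_d0ec72_al
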