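import Pool.Agent.P.MP_d0ec72_al.OAlg

/-! Generation of the twisted algebra from low levels and from two elements. -/

namespace Pool.Agent.P.MP_d0ec72_al.Odd

open Module

variable {k K : Type*} [Field k] [Field K] [Algebra k K]

section NT

variable {g : Type*} [LieRing g] [LieAlgebra k g]

theorem nt (s : Set g) (S : Submodule k g) (h : ∀ D ∈ s, ∀ Z ∈ S, ⁅D, Z⁆ ∈ S) {D : g}
    (hD : D ∈ LieSubalgebra.lieSpan k g s) : ∀ Z ∈ S, ⁅D, Z⁆ ∈ S := by
  induction hD using LieSubalgebra.lieSpan_induction with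
  | mem D hD => exact h D hD
  | zero => intro Z _; rw [zero_lie]; exact S.zero_mem
  | add D E _ _ hD hE => intro Z hZ; rw [add_lie]; exact S.add_mem (hD Z hZ) (hE Z hZ)
  | smul c D _ hD => intro Z hZ; rw [smul_lie]; exact S.smul_mem c (hD Z hZ)
  | lie D E _ _ hD hE =>
    intro Z hZ; rw [lie_lie]; exact S.sub_mem (hD _ (hE Z hZ)) (hE _ (hD Z hZ))

theorem nt' (s : Set g) (S : Submodule k g) (h : ∀ D ∈ s, ∀ Z ∈ S, ⁅D, Z⁆ ∈ S)
    (hs : ∀ D ∈ s, D ∈ S) {D : g} (hD : D ∈ LieSubalgebra.lieSpan k g s) : D ∈ S := by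
  induction hD using LieSubalgebra.lieSpan_induction with
  | mem D hD => exact hs D hD
  | zero => exact S.zero_mem
  | add D E _ _ hD hE => exact S.add_mem hD hE
  | smul c D _ hD => exact S.smul_mem c hD
  | lie D E hD' _ _ hE => exact nt s S h hD' E hE

theorem lie_mem_swap (S : Submodule k g) {D E : g} (h : ⁅D, E⁆ ∈ S) : ⁅E, D⁆ ∈ S := by
  rw [← lie_skew]; exact S.neg_mem h

end NT

/-- The span of the multiples of `H` by elements of `κ`. -/
def KS (κ : Subalgebra k K) (H : Submodule k (Derivation k K K)) :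
    Submodule k (Derivation k K K) := Submodule.span k {Z | ∃ a ∈ κ, ∃ D ∈ H, Z = a • D}

section KS

variable {κ : Subalgebra k K} {H H' : Submodule k (Derivation k K K)}

theorem KS_mem {a : K} (ha : a ∈ κ) {D : Derivation k K K} (hD : D ∈ H) : a • D ∈ KS κ H :=
  Submodule.subset_span ⟨a, ha, D, hD, rfl⟩

theorem KS_le {P : Submodule k (Derivation k K K)} (h : ∀ a ∈ κ, ∀ D ∈ H, a • D ∈ P) :
    KS κ H ≤ P := by
  rw [KS, Submodule.span_le]
  rintro _ ⟨a, ha, D, hD, rfl⟩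
  exact h a ha D hD

theorem KS_map {B : Type*} [AddCommGroup B] [Module k B] (φ : Derivation k K K →ₗ[k] B)
    {Z : Submodule k B} (h : ∀ a ∈ κ, ∀ D ∈ H, φ (a • D) ∈ Z) {X : Derivation k K K}
    (hX : X ∈ KS κ H) : φ X ∈ Z := KS_le (P := Z.comap φ) h hX

theorem le_KS {D : Derivation k K K} (hD : D ∈ H) : D ∈ KS κ H := by
  simpa using KS_mem (κ.one_mem) hD

theorem KS_mono (h : H ≤ H') : KS κ H ≤ KS κ H' := KS_le fun _ ha _ hD => KS_mem ha (h hD)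

theorem KS_smul {a : K} (ha : a ∈ κ) {X : Derivation k K K} (hX : X ∈ KS κ H) :
    a • X ∈ KS κ H :=
  KS_map ((LinearMap.lsmul K _ a).restrictScalars k) (fun b hb D hD => by
    simpa [smul_smul] using KS_mem (κ.mul_mem hb ha) hD) hX

theorem KS_lie {D : Derivation k K K} (hD : ∀ a ∈ κ, D a ∈ κ) (h : ∀ E ∈ H, ⁅D, E⁆ ∈ H)
    {X : Derivation k K K} (hX : X ∈ KS κ H) : ⁅D, X⁆ ∈ KS κ H :=
  KS_map (LieAlgebra.ad k _ D) (fun a ha E hE => by
    rw [LieAlgebra.ad_apply, lie_smul']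
    exact Submodule.add_mem _ (KS_mem ha (h E hE)) (KS_mem (hD a ha) hE)) hX

theorem KS_lie0 {D : Derivation k K K} (hD : ∀ a ∈ κ, D a = 0) (h : ∀ E ∈ H, ⁅D, E⁆ ∈ H')
    {X : Derivation k K K} (hX : X ∈ KS κ H) : ⁅D, X⁆ ∈ KS κ H' :=
  KS_map (LieAlgebra.ad k _ D) (fun a ha E hE => by
    rw [LieAlgebra.ad_apply, lie_smul', hD a ha, zero_smul, add_zero]
    exact KS_mem ha (h E hE)) hX

theorem KS_val {A : Submodule k K} (φ : Derivation k K K →ₗ[K] K)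
    (hA : ∀ a ∈ κ, ∀ b ∈ A, a * b ∈ A) (h : ∀ E ∈ H, φ E ∈ A) {X : Derivation k K K}
    (hX : X ∈ KS κ H) : φ X ∈ A :=
  KS_map (φ.restrictScalars k) (fun a ha E hE => by
    simpa using hA a ha _ (h E hE)) hX

theorem KS_K {P : Submodule K (Derivation k K K)} (h : ∀ E ∈ H, E ∈ P) {X : Derivation k K K}
    (hX : X ∈ KS κ H) : X ∈ P :=
  KS_le (P := P.restrictScalars k) (fun a _ E hE => P.smul_mem a (h E hE)) hX

end KS

namespace Tow

variable {r : ℕ} (w : Tow k K r)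

theorem vv_lie {i m : ℕ} (h : i ≤ m) :
    ⁅w.v i, w.v m⁆ = (w.θ m * w.e m (w.v i)) • w.v (m + 1) := by
  refine w.ext_f (w.lie_F (w.F_mono (by omega) (w.v_F i)) (w.v_F m))
    ((w.F _).smul_mem _ (w.v_F _)) fun j _ => ?_
  have hc : ∀ (D : Derivation k K K) (P : Prop) [Decidable P], D (if P then 1 else 0) = 0 := by
    intro D P _
    split_ifs <;> simp
  cases j with
  | zero => simp [w.f0_lie (w.v_F i).1 (w.v_F m).1, w.f_v, hc]
  | succ j =>
    rw [w.f_lie, map_smul]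
    simp only [w.f_v, hc, sub_zero, zero_add, smul_eq_mul, Nat.add_right_cancel_iff]
    have h1 : w.e j (w.v m) * (if j = i then 1 else 0) = 0 := by
      split_ifs with h2
      · rw [mul_one]; exact w.v_kill m (w.xm (by omega))
      · rw [mul_zero]
    rw [h1]
    split_ifs with h2
    · rw [h2]; ring
    · ring

theorem pure_lie {i m : ℕ} (h : i ≤ m) {a : K} (ha : a ∈ w.κ (m + 3)) (b : K) :
    ⁅a • w.v i, b • w.v m⁆ =
      (a * w.v i b) • w.v m + (w.θ m * w.e m (w.v i) * a * b) • w.v (m + 1) := by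
  rw [lie_smul', smul_lie', w.v_kill m ha, w.vv_lie h, zero_smul, sub_zero, smul_smul, smul_smul,
    add_comm]
  congr 2
  ring

theorem gen_top (M : LieSubalgebra k (Derivation k K K)) {m : ℕ}
    (hM : ∀ i, i ≤ m → ∀ a ∈ w.A i, a • w.v i ∈ M) {i : ℕ} (h : i ≤ m) {a b : K} (ha : a ∈ w.A i)
    (hb : b ∈ w.A m) : (w.θ m * w.e m (w.v i) * a * b) • w.v (m + 1) ∈ M := by
  have h1 := M.lie_mem (hM i h a ha) (hM m le_rfl b hb)
  rw [w.pure_lie h (w.mono (by omega) (w.A_κ i ha))] at h1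
  simpa using M.sub_mem h1 (hM m le_rfl _ ((w.pure_good ha).presA m hb))

theorem gen_step (M : LieSubalgebra k (Derivation k K K)) {n : ℕ}
    (hM : ∀ i, i ≤ n + 2 → ∀ a ∈ w.A i, a • w.v i ∈ M) {a : K} (ha : a ∈ w.A (n + 3)) :
    a • w.v (n + 3) ∈ M := by
  let U : Submodule k K := M.toSubmodule.comap
    ((LinearMap.toSpanSingleton K _ (w.v (n + 3))).restrictScalars k)
  have hU : ∀ a, a ∈ U ↔ a • w.v (n + 3) ∈ M := fun a => Iff.rfl
  have hq := w.cast_ne (Nat.lt_succ_self r)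
  have hA : ∀ γ ∈ w.V (n + 3), γ * w.x (n + 4) ^ r ∈ U := by
    intro γ hγ
    refine Fil_map (LinearMap.mulRight k (w.x (n + 4) ^ r)) (fun c hc j _ hj => ?_) hγ
    refine Fil_map (LinearMap.mulRight k (w.x (n + 3) ^ j * w.x (n + 4) ^ r))
      (Z := U) (fun c' hc' i _ hi => ?_) (w.fil (n + 2) hc) |> fun h => by
        simpa [mul_assoc] using h
    have hb : (((r + 1 : ℕ) : K)⁻¹ * c') * w.x (n + 3) ^ j ∈ w.A (n + 2) :=
      Fil_mem (w.κ_V _ (Subalgebra.mul_mem _ (w.inv _ (natCast_mem _ _)) hc')) (Nat.zero_le _) hj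
    rw [LinearMap.mulRight_apply, hU]
    rcases (Nat.lt_succ_iff.1 hi).lt_or_eq with hi | hi
    · have h1 : (1 : K) * w.x (n + 2) ^ i ∈ w.A (n + 1) :=
        Fil_mem (w.κ_V _ (Subalgebra.one_mem _)) (Nat.zero_le _) hi
      have := w.gen_top M hM (by omega) h1 hb
      rw [w.e_v1, θ] at this
      convert this using 2
      field_simp
    · have := w.gen_top M hM (by omega) (w.one_A n) hb
      rw [w.e_v2, θ] at this
      convert this using 2
      rw [hi]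
      field_simp
  have hB : ∀ j, j < r → (∀ γ ∈ w.V (n + 3), γ * w.x (n + 4) ^ (j + 1) ∈ U) →
      ∀ γ ∈ w.V (n + 3), γ * w.x (n + 4) ^ j ∈ U := by
    intro j hj ih γ hγ
    refine Fil_map (LinearMap.mulRight k (w.x (n + 4) ^ j)) (fun c hc l _ hl => ?_) hγ
    have hj' := w.cast_ne (by omega : j < r + 1)
    have hc' : ((j + 1 : ℕ) : K)⁻¹ * c ∈ w.κ (n + 3) :=
      Subalgebra.mul_mem _ (w.inv _ (natCast_mem _ _)) hc
    have hγ1 : (((j + 1 : ℕ) : K)⁻¹ * c) * w.x (n + 3) ^ l ∈ w.V (n + 3) :=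
      Fil_mem hc' (Nat.zero_le _) hl
    obtain ⟨a, ha, γ', hγ', e⟩ : ∃ a ∈ w.A (n + 2), ∃ γ' ∈ w.V (n + 3),
        a * γ' = w.x (n + 3) ^ (r + 1) * ((((j + 1 : ℕ) : K)⁻¹ * c) * w.x (n + 3) ^ l) := by
      cases l with
      | zero =>
        exact ⟨1 * w.x (n + 3) ^ 1, Fil_mem (w.κ_V _ (Subalgebra.one_mem _)) (Nat.zero_le _)
          (by omega), _, Fil_mem hc' (Nat.zero_le r) (Nat.lt_succ_self r), by ring⟩
      | succ l =>
        obtain ⟨s, hs⟩ := w.pw (w.x (n + 3))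
        refine ⟨1, w.one_A _, _, Fil_mem (Subalgebra.mul_mem _ (Subalgebra.algebraMap_mem _ s) hc')
          (Nat.zero_le l) (by omega), ?_⟩
        rw [← hs]; ring
    have h1 := M.lie_mem (hM (n + 1) (by omega) 1 (w.one_A _)) ((hU _).1 (ih _ hγ1))
    have h2 := M.lie_mem (hM (n + 2) le_rfl a ha) ((hU _).1 (ih _ hγ'))
    rw [w.pure_lie (by omega) (Subalgebra.one_mem _), w.e_v2, Derivation.leibniz,
      Derivation.leibniz_pow, w.v_kill (n + 1) (w.V_κ _ hγ1),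
      show w.v (n + 1) (w.x (n + 4)) = 1 from w.e_v1 (n + 1)] at h1
    rw [w.pure_lie (by omega) (w.mono (by omega) (w.A_κ _ ha)), w.e_v1, w.v_kill (n + 2)
      (Subalgebra.mul_mem _ (w.mono (by omega) (w.V_κ _ hγ'))
        (Subalgebra.pow_mem _ (w.xm (by omega)) _))] at h2
    have h3 := M.sub_mem h1 h2
    rw [LinearMap.mulRight_apply, hU]
    convert h3 using 1
    rw [mul_assoc (_ * 1) a, ← mul_assoc a, e]
    simp only [smul_eq_mul, nsmul_eq_mul, mul_zero, zero_smul, zero_add, add_zero, mul_one, one_mul,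
      Nat.add_sub_cancel, ← mul_assoc, add_sub_cancel_right]
    congr 1
    field_simp
  have hC : ∀ j, j ≤ r → ∀ γ ∈ w.V (n + 3), γ * w.x (n + 4) ^ j ∈ U := by
    intro j hj
    induction hj using Nat.decreasingInduction with
    | of_succ j hj ih => exact hB j hj ih
    | self => exact hA
  exact (hU a).1 (Fil_le (Z := U) (fun γ hγ j _ hj => hC j (by omega) γ hγ) ha)

theorem gen_all (M : LieSubalgebra k (Derivation k K K)) {n : ℕ} (hn : 2 ≤ n)
    (hM : ∀ D, w.Good D → D ∈ w.F (n + 1) → D ∈ M) {D : Derivation k K K} (hD : w.Good D) :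
    D ∈ M := by
  have h1 : ∀ j i, i ≤ n + j → ∀ a ∈ w.A i, a • w.v i ∈ M := by
    intro j
    induction j with
    | zero =>
      intro i hi a ha
      exact hM _ (w.pure_good ha) (w.F_mono (by omega) ((w.F _).smul_mem a (w.v_F i)))
    | succ j ih =>
      intro i hi a ha
      rcases hi.lt_or_eq with hi | hi
      · exact ih i (by omega) a ha
      · obtain ⟨t, rfl⟩ : ∃ t, i = t + 3 := ⟨i - 3, by omega⟩
        exact w.gen_step M (fun i hi => ih i (by omega)) ha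
  obtain ⟨m, hm⟩ := hD.1
  exact w.pure_ind M.toSubmodule m D hm fun i _ => h1 i i (by omega) _ (hD.2 i)

theorem Old_pres {N n : ℕ} {D : Derivation k K K} (hD : D ∈ w.Old N n) {z : K} (hz : z ∈ w.κ N) :
    D z ∈ w.κ N := w.pres_κ hD.1.1 (fun m => w.mono (le_max_left _ _) (hD.2 m)) le_rfl hz

theorem univ (G : LieSubalgebra k (Derivation k K K)) (hG : G ≤ w.LL) {n : ℕ} (hn : 2 ≤ n)
    {D0 E0 : Derivation k K K} (hD : D0 ∈ G) (hE : E0 ∈ G) (h0 : D0 ≠ 0) (hDF : D0 ∈ w.F n)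
    (hEF : E0 ∈ w.F (n + 1)) (hE0 : w.f n E0 ≠ 0) {X : Derivation k K K} (hX : w.Good X) :
    X ∈ KS (w.κ (n + 2)) G.toSubmodule ⊔ w.Old (n + 2) (n + 1) := by
  let H := LieSubalgebra.lieSpan k (Derivation k K K) {D0, E0}
  have hHG : H ≤ G := LieSubalgebra.lieSpan_le.2 (by rintro _ (rfl | rfl) <;> assumption)
  have hDH : D0 ∈ H := LieSubalgebra.subset_lieSpan (by simp)
  have hEH : E0 ∈ H := LieSubalgebra.subset_lieSpan (by simp)
  have hH : ∀ D ∈ H, w.Good D := fun D h => hG (hHG h)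
  let S := KS (w.κ (n + 2)) H.toSubmodule ⊔ w.Old (n + 2) (n + 1)
  have hEO : E0 ∈ w.Old (n + 2) (n + 1) := (hH _ hEH).old hEF
  have hDO : D0 ∈ w.Old (n + 2) n := w.Old_mono (by omega) le_rfl ((hH _ hDH).old hDF)
  have hup : w.Old (n + 2) n ≤ w.Old (n + 2) (n + 1) := w.Old_mono le_rfl (by omega)
  have hdec : ∀ Z ∈ S, ∃ Y ∈ KS (w.κ (n + 2)) H.toSubmodule, ∃ B ∈ w.Old (n + 2) n,
      w.e n B = 0 ∧ Z = Y + B := by
    intro Z hZ
    obtain ⟨Y, hY, B, hB, rfl⟩ := Submodule.mem_sup.1 hZ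
    have ha : w.f n B * (w.f n E0)⁻¹ ∈ w.κ (n + 2) :=
      Subalgebra.mul_mem _ (hB.2 n) (w.inv _ (hEO.2 n))
    have h1 := Submodule.sub_mem _ hB (w.Old_smul ha hEO)
    have h2 : B - (w.f n B * (w.f n E0)⁻¹) • E0 ∈ w.Old (n + 2) n :=
      ⟨w.F_down h1.1 (by simp [hE0]), h1.2⟩
    generalize hB' : B - (w.f n B * (w.f n E0)⁻¹) • E0 = B' at h2
    have he : w.e n D0 ≠ 0 := fun e => h0 ((hH _ hDH).inj n hDF e)
    have hb : w.e n B' * (w.e n D0)⁻¹ ∈ w.κ (n + 2) :=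
      Subalgebra.mul_mem _ (by
        simpa using w.e_κ h2.1.1 (N := n + 2) (fun m => w.mono (le_max_left _ _) (h2.2 m)) n)
        (w.inv _ (w.mono (by omega) ((hH _ hDH).eκ n)))
    refine ⟨Y + (w.f n B * (w.f n E0)⁻¹) • E0 + (w.e n B' * (w.e n D0)⁻¹) • D0,
      Submodule.add_mem _ (Submodule.add_mem _ hY (KS_mem ha hEH)) (KS_mem hb hDH),
      B' - (w.e n B' * (w.e n D0)⁻¹) • D0, Submodule.sub_mem _ h2 (w.Old_smul hb hDO),
      by simp [he], ?_⟩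
    rw [← hB']; abel
  have hnull : ∀ B ∈ w.Old (n + 2) n, w.e n B = 0 → ∀ E ∈ w.Old (n + 2) (n + 1), ⁅B, E⁆ ∈ S :=
    fun B hB h E hE => Submodule.mem_sup_right
      (w.Old_lie le_rfl (hup hB) hE (w.null_lie hB.1 h hE.1 le_rfl))
  have h1 : ∀ D ∈ H, ∀ Z ∈ S, ⁅D, Z⁆ ∈ S := by
    intro D hD
    refine nt _ S (fun E hE Z hZ => ?_) hD
    obtain ⟨Y, hY, B, hB, hB0, rfl⟩ := hdec Z hZ
    have hEH' : E ∈ H := LieSubalgebra.subset_lieSpan hE
    rw [lie_add]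
    refine S.add_mem (Submodule.mem_sup_left (KS_lie (fun a ha => (hH _ hEH').pres _ ha)
      (fun _ h => H.lie_mem hEH' h) hY)) (lie_mem_swap S (hnull B hB hB0 E ?_))
    rcases hE with rfl | rfl
    exacts [hup hDO, hEO]
  have hsm : ∀ a ∈ w.κ (n + 2), ∀ Z ∈ S, a • Z ∈ S := by
    intro a ha Z hZ
    obtain ⟨Y, hY, B, hB, rfl⟩ := Submodule.mem_sup.1 hZ
    rw [smul_add]
    exact Submodule.add_mem_sup (KS_smul ha hY) (w.Old_smul ha hB)
  have hpres : ∀ Z ∈ S, ∀ a ∈ w.κ (n + 2), Z a ∈ w.κ (n + 2) := by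
    intro Z hZ a ha
    obtain ⟨Y, hY, B, hB, rfl⟩ := Submodule.mem_sup.1 hZ
    exact Subalgebra.add_mem _ (KS_val (A := Subalgebra.toSubmodule (w.κ (n + 2))) (ev k a)
      (fun _ h _ h' => Subalgebra.mul_mem _ h h') (fun E hE => (hH E hE).pres _ ha) hY)
      (w.Old_pres hB ha)
  have h2 : ∀ Y ∈ KS (w.κ (n + 2)) H.toSubmodule, ∀ Z ∈ S, ⁅Y, Z⁆ ∈ S := by
    intro Y hY Z hZ
    refine lie_mem_swap S (KS_map (LieAlgebra.ad k _ Z) (fun a ha E hE => ?_) hY)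
    rw [LieAlgebra.ad_apply, lie_smul']
    exact S.add_mem (hsm a ha _ (lie_mem_swap S (h1 E hE Z hZ)))
      (Submodule.mem_sup_left (KS_mem (hpres Z hZ a ha) hE))
  let M : LieSubalgebra k (Derivation k K K) :=
    { toSubmodule := S
      lie_mem' := by
        intro Z Z' hZ hZ'
        obtain ⟨Y, hY, B, hB, hB0, rfl⟩ := hdec Z hZ
        obtain ⟨Y', hY', B', hB', rfl⟩ := Submodule.mem_sup.1 hZ'
        rw [add_lie, lie_add B]
        exact S.add_mem (h2 Y hY _ hZ') (S.add_mem (lie_mem_swap S (h2 Y' hY' B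
          (Submodule.mem_sup_right (hup hB)))) (hnull B hB hB0 B' hB')) }
  have h3 : X ∈ S := w.gen_all M hn (fun D hD hF => Submodule.mem_sup_right (hD.old hF)) hX
  exact sup_le_sup_right (KS_mono hHG) _ h3

theorem just_inf (s : Set (Derivation k K K)) {N N0 n0 : ℕ} (hs : ∀ D ∈ s, w.Good D ∧ D ∈ w.F N)
    (hU : ∀ X, w.Good X → X ∈ KS (w.κ N0) (LieSubalgebra.lieSpan k _ s).toSubmodule ⊔ w.Old N0 n0)
    (I : Submodule k (Derivation k K K)) (hI : ∀ A ∈ I, A ∈ LieSubalgebra.lieSpan k _ s)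
    (hI0 : ∀ A ∈ I, ∀ a ∈ w.κ N0, A a = 0)
    (hIl : ∀ D ∈ LieSubalgebra.lieSpan k _ s, ∀ A ∈ I, ⁅D, A⁆ ∈ I)
    {A0 : Derivation k K K} (hA : A0 ∈ I) (hA0 : A0 ≠ 0) (hAF : A0 ∈ w.F N) :
    ∃ N' n', ∀ X, w.Good X → X ∈ KS (w.κ N0) I ⊔ w.Old N' n' := by
  set G := LieSubalgebra.lieSpan k (Derivation k K K) s
  have hG : ∀ D ∈ G, w.Good D := fun D hD =>
    (LieSubalgebra.lieSpan_le (K := w.LL)).2 (fun D hD => (hs D hD).1) hD
  obtain ⟨n, h1, h2, h3⟩ : ∃ n, N + 1 ≤ n ∧ N0 ≤ n ∧ n0 ≤ n := ⟨N + 1 + N0 + n0, by omega, by omega,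
    by omega⟩
  let P := KS (w.κ N0) G.toSubmodule ⊓ (w.F (n + 1)).restrictScalars k
  let S := KS (w.κ N0) I ⊔ P
  have hAe : w.e N A0 ≠ 0 := fun e => hA0 ((hG _ (hI _ hA)).inj N hAF e)
  have hcl : ∀ D ∈ s, ∀ Z ∈ S, ⁅D, Z⁆ ∈ S := by
    intro D hD Z hZ
    have hDG : D ∈ G := LieSubalgebra.subset_lieSpan hD
    have hDp : ∀ a ∈ w.κ N0, D a ∈ w.κ N0 := fun a ha => (hG D hDG).pres _ ha
    obtain ⟨Y, hY, B, ⟨hB, hBF⟩, rfl⟩ := Submodule.mem_sup.1 hZ
    rw [lie_add]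
    refine S.add_mem (Submodule.mem_sup_left (KS_lie hDp (hIl D hDG) hY)) ?_
    have hρ : w.e N D * (w.e N A0)⁻¹ ∈ w.κ n :=
      w.mono h1 (Subalgebra.mul_mem _ ((hG D hDG).eκ N) (w.inv _ ((hG _ (hI _ hA)).eκ N)))
    have hb : w.e N D * (w.e N A0)⁻¹ * w.f n B ∈ w.A n := w.A_mul n hρ
      (KS_val (w.f n) (fun a ha _ h => w.A_mul n (w.mono h2 ha) h) (fun E hE => (hG E hE).2 n) hB)
    obtain ⟨B', hB', O, hO, e⟩ := Submodule.mem_sup.1 (hU _ (w.pure_good hb))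
    have hOF : O ∈ w.F n := w.F_mono h3 hO.1
    have hB'F : B' ∈ w.F (n + 1) := by
      rw [eq_sub_of_add_eq e]
      exact (w.F _).sub_mem ((w.F _).smul_mem _ (w.v_F n)) (w.F_mono (by omega) hOF)
    have hB'f : w.f n B' = w.e N D * (w.e N A0)⁻¹ * w.f n B := by
      rw [eq_sub_of_add_eq e, map_sub, hOF.2 n le_rfl, map_smul, w.f_v]; simp
    have hDF : D ∈ w.F n := w.F_mono (by omega) (hs D hD).2
    have hAF' : A0 ∈ w.F n := w.F_mono (by omega) hAF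
    have h4 : ⁅A0, B'⁆ ∈ KS (w.κ N0) I :=
      KS_lie0 (hI0 _ hA) (fun E hE => lie_mem_swap I (hIl E hE _ hA)) hB'
    have h5 : ⁅D, B⁆ - ⁅A0, B'⁆ ∈ P := by
      refine ⟨Submodule.sub_mem _ (KS_lie hDp (fun _ h => G.lie_mem hDG h) hB) (KS_mono hI h4),
        w.F_down ((w.F _).sub_mem (w.lie_F (w.F_mono (by omega) hDF) hBF)
          (w.lie_F (w.F_mono (by omega) hAF') hB'F)) ?_⟩
      rw [map_sub, w.top_lie hDF hBF, w.top_lie hAF' hB'F, hB'f,
        w.e_ratio (hs D hD).2 hAF (a := w.e N D * (w.e N A0)⁻¹) (by simp [hAe]) (by omega : N ≤ n)]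
      ring
    simpa using Submodule.add_mem_sup h4 h5
  have hGS : ∀ D ∈ G, D ∈ S := fun D hD => nt' s S hcl (fun E hE => Submodule.mem_sup_right
    ⟨le_KS (LieSubalgebra.subset_lieSpan hE), w.F_mono (by omega) (hs E hE).2⟩) hD
  have hP : P ≤ w.Old (n + 2) (n + 1) := fun B hB => ⟨hB.2, fun m => by
    rcases lt_or_ge n m with hm | hm
    · rw [hB.2.2 m hm]; exact Subalgebra.zero_mem _
    · exact KS_val (A := Subalgebra.toSubmodule (w.κ (n + 2))) (w.f m)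
        (fun a ha _ h => Subalgebra.mul_mem _ (w.mono (by omega) ha) h)
        (fun E hE => w.mono (by omega) (w.A_κ m ((hG E hE).2 m))) hB.1⟩
  refine ⟨n + 2, n + 1, fun X hX => ?_⟩
  refine (sup_le (KS_le fun a ha D hD => ?_)
    (le_sup_of_le_right (w.Old_mono (by omega) (by omega)))) (hU X hX)
  obtain ⟨Y, hY, B, hB, rfl⟩ := Submodule.mem_sup.1 (hGS D hD)
  rw [smul_add]
  exact Submodule.add_mem_sup (KS_smul ha hY) (w.Old_smul (w.mono (by omega) ha) (hP hB))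

end Tow

end Pool.Agent.P.MP_d0ec72_al.Odd
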