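import Pool.Agent.P.MP_d0ec72_al.OKey

/-! Instantiation over fields of infinite degree over their `p`-th powers. -/

namespace Pool.Agent.P.MP_d0ec72_al.Odd

open Module

universe u

theorem exists_seq {k K : Type*} [Field k] [Field K] [Algebra k K] {p : ℕ} (hp : 0 < p)
    (h : Pw k K p) (hK : ¬ Module.Finite k K) : ∃ x : ℕ → K, ∀ n, x n ∉ kap k x n := by
  have step : ∀ s : Set K, s.Finite → ∃ z, z ∉ Algebra.adjoin k s := by
    intro s hs
    by_contra hz
    push Not at hz
    apply hK
    have hint : ∀ z ∈ s, IsIntegral k z := by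
      intro z _
      obtain ⟨c, hc⟩ := h z
      exact IsIntegral.of_pow hp (by rw [hc]; exact isIntegral_algebraMap)
    have := Algebra.finite_adjoin_of_finite_of_isIntegral hs hint
    exact Module.Finite.of_surjective (Algebra.adjoin k s).val.toLinearMap fun z => ⟨⟨z, hz z⟩, rfl⟩
  choose g hg using step
  let x : ℕ → K := fun n => Nat.strongRec (motive := fun _ => K) (fun n ih =>
    g (Set.range fun i : Fin n => ih i i.2) (Set.finite_range _)) n
  refine ⟨x, fun n => ?_⟩
  have hx : x n = g (Set.range fun i : Fin n => x i) (Set.finite_range _) :=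
    Nat.strongRec_eq ..
  have : x '' Set.Iio n = Set.range fun i : Fin n => x i := by
    ext z
    constructor
    · rintro ⟨m, hm, rfl⟩; exact ⟨⟨m, hm⟩, rfl⟩
    · rintro ⟨m, rfl⟩; exact ⟨m, m.2, rfl⟩
  rw [kap, this, hx]
  exact hg _ _

theorem main_ext {k K : Type u} [Field k] [Field K] [Algebra k K] {p : ℕ} (hp : p.Prime)
    [CharP K p] (h : Pw k K p) (hK : ¬ Module.Finite k K) :
    ∃ (L : Type u) (_ : LieRing L) (_ : LieAlgebra k L), ¬ Module.Finite k L ∧
      (∀ c : ℕ →o LieSubalgebra k L, ∃ n, ∀ m, n ≤ m → c m = c n) ∧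
      ⨅ n, LieModule.lowerCentralSeries k L L n = ⊥ := by
  obtain ⟨x, hx⟩ := exists_seq hp.pos h hK
  obtain ⟨r, rfl⟩ : ∃ r, p = r + 2 := ⟨p - 2, by have := hp.two_le; omega⟩
  let A := Algebra.adjoin k (Set.range x)
  let M : IntermediateField k K := A.toIntermediateField fun _ hz => h.inv_mem hp.pos _ hz
  let y : ℕ → M := fun n => ⟨x n, Algebra.subset_adjoin ⟨n, rfl⟩⟩
  have hM : Pw k M (r + 2) := by
    intro z
    obtain ⟨c, hc⟩ := h z
    exact ⟨c, Subtype.ext hc⟩
  have hy : ∀ n, y n ∉ kap k y n := by
    intro n hn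
    apply hx n
    have : (kap k y n).map M.val = kap k x n := by
      rw [kap, kap, AlgHom.map_adjoin, Set.image_image]; rfl
    rw [← this]; exact ⟨_, hn, rfl⟩
  have htop : Algebra.adjoin k (Set.range y) = ⊤ := by
    apply Subalgebra.map_injective (f := M.val) M.val.injective
    rw [AlgHom.map_adjoin, ← Set.range_comp, Algebra.map_top]
    ext z
    constructor
    · intro hz; exact ⟨⟨z, hz⟩, rfl⟩
    · rintro ⟨z, rfl⟩; exact z.2
  let w : Tow k M r := ⟨hp, inferInstance, hM, y, hy, htop⟩
  exact ⟨w.LL, inferInstance, inferInstance, w.main⟩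

/-- A copy of a field, viewed over itself through the Frobenius map. -/
def Fr (k : Type u) (_ : ℕ) : Type u := k

instance (k : Type u) (p : ℕ) [Field k] : Field (Fr k p) := inferInstanceAs (Field k)

instance (k : Type u) (p : ℕ) [Field k] [CharP k p] : CharP (Fr k p) p :=
  inferInstanceAs (CharP k p)

noncomputable instance (k : Type u) (p : ℕ) [Fact p.Prime] [Field k] [CharP k p] :
    Algebra k (Fr k p) := (show k →+* Fr k p from frobenius k p).toAlgebra

theorem main_field (p : ℕ) [Fact p.Prime] (k : Type u) [Field k] [CharP k p]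
    (hk : ¬ Module.Finite (frobenius k p).fieldRange k) :
    ∃ (L : Type u) (_ : LieRing L) (_ : LieAlgebra k L), ¬ Module.Finite k L ∧
      (∀ c : ℕ →o LieSubalgebra k L, ∃ n, ∀ m, n ≤ m → c m = c n) ∧
      ⨅ n, LieModule.lowerCentralSeries k L L n = ⊥ := by
  refine main_ext (K := Fr k p) (p := p) Fact.out (fun z => ⟨z, rfl⟩) fun hf => hk ?_
  obtain ⟨s, hs⟩ := Module.finite_def.1 hf
  refine Module.finite_def.2 ⟨s, ?_⟩
  rw [eq_top_iff]
  intro z _
  have hz : (show Fr k p from z) ∈ Submodule.span k (s : Set (Fr k p)) := by rw [hs]; trivial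
  change (show Fr k p from z) ∈ _
  generalize (show Fr k p from z) = z' at hz
  induction hz using Submodule.span_induction with
  | mem a ha => exact Submodule.subset_span ha
  | zero => exact Submodule.zero_mem _
  | add a b _ _ ha hb => exact Submodule.add_mem _ ha hb
  | smul c a _ ha =>
    exact Submodule.smul_mem _ (⟨frobenius k p c, c, rfl⟩ : (frobenius k p).fieldRange) ha

open MvPolynomial in
theorem exists_field (p : ℕ) [Fact p.Prime] : ∃ (k : Type) (_ : Field k) (_ : CharP k p),
    ¬ Module.Finite (frobenius k p).fieldRange k := by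
  let R := MvPolynomial ℕ (ZMod p)
  let k := FractionRing R
  have : CharP k p := IsFractionRing.charP R p
  refine ⟨k, inferInstance, this, fun hf => ?_⟩
  have hli : LinearIndependent (frobenius k p).fieldRange fun n : ℕ => algebraMap R k (X n) := by
    rw [linearIndependent_iff']
    intro s g hg i hi
    choose c hc using fun j => (g j).2
    obtain ⟨d, hd⟩ := IsLocalization.exist_integer_multiples (nonZeroDivisors R) s c
    choose! q hq using hd
    have hsum : ∑ j ∈ s, q j ^ p * X j = 0 := by
      apply IsFractionRing.injective R k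
      rw [map_sum, map_zero]
      have : ∑ j ∈ s, algebraMap R k (q j ^ p * X j) =
          algebraMap R k d ^ p * ∑ j ∈ s, g j • algebraMap R k (X j) := by
        rw [Finset.mul_sum]
        refine Finset.sum_congr rfl fun j hj => ?_
        rw [map_mul, map_pow, hq j hj, Subfield.smul_def, ← hc j, frobenius_def, Algebra.smul_def,
          smul_eq_mul]
        ring
      rw [this, hg, mul_zero]
    have h2 := congrArg (pderiv i) hsum
    rw [map_sum, map_zero, Finset.sum_eq_single i] at h2
    · have h3 : q i ^ p = 0 := by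
        simpa [Derivation.leibniz] using h2
      have h4 : algebraMap R k d * c i = 0 := by
        rw [← Algebra.smul_def, ← hq i hi, pow_eq_zero_iff (Fact.out : p.Prime).ne_zero |>.1 h3,
          map_zero]
      have h5 : algebraMap R k d ≠ 0 := IsFractionRing.to_map_ne_zero_of_mem_nonZeroDivisors d.2
      apply Subtype.ext
      rw [← hc i, (mul_eq_zero.1 h4).resolve_left h5, map_zero]; rfl
    · intro j _ hji
      simp [Derivation.leibniz, pderiv_X_of_ne hji]
    · intro h; exact absurd hi h
  exact Module.Finite.not_linearIndependent_of_infinite _ hli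

end Pool.Agent.P.MP_d0ec72_al.Odd
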