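import Pool.Agent.P.MP_d0ec72_al.OCen

/-! Freeness over the centroid and finite generation of subalgebras. -/

namespace Pool.Agent.P.MP_d0ec72_al.Odd

open Module

variable {k K : Type*} [Field k] [Field K] [Algebra k K]

namespace Tow

variable {r : ℕ} {w : Tow k K r} {H : LieSubalgebra k (Derivation k K K)}

theorem top_lie' {n : ℕ} {D E : Derivation k K K} (hD : D ∈ w.F n) (hE : E ∈ w.F (n + 1)) :
    w.f (n + 1) ⁅E, D⁆ = -(w.θ n * (w.e n D * w.f n E)) := by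
  rw [← lie_skew, map_neg, w.top_lie hD hE]

theorem Big.mart (h : w.Big H) (M : ℕ) (R : Derivation k K K → Derivation k K K → Prop)
    (hR : ∀ X Y, R X Y → X ∈ w.O H M ∧ Y ∈ w.O H M)
    (ha : ∀ A ∈ w.O H M, ∀ X Y, R X Y → R ⁅A, X⁆ ⁅A, Y⁆)
    (hb : ∀ X Y X' Y', R X Y → R X' Y' → ⁅X, Y'⁆ + ⁅X', Y⁆ = 0)
    {X Y : Derivation k K K} {N : ℕ} (hXY : R X Y) (hX0 : X ≠ 0) (hXF : X ∈ w.F N)
    (hYF : Y ∈ w.F N) : ∃ c ∈ h.Cen M, ∀ X' Y', R X' Y' → X' ∈ w.Kl (N + 4) → Y' = c • X' := by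
  have hXg := h.good _ (hR _ _ hXY).1.1
  have hYg := h.good _ (hR _ _ hXY).2.1
  have he : w.e N X ≠ 0 := fun e => hX0 (hXg.inj N hXF e)
  obtain ⟨c, hc⟩ : ∃ c, c = w.e N Y * (w.e N X)⁻¹ := ⟨_, rfl⟩
  have hcκ : c ∈ w.κ (N + 1) := hc ▸ Subalgebra.mul_mem _ (hYg.eκ N) (w.inv _ (hXg.eκ N))
  have hce : w.e N Y = c * w.e N X := by simp [hc, he]
  have h1 : ∀ X' Y', R X' Y' → X' ∈ w.Kl (N + 4) → Y' = c • X' := by
    intro X' Y' h' hK
    have hXg' := h.good _ (hR _ _ h').1.1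
    have hYg' := h.good _ (hR _ _ h').2.1
    obtain ⟨i, hi⟩ := hXg'.1
    obtain ⟨j, hj⟩ := hYg'.1
    obtain ⟨m, hm, A, hA, hAF, hA0⟩ := h.hi M (N + i + j)
    have hXm : X ∈ w.F m := w.F_mono (by omega) hXF
    have hYm : Y ∈ w.F m := w.F_mono (by omega) hYF
    have hX'm : X' ∈ w.F (m + 1) := w.F_mono (by omega) hi
    have hY'm : Y' ∈ w.F (m + 1) := w.F_mono (by omega) hj
    have e := congrArg (w.f (m + 2)) (hb _ _ _ _ h' (ha A hA _ _ hXY))
    rw [map_add, map_zero, w.top_lie hX'm (w.lie_F hAF (w.F_mono (by omega) hYm)),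
      top_lie' hY'm (w.lie_F hAF (w.F_mono (by omega) hXm)), top_lie' hYm hAF, top_lie' hXm hAF,
      w.e_ratio hYF hXF hce (by omega : N ≤ m)] at e
    have hem : w.e m X ≠ 0 := fun e => hX0 (hXg.inj m hXm e)
    have e2 : w.e (m + 1) Y' - c * w.e (m + 1) X' = 0 := by
      refine mul_left_cancel₀ (mul_ne_zero (w.θ_ne (m + 1)) (mul_ne_zero (w.θ_ne m)
        (mul_ne_zero hem hA0))) ?_
      linear_combination e
    have hg : w.Good (c • X') := ⟨⟨i, (w.F i).smul_mem c hi⟩, fun t => by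
      rw [map_smul, smul_eq_mul]
      rcases lt_or_ge t (N + 1) with ht | ht
      · rw [w.f_kill hK ht, mul_zero]; exact Submodule.zero_mem _
      · exact w.A_mul t (w.mono ht hcκ) (hXg'.2 t)⟩
    exact sub_eq_zero.1 (Good.inj (w.LL.sub_mem hYg' hg) (m + 1)
      ((w.F _).sub_mem hY'm ((w.F _).smul_mem c hX'm)) (by simpa using e2))
  obtain ⟨A, hA, hne⟩ := h.prime1 (M + (N + 4)) (hR _ _ hXY).1.1 hX0
  have hAO : A ∈ w.O H M := ⟨hA.1, w.Kl_anti (by omega) hA.2⟩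
  have h2 := ha A hAO _ _ hXY
  have hK : ⁅A, X⁆ ∈ w.Kl (N + 4) := by
    rw [← lie_skew]; exact (w.Kl _).neg_mem (w.Kl_lie hXg (w.Kl_anti (by omega) hA.2))
  have hne' : ⁅A, X⁆ ≠ 0 := fun e => hne (by rw [← lie_skew, e, neg_zero])
  have h3 := h1 _ _ h2 hK
  refine ⟨c, ⟨fun B hB => ?_, _, (hR _ _ h2).1, hne', h3 ▸ (hR _ _ h2).2.1⟩, h1⟩
  have h4 := h1 _ _ (ha B hB _ _ h2) (w.Kl_lie (h.good _ hB.1) hK)
  rw [h3, lie_smul', add_eq_left] at h4
  exact (smul_eq_zero.1 h4).resolve_right hne'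

theorem Big.free (h : w.Big H) (M : ℕ) (b : Set K) (hb0 : ∀ s ∈ b, ∀ A ∈ w.O H M, A s = 0)
    (hind : ∀ (T : Finset K) (g : K → K), ↑T ⊆ b → (∀ s, g s ∈ h.Cen M) →
      ∑ s ∈ T, g s * s = 0 → ∀ s ∈ T, g s = 0) (T : Finset K) :
    ↑T ⊆ b → ∀ E : K → Derivation k K K, (∀ s, E s ∈ w.O H M) → ∑ s ∈ T, s • E s = 0 →
      ∀ s ∈ T, E s = 0 := by
  classical
  induction T using Finset.induction_on with
  | empty => simp
  | insert s0 T hs0 ih =>
    intro hT E hE hsum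
    have hT' : ↑T ⊆ b := fun s hs => hT (by simp [hs])
    let Rel : (K → Derivation k K K) → Prop := fun E =>
      (∀ s, E s ∈ w.O H M) ∧ ∑ s ∈ insert s0 T, s • E s = 0
    have h0 : ∀ E, Rel E → E s0 = 0 → ∀ s ∈ T, E s = 0 := fun E hE e =>
      ih hT' E hE.1 (by simpa [Finset.sum_insert hs0, e] using hE.2)
    have had : ∀ A ∈ w.O H M, ∀ E, Rel E → Rel fun s => ⁅A, E s⁆ := by
      intro A hA E hE
      refine ⟨fun s => h.O_lie hA.1 (hE.1 s), ?_⟩
      have := congrArg (LieAlgebra.ad k _ A) hE.2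
      rw [map_sum, map_zero] at this
      rw [← this]
      refine Finset.sum_congr rfl fun s hs => ?_
      rw [LieAlgebra.ad_apply, lie_smul', hb0 s (hT hs) A hA, zero_smul, add_zero]
    have h1 : ∀ E, Rel E → ∀ s ∈ T, ⁅E s0, E s⁆ = 0 := fun E hE =>
      h0 _ (had _ (hE.1 s0) E hE) (lie_self _)
    have h2 : ∀ E E', Rel E → Rel E' → ∀ s ∈ T, ⁅E s0, E' s⁆ + ⁅E' s0, E s⁆ = 0 := by
      intro E E' hE hE' s hs
      have := h1 (E + E') ⟨fun s => Submodule.add_mem _ (hE.1 s) (hE'.1 s), by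
        simp only [Pi.add_apply, smul_add, Finset.sum_add_distrib, hE.2, hE'.2, add_zero]⟩ s hs
      simpa [add_lie, lie_add, h1 E hE s hs, h1 E' hE' s hs, add_comm] using this
    have hRel : Rel E := ⟨hE, hsum⟩
    have hE0 : E s0 = 0 := by
      by_contra hne
      choose lev hlev using fun s => (h.good _ (hE s).1).1
      let N := (insert s0 T).sup lev
      have hN : ∀ s ∈ insert s0 T, E s ∈ w.F N := fun s hs =>
        w.F_mono (Finset.le_sup (f := lev) hs) (hlev s)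
      have hc : ∀ s, ∃ c ∈ h.Cen M, s ∈ T → ∀ E', Rel E' → E' s0 ∈ w.Kl (N + 4) →
          E' s = c • E' s0 := by
        intro s
        by_cases hs : s ∈ T
        · obtain ⟨c, hc, hc'⟩ := h.mart M (fun X Y => ∃ E', Rel E' ∧ X = E' s0 ∧ Y = E' s)
            (by rintro _ _ ⟨E', hE', rfl, rfl⟩; exact ⟨hE'.1 _, hE'.1 _⟩)
            (by rintro A hA _ _ ⟨E', hE', rfl, rfl⟩; exact ⟨_, had A hA E' hE', rfl, rfl⟩)
            (by rintro _ _ _ _ ⟨E1, hE1, rfl, rfl⟩ ⟨E2, hE2, rfl, rfl⟩; exact h2 _ _ hE1 hE2 s hs)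
            ⟨E, hRel, rfl, rfl⟩ hne (hN _ (by simp)) (hN _ (by simp [hs]))
          exact ⟨c, hc, fun _ E' hE' hK => hc' _ _ ⟨E', hE', rfl, rfl⟩ hK⟩
        · exact ⟨0, Subalgebra.zero_mem _, fun h => absurd h hs⟩
      choose c hc hc' using hc
      obtain ⟨A, hA, hne1⟩ := h.prime1 (M + (N + 4)) (hE s0).1 hne
      have hAO : A ∈ w.O H M := ⟨hA.1, w.Kl_anti (by omega) hA.2⟩
      have hK : ⁅A, E s0⁆ ∈ w.Kl (N + 4) := by
        rw [← lie_skew]
        exact (w.Kl _).neg_mem (w.Kl_lie (h.good _ (hE s0).1) (w.Kl_anti (by omega) hA.2))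
      have hne' : ⁅A, E s0⁆ ≠ 0 := fun e => hne1 (by rw [← lie_skew, e, neg_zero])
      have h3 := had A hAO E hRel
      have h4 : (∑ s ∈ insert s0 T, Function.update c s0 1 s * s) • ⁅A, E s0⁆ = 0 := by
        rw [← h3.2, Finset.sum_smul, Finset.sum_insert hs0, Finset.sum_insert hs0,
          Function.update_self, one_mul]
        congr 1
        refine Finset.sum_congr rfl fun s hs => ?_
        rw [Function.update_of_ne (fun e : s = s0 => hs0 (e ▸ hs)), mul_comm, ← smul_smul]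
        exact congrArg _ (hc' s hs _ h3 hK).symm
      have h5 := hind _ _ hT (fun s => by
        rcases eq_or_ne s s0 with rfl | e
        · rw [Function.update_self]; exact Subalgebra.one_mem _
        · rw [Function.update_of_ne e]; exact hc s) ((smul_eq_zero.1 h4).resolve_right hne') s0
        (by simp)
      simp at h5
    intro s hs
    rcases Finset.mem_insert.1 hs with rfl | hs
    exacts [hE0, h0 E hRel hE0 s hs]

theorem Big.descend (h : w.Big H) (M : ℕ) (I : Submodule k (Derivation k K K))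
    (hI : I ≤ w.O H M) (hIC : ∀ c ∈ h.Cen M, ∀ E ∈ I, c • E ∈ I) {E : Derivation k K K}
    (hE : E ∈ w.O H M) (hE' : E ∈ KS (w.κ M) I) : E ∈ I := by
  classical
  let C : IntermediateField k K := (h.Cen M).toIntermediateField fun _ hz => w.inv _ hz
  obtain ⟨b, hb, hb1, hb2, hb3⟩ := exists_linearIndepOn_id_extension (K := C) (s := {(1 : K)})
    (t := {c | ∀ A ∈ w.O H M, A c = 0}) ((linearIndepOn_singleton_iff C).2 one_ne_zero)
    (by rintro _ rfl; simp)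
  let Φ : (K →₀ Derivation k K K) →ₗ[k] Derivation k K K :=
    Finsupp.lsum k fun s => (LinearMap.lsmul K _ s).restrictScalars k
  let Z := (Finsupp.supported (Derivation k K K) k b ⊓ ⨅ s, I.comap (Finsupp.lapply s)).map Φ
  have h1 : ∀ a ∈ Submodule.span C b, ∀ D ∈ I, a • D ∈ Z := by
    intro a ha
    induction ha using Submodule.span_induction with
    | mem a ha =>
      intro D hD
      refine ⟨Finsupp.single a D, ⟨Finsupp.single_mem_supported k D ha, ?_⟩, by simp [Φ]⟩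
      simp only [SetLike.mem_coe, Submodule.mem_iInf, Submodule.mem_comap, Finsupp.lapply_apply,
        Finsupp.single_apply]
      intro s
      split_ifs
      exacts [hD, I.zero_mem]
    | zero => intro D _; rw [zero_smul]; exact Z.zero_mem
    | add a a' _ _ ha ha' => intro D hD; rw [add_smul]; exact Z.add_mem (ha D hD) (ha' D hD)
    | smul c a _ ha =>
      intro D hD
      have := ha _ (hIC c c.2 D hD)
      rwa [smul_smul, mul_comm] at this
  obtain ⟨G, ⟨hG, hG'⟩, e⟩ : E ∈ Z :=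
    KS_le (fun a ha D hD => h1 a (hb2 fun A hA => hA.2 a ha) D hD) hE'
  simp only [SetLike.mem_coe, Submodule.mem_iInf, Submodule.mem_comap, Finsupp.lapply_apply] at hG'
  obtain ⟨G', hG1⟩ : ∃ G' : K →₀ Derivation k K K, G' = G - Finsupp.single (1 : K) E := ⟨_, rfl⟩
  have h4 : Φ G' = 0 := by rw [hG1, map_sub, e]; simp [Φ]
  have h2 := h.free M b hb (fun T g hT hg e s hs => congrArg Subtype.val
      (linearIndepOn_iff'.1 hb3 T (fun s => ⟨g s, hg s⟩) hT e s hs)) G'.support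
    (hG1 ▸ Submodule.sub_mem _ hG (Finsupp.single_mem_supported k E (hb1 rfl))) G'
    (fun s => by
      rw [hG1, Finsupp.sub_apply, Finsupp.single_apply]
      refine Submodule.sub_mem _ (hI (hG' s)) ?_
      split_ifs
      exacts [hE, Submodule.zero_mem _]) h4
  have h3 : G' 1 = 0 := by
    by_contra hne
    exact hne (h2 1 (Finsupp.mem_support_iff.2 hne))
  rw [hG1, Finsupp.sub_apply, Finsupp.single_eq_same, sub_eq_zero] at h3
  exact h3 ▸ hG' 1

theorem Big.key (h : w.Big H) : ∃ N, ∀ G : LieSubalgebra k (Derivation k K K),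
    (∀ D ∈ H, D ∈ w.F N → D ∈ G) → H ≤ G := by
  obtain ⟨D0, hD0, hD00⟩ := h.ex 0
  obtain ⟨n1, hn1⟩ := (h.good _ hD0.1).1
  obtain ⟨n, hn, E0, hE0, hEF, hE00⟩ := h.hi 0 (n1 + 2)
  have hDF : D0 ∈ w.F n := w.F_mono (by omega) hn1
  obtain ⟨N1, hN1⟩ := h.const_fin fun X hX =>
    w.univ H h.good (by omega) hD0.1 hE0.1 hD00 hDF hEF hE00 hX
  obtain ⟨A, hA, hA0, hAC⟩ := h.witness hN1
  obtain ⟨n2, hn2⟩ := (h.good _ hA.1).1
  let s : Set (Derivation k K K) := {D | D ∈ H ∧ D ∈ w.F (n + 1 + n2)}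
  let G0 := LieSubalgebra.lieSpan k (Derivation k K K) s
  have hG0 : G0 ≤ H := LieSubalgebra.lieSpan_le.2 fun _ hD => hD.1
  let I : Submodule k (Derivation k K K) :=
    { carrier := {E | E ∈ w.Kl (n + 2) ∧ ∀ c ∈ h.Cen (n + 2), c • E ∈ G0}
      add_mem' := fun ha hb => ⟨(w.Kl _).add_mem ha.1 hb.1, fun c hc => by
        rw [smul_add]; exact G0.add_mem (ha.2 c hc) (hb.2 c hc)⟩
      zero_mem' := ⟨(w.Kl _).zero_mem, fun c _ => by rw [smul_zero]; exact G0.zero_mem⟩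
      smul_mem' := fun a E hE => ⟨(w.Kl _).smul_of_tower_mem a hE.1, fun c hc => by
        rw [smul_comm]; exact G0.smul_mem a (hE.2 c hc)⟩ }
  have hI : ∀ E ∈ I, E ∈ G0 := fun E hE => by simpa using hE.2 1 (Subalgebra.one_mem _)
  obtain ⟨N', n', hJ⟩ := w.just_inf s (N := n + 1 + n2) (fun D hD => ⟨h.good D hD.1, hD.2⟩)
    (fun X hX => w.univ G0 (fun D hD => h.good D (hG0 hD)) (by omega)
      (LieSubalgebra.subset_lieSpan ⟨hD0.1, w.F_mono (by omega) hDF⟩)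
      (LieSubalgebra.subset_lieSpan ⟨hE0.1, w.F_mono (by omega) hEF⟩) hD00 hDF hEF hE00 hX)
    I hI (fun E hE => hE.1) (fun D hD E hE => ⟨w.Kl_lie (h.good D (hG0 hD)) hE.1, fun c hc => by
      have := G0.sub_mem (G0.lie_mem hD (hE.2 c hc)) (hE.2 _ (h.Cen_der _ (hG0 hD) hc))
      simpa [lie_smul'] using this⟩) (A0 := A)
    ⟨hA.2, fun c hc => LieSubalgebra.subset_lieSpan
      ⟨hAC c hc, (w.F _).smul_mem c (w.F_mono (by omega) hn2)⟩⟩ hA0 (w.F_mono (by omega) hn2)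
  obtain ⟨B, hB, hBO, hle⟩ := cof_inf (H := w.O H (n + 2)) (w.Old_fg N' n')
    fun X hX => hJ X (h.good X hX.1)
  obtain ⟨n3, hn3⟩ := w.fg_F hB fun D hD => h.good D (hBO hD).1
  obtain ⟨n4, hn4⟩ := h.cof (n + 2)
  refine ⟨n + 1 + n2 + n3 + n4, fun G hG D hD => ?_⟩
  have hG0G : G0 ≤ G := LieSubalgebra.lieSpan_le.2 fun D hD => hG D hD.1 (w.F_mono (by omega) hD.2)
  obtain ⟨E, hE, hDE⟩ := hn4 D hD
  obtain ⟨Y, hY, Z, hZ, rfl⟩ := Submodule.mem_sup.1 (hle hE)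
  have h1 : Y ∈ I := h.descend _ I (fun E hE => ⟨hG0 (hI E hE), hE.1⟩)
    (fun c hc E hE => ⟨(w.Kl _).smul_mem c hE.1, fun d hd => by
      rw [smul_smul]; exact hE.2 _ (Subalgebra.mul_mem _ hd hc)⟩) hY.1 hY.2
  simpa using G.add_mem (hG _ (H.sub_mem hD hE.1) (w.F_mono (by omega) hDE))
    (G.add_mem (hG0G (hI Y h1)) (hG Z (hBO hZ).1 (w.F_mono (by omega) (hn3 Z hZ))))

variable (w)

theorem key (hH : H ≤ w.LL) : ∃ N, ∀ G : LieSubalgebra k (Derivation k K K),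
    (∀ D ∈ H, D ∈ w.F N → D ∈ G) → H ≤ G := by
  by_cases hu : ∀ n, ∃ X ∈ H, X ∉ w.F n
  · exact Big.key ⟨hH, hu⟩
  · push Not at hu
    obtain ⟨n, hn⟩ := hu
    exact ⟨n, fun G hG D hD => hG D hD (hn D hD)⟩

theorem noeth (c : ℕ →o LieSubalgebra k w.LL) : ∃ n, ∀ m, n ≤ m → c m = c n := by
  have hm : Monotone fun n => ((c n).map w.LL.incl).toSubmodule := by
    rintro _ _ h _ ⟨D, hD, rfl⟩
    exact ⟨D, c.mono h hD, rfl⟩
  let H : LieSubalgebra k (Derivation k K K) :=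
    { toSubmodule := ⨆ n, ((c n).map w.LL.incl).toSubmodule
      lie_mem' := by
        intro a b ha hb
        obtain ⟨i, hi⟩ := (Submodule.mem_iSup_of_directed _ hm.directed_le).1 ha
        obtain ⟨j, hj⟩ := (Submodule.mem_iSup_of_directed _ hm.directed_le).1 hb
        exact (Submodule.mem_iSup_of_directed _ hm.directed_le).2 ⟨max i j,
          ((c (max i j)).map w.LL.incl).lie_mem (hm (le_max_left _ _) hi)
            (hm (le_max_right _ _) hj)⟩ }
  have hcH : ∀ n, (c n).map w.LL.incl ≤ H := fun n =>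
    le_iSup (fun n => ((c n).map w.LL.incl).toSubmodule) n
  have hH : H ≤ w.LL := by
    intro D hD
    obtain ⟨i, E, -, rfl⟩ := (Submodule.mem_iSup_of_directed _ hm.directed_le).1 hD
    exact E.2
  obtain ⟨N, hN⟩ := w.key hH
  have := Module.Finite.iff_fg.2 (w.Old_fg (N + 1) N)
  have hfin : Module.Finite k (H.toSubmodule ⊓ (w.F N).restrictScalars k :
      Submodule k (Derivation k K K)) :=
    Submodule.finiteDimensional_of_le (S₂ := w.Old (N + 1) N) fun D hD => Good.old (hH hD.1) hD.2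
  have hm' : Monotone fun n => ((c n).map w.LL.incl).toSubmodule ⊓ (w.F N).restrictScalars k :=
    fun _ _ h => inf_le_inf_right _ (hm h)
  obtain ⟨n, hn⟩ := (Module.Finite.iff_fg.1 hfin).stabilizes_of_iSup_eq ⟨_, hm'⟩ (by
    refine le_antisymm (iSup_le fun n D hD => ⟨hcH n hD.1, hD.2⟩) ?_
    rintro D ⟨hD, hF⟩
    obtain ⟨i, hi⟩ := (Submodule.mem_iSup_of_directed _ hm.directed_le).1 hD
    exact (Submodule.mem_iSup_of_directed _ hm'.directed_le).2 ⟨i, hi, hF⟩)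
  have hH' := hN _ fun D hD hF => (hn.le ⟨hD, hF⟩).1
  refine ⟨n, fun m hm => le_antisymm (fun D hD => ?_) (c.mono hm)⟩
  obtain ⟨E, hE, e⟩ := hH' (hcH m ⟨D, hD, rfl⟩)
  exact (Subtype.ext e : E = D) ▸ hE

theorem not_finite : ¬ Module.Finite k w.LL := by
  intro hf
  obtain ⟨n, hn⟩ := w.fg_F (B := w.LL.toSubmodule) (Module.Finite.iff_fg.1 hf) fun _ h => h
  simpa [w.f_v] using (hn _ (w.v_good n)).2 n le_rfl

theorem main : ¬ Module.Finite k w.LL ∧
    (∀ c : ℕ →o LieSubalgebra k w.LL, ∃ n, ∀ m, n ≤ m → c m = c n) ∧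
    ⨅ n, LieModule.lowerCentralSeries k w.LL w.LL n = ⊥ :=
  ⟨w.not_finite, w.noeth, res_nil w.LL (by omega) w.pw w.x w.top fun _ hD => Good.val' hD⟩

end Tow

end Pool.Agent.P.MP_d0ec72_al.Odd
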